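import Pool.Agent.P.MP_52ab5a_al.F.Iface
import Pool.Agent.P.MP_52ab5a_al.K.Iface

/-! Step ABAD of the open orbit project. -/

namespace Pool.Agent.P.MP_52ab5a_al

open MvPolynomial WM

namespace AbadAux

/-- A set covered by finitely many conditions is the disjoint union of the places where a
condition is the first one that holds. -/
theorem ech_cover (hECH : S_ECH) {τ α : Type} [Fintype τ] [Fintype α] {F : (τ → ℂ) → ℂ}
    (hF : PolyFn F) {A : Set (τ → ℂ)} (hA : Con A) {B : α → (τ → ℂ) → Prop}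
    (hB : ∀ a, Con {q | B a q})
    (h : ∀ (a : α) (p : α → Prop), ech {q | q ∈ A ∧ B a q ∧ ∀ a', p a' → ¬B a' q} F = 0) :
    ech {q | q ∈ A ∧ ∃ a, B a q} F = 0 := by
  let f := Fintype.equivFin α
  have e : {q | q ∈ A ∧ ∃ a, B a q} =
      ⋃ a, {q | q ∈ A ∧ B a q ∧ ∀ a', f a' < f a → ¬B a' q} := by
    ext q
    simp only [Set.mem_ofPred_eq, Set.mem_iUnion]
    refine ⟨fun ⟨h1, h2⟩ => ?_, fun ⟨a, h1, h2, _⟩ => ⟨h1, a, h2⟩⟩
    obtain ⟨a, ha, hm⟩ := Set.exists_min_image {a | B a q} f (Set.toFinite _) h2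
    exact ⟨a, h1, ha, fun a' hl hb => absurd (hm a' hb) (not_le.2 hl)⟩
  rw [e, (hECH.2 τ F hF).2.1 α (fun a => {q | q ∈ A ∧ B a q ∧ ∀ a', f a' < f a → ¬B a' q})
    (fun a => Con.and hA ((hB a).and (Con.all fun a' => Con.imp' fun _ => (hB a').not)))
    fun a b hab => Set.disjoint_left.2 fun q ha hb => ?_]
  · exact Finset.sum_eq_zero fun a _ => h a _
  · rcases lt_or_gt_of_ne (f.injective.ne hab) with l | l
    exacts [hb.2.2 a l ha.2.1, ha.2.2 b l hb.2.1]

variable {Q₀ Q₁ β κ : Type} [DecidableEq Q₀] (s t : Q₁ → Q₀) (vx : β → Q₀)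

theorem polyMat {ι : Type} (r : Ent s t vx → ι) (a : Q₁) (c b : β) :
    PolyFn fun x : ι → ℂ => mat s t vx (x ∘ r) a c b := by
  simp only [mat, Matrix.of_apply]
  split_ifs
  exacts [PolyFn.coord _, PolyFn.const _]

variable [Fintype κ] [LinearOrder κ]

open Classical in
/-- The direction along which the phase is linear. -/
noncomputable def dirV (w : κ ≃ β) (a : Q₁) (j k : κ) (q : (β ×ₗ κ) ⊕ Ent s t vx → ℂ) :
    (β ×ₗ κ) ⊕ Ent s t vx → ℂ :=
  Sum.elim 0 fun p => if p.1.1 = a then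
    cols (q ∘ Sum.inl) p.1.2.1 k * cinv w (cols (q ∘ Sum.inl)) j p.1.2.2 else 0

theorem mat_dirV (w : κ ≃ β) (a : Q₁) (j k : κ) (q : (β ×ₗ κ) ⊕ Ent s t vx → ℂ)
    (h : ∀ c b, cols (q ∘ Sum.inl) c k * cinv w (cols (q ∘ Sum.inl)) j b ≠ 0 →
      vx c = t a ∧ vx b = s a) :
    mat s t vx (dirV s t vx w a j k q ∘ Sum.inr) a =
      cols (q ∘ Sum.inl) * Matrix.single k j (1 : ℂ) * cinv w (cols (q ∘ Sum.inl)) ∧
    ∀ a', a' ≠ a → mat s t vx (dirV s t vx w a j k q ∘ Sum.inr) a' = 0 := by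
  refine ⟨Matrix.ext fun c b => ?_, fun a' ha => Matrix.ext fun c b => ?_⟩
  · have e : (cols (q ∘ Sum.inl) * Matrix.single k j (1 : ℂ) * cinv w (cols (q ∘ Sum.inl))) c b =
        cols (q ∘ Sum.inl) c k * cinv w (cols (q ∘ Sum.inl)) j b := by
      rw [Matrix.mul_apply, Finset.sum_eq_single j (fun l _ hl => by
        rw [Matrix.mul_single_apply_of_ne _ _ _ _ _ hl, zero_mul]) (by simp),
        Matrix.mul_single_apply_same, mul_one]
    rw [e]
    simp only [mat, Matrix.of_apply, dirV, Function.comp, Sum.elim_inr, if_true]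
    split_ifs with k1
    · rfl
    · by_contra k2
      exact k1 (h c b (Ne.symm k2))
  · simp [mat, dirV, ha]

end AbadAux

open AbadAux in
theorem p_ABAD (hADM : S_ADM) (hCELL : S_CELL) (hECH : S_ECH) :
    S_ABAD := by
  classical
  intro Q₀ Q₁ β κ _ _ _ _ _ _ s t vx deg z i w hz
  obtain ⟨-, -, -, -, -, a6, a7, -, -, -, -, -, -, -, -, -, -, a18, -⟩ := hADM Q₀ Q₁ β s t vx
  obtain ⟨c1, -, -, c4⟩ := hCELL Q₀ β κ vx i w
  have pg : ∀ b k, PolyFn fun q : (β ×ₗ κ) ⊕ Ent s t vx → ℂ => cols (q ∘ Sum.inl) b k :=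
    fun b k => PolyFn.coord _
  obtain ⟨pc, -, c5⟩ := c4 _ _ pg
  have pe : ∀ a j k, PolyFn fun q : (β ×ₗ κ) ⊕ Ent s t vx → ℂ =>
      (cinv w (cols (q ∘ Sum.inl)) * dbl s t vx z (Sum.inr a) * cols (q ∘ Sum.inl)) j k :=
    fun a j k => by
      simp only [Matrix.mul_apply]
      exact PolyFn.sum _ fun b _ =>
        (PolyFn.sum _ fun c _ => (pc j c).mul (PolyFn.const _)).mul (pg b k)
  have hA : Con (attr s t vx deg z i w) := by
    have := (c5 Q₁ (fun a q => mat s t vx (q ∘ Sum.inr) a) (polyMat s t vx Sum.inr)).1.and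
      (Con.all fun p => Con.imp' (p := wtE s t vx deg p ≤ 0) fun _ =>
        Con.eq (PolyFn.coord (Sum.inr p)) (PolyFn.const (z (Sum.inl p))))
    simpa only [and_assoc, attr] using this
  have hP : PolyFn (phase (κ := κ) s t vx deg z) := PolyFn.sum _ fun p _ => by
    split_ifs
    exacts [PolyFn.const _, (PolyFn.const _).mul (PolyFn.coord _)]
  refine ⟨hA, Con.all fun a => Con.all fun j => Con.all fun k => Con.imp' fun _ =>
    Con.imp' fun _ => Con.eq_zero (pe a j k), hP, ?_⟩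
  let B : Q₁ × κ × κ → ((β ×ₗ κ) ⊕ Ent s t vx → ℂ) → Prop := fun τ q =>
    (τ.2.2 < τ.2.1 ∧ deg (w τ.2.1) - deg (w τ.2.2) = -1) ∧
      (cinv w (cols (q ∘ Sum.inl)) * dbl s t vx z (Sum.inr τ.1) * cols (q ∘ Sum.inl))
        τ.2.1 τ.2.2 ≠ 0
  have hB : ∀ τ, Con {q | B τ q} := fun τ => (Con.const _).and (Con.ne_zero (pe _ _ _))
  have e : attr s t vx deg z i w \ {q | GoodF s t vx deg z w (cols (q ∘ Sum.inl))} =
      {q | q ∈ attr s t vx deg z i w ∧ ∃ τ, B τ q} := by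
    ext q
    simp only [Set.mem_sdiff, Set.mem_ofPred_eq, GoodF, not_forall, Prod.exists, B, exists_prop,
      and_assoc]
  rw [e]
  refine ech_cover hECH hP hA hB fun ⟨a, j, k⟩ p => (hECH.2 _ _ hP).2.2.2 _ (dirV s t vx w a j k)
    _ (Con.and hA ((hB _).and (Con.all fun a' => Con.imp' fun _ => (hB a').not))) (fun o => ?_)
    (pe a j k) fun q ⟨⟨q1, q2, q3⟩, ⟨⟨b1, b2⟩, b3⟩, b4⟩ => ⟨b3, fun u => ?_⟩
  · rcases o with o | o
    · exact PolyFn.const 0
    · simp only [dirV, Sum.elim_inr]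
      split_ifs
      exacts [(pg _ _).mul (pc _ _), PolyFn.const _]
  dsimp only at b1 b2 b3
  have same : (q + u • dirV s t vx w a j k q) ∘ Sum.inl = q ∘ Sum.inl := by
    funext o; simp [dirV]
  obtain ⟨d1, -, d3, d4, -, d6, -⟩ := c1 _ q1
  have ty : i j = s a ∧ i k = t a := by
    rw [Matrix.mul_apply] at b3
    obtain ⟨b, -, hb⟩ := Finset.exists_ne_zero_of_sum_ne_zero b3
    have h1 := left_ne_zero_of_mul hb
    rw [Matrix.mul_apply] at h1
    obtain ⟨c, -, hc⟩ := Finset.exists_ne_zero_of_sum_ne_zero h1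
    have h2 := a6 z (Sum.inr a) c b (right_ne_zero_of_mul hc)
    exact ⟨(d4 j c (left_ne_zero_of_mul hc)).2.symm.trans h2.1,
      (d3 b k (right_ne_zero_of_mul hb)).2.symm.trans h2.2⟩
  obtain ⟨m1, m2⟩ := mat_dirV s t vx w a j k q fun c b h =>
    ⟨(d3 c k (left_ne_zero_of_mul h)).2.trans ty.2, (d4 j b (right_ne_zero_of_mul h)).2.trans ty.1⟩
  have wt : ∀ p, wtE s t vx deg p ≤ 0 → dirV s t vx w a j k q (Sum.inr p) = 0 := fun p hp => by
    simp only [dirV, Sum.elim_inr]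
    split_ifs
    · by_contra h
      have h1 := d3 _ _ (left_ne_zero_of_mul h)
      have h2 := d4 _ _ (right_ne_zero_of_mul h)
      have h3 := hz.sorted _ _ (h1.2.trans (q1 k).1.symm) h1.1
      have h4 := hz.sorted _ _ ((q1 j).1.trans h2.2.symm) h2.1
      simp only [wtE] at hp
      omega
    · rfl
  refine ⟨⟨⟨by rwa [same], fun a' => ?_, fun p hp => ?_⟩, ⟨⟨b1, b2⟩, by rwa [same]⟩,
    fun τ h => by simpa only [B, same] using b4 τ h⟩, by rw [dirV, same]; rfl,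
    by simp only [same], ?_⟩
  · have e1 : (q + u • dirV s t vx w a j k q) ∘ Sum.inr =
        q ∘ Sum.inr + u • (dirV s t vx w a j k q ∘ Sum.inr) := rfl
    rw [same, e1, (a7 _ _ u a').1, (a7 _ 0 u a').2, d6]
    intro j' k' l
    rw [Matrix.mul_add, Matrix.add_mul, Matrix.add_apply, (d6 _).1 (q2 a') j' k' l, zero_add]
    by_cases h : a' = a
    · rw [h, m1, Matrix.mul_smul, Matrix.smul_mul, ← Matrix.mul_assoc, ← Matrix.mul_assoc, d1,
        Matrix.one_mul, Matrix.mul_assoc, d1, Matrix.mul_one, Matrix.smul_apply,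
        Matrix.single_apply_of_ne _ _ _ _ _ fun ⟨r1, r2⟩ => lt_asymm b1 (by rwa [r1, r2]),
        smul_zero]
    · simp [m2 a' h]
  · simp [wt p hp, q3 p hp]
  · have e1 : ∑ p, z (Sum.inr p) * dirV s t vx w a j k q (Sum.inr p) =
        (cinv w (cols (q ∘ Sum.inl)) * dbl s t vx z (Sum.inr a) * cols (q ∘ Sum.inl)) j k := by
      refine (a18 (dirV s t vx w a j k q ∘ Sum.inr) (z ∘ Sum.inr)).trans ?_
      rw [Finset.sum_eq_single a (fun a' _ h => by simp [m2 a' h]) (by simp), m1,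
        ← Matrix.mul_assoc, Matrix.trace_mul_comm, ← Matrix.mul_assoc, ← Matrix.mul_assoc,
        Matrix.trace_mul_single]
      simp [dbl]
    rw [← e1, phase, phase, Finset.mul_sum, ← Finset.sum_add_distrib]
    refine Finset.sum_congr rfl fun p _ => ?_
    split_ifs with hp
    · simp [wt p hp]
    · simp only [Pi.add_apply, Pi.smul_apply, smul_eq_mul]; ring

end Pool.Agent.P.MP_52ab5a_al
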