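import Pool.Agent.P.MP_52ab5a_al.F.Iface

/-! Step ADM of the open orbit project. -/

namespace Pool.Agent.P.MP_52ab5a_al

open MvPolynomial WM

namespace AdmAux

section gd

variable {Q₀ β : Type} {vx : β → Q₀}

theorem gd_one [DecidableEq β] : Gd vx (1 : Matrix β β ℂ) := fun c b h =>
  Matrix.one_apply_ne fun e => h (by rw [e])

theorem gd_diag [DecidableEq β] (d : β → ℂ) : Gd vx (Matrix.diagonal d) := fun c b h =>
  Matrix.diagonal_apply_ne _ fun e => h (by rw [e])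

theorem gd_tr {γ : Matrix β β ℂ} (h : Gd vx γ) : Gd vx γ.transpose := fun c b e =>
  h b c (Ne.symm e)

theorem gd_sub {γ δ : Matrix β β ℂ} (h : Gd vx γ) (h' : Gd vx δ) : Gd vx (γ - δ) :=
  fun c b e => by rw [Matrix.sub_apply, h c b e, h' c b e, sub_zero]

theorem gd_mul [Fintype β] {γ δ : Matrix β β ℂ} (h : Gd vx γ) (h' : Gd vx δ) :
    Gd vx (γ * δ) := fun c b e => by
  rw [Matrix.mul_apply]
  refine Finset.sum_eq_zero fun j _ => ?_
  by_cases k : vx c = vx j
  · rw [h' j b (k ▸ e), mul_zero]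
  · rw [h c j k, zero_mul]

theorem inv [Fintype β] [DecidableEq β] (γ : Matrix β β ℂ) (hu : IsUnit γ) (h : Gd vx γ) :
    ∃ δ, GInv vx γ δ := by
  classical
  obtain ⟨u, rfl⟩ := hu
  refine ⟨(u⁻¹ : (Matrix β β ℂ)ˣ), h, fun c b e => ?_, u.mul_inv, u.inv_mul⟩
  let P : Matrix β β ℂ := Matrix.diagonal fun j => if vx j = vx b then 1 else 0
  have h1 : (u : Matrix β β ℂ) * P = P * u := by
    ext i j
    rw [Matrix.mul_diagonal, Matrix.diagonal_mul]
    by_cases k : vx i = vx j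
    · rw [k, mul_comm]
    · rw [h i j k, zero_mul, mul_zero]
  have h2 : ((u⁻¹ : (Matrix β β ℂ)ˣ) : Matrix β β ℂ) * P = P * (u⁻¹ : (Matrix β β ℂ)ˣ) :=
    (Commute.units_inv_left h1).eq
  have h3 := congrFun (congrFun h2 c) b
  rw [Matrix.mul_diagonal, Matrix.diagonal_mul, if_pos rfl, if_neg e, mul_one, zero_mul] at h3
  exact h3

end gd

variable {Q₀ Q₁ β : Type} [DecidableEq Q₀] {s t : Q₁ → Q₀} {vx : β → Q₀}

theorem mat_ent (x : Ent s t vx → ℂ) (p : Ent s t vx) :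
    mat s t vx x p.1.1 p.1.2.1 p.1.2.2 = x p := by
  simp only [mat, Matrix.of_apply]
  rw [dif_pos p.2]

theorem mat_off (x : Ent s t vx → ℂ) {a : Q₁} {c b : β} (h : ¬(vx c = t a ∧ vx b = s a)) :
    mat s t vx x a c b = 0 := by
  simp only [mat, Matrix.of_apply]
  rw [dif_neg h]

theorem mat_supp (x : Ent s t vx → ℂ) {a : Q₁} {c b : β} (h : mat s t vx x a c b ≠ 0) :
    vx c = t a ∧ vx b = s a := by
  by_contra k
  exact h (mat_off x k)

theorem mat_inj {x x' : Ent s t vx → ℂ} (h : ∀ a, mat s t vx x a = mat s t vx x' a) : x = x' :=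
  funext fun p => by rw [← mat_ent x p, ← mat_ent x' p, h]

theorem mat_eq {x : Ent s t vx → ℂ} {a : Q₁} {A : Matrix β β ℂ}
    (h0 : ∀ c b, ¬(vx c = t a ∧ vx b = s a) → A c b = 0)
    (h1 : ∀ c b h, x ⟨(a, c, b), h⟩ = A c b) : mat s t vx x a = A := by
  ext c b
  by_cases h : vx c = t a ∧ vx b = s a
  · rw [← h1 c b h]
    exact mat_ent x ⟨(a, c, b), h⟩
  · rw [mat_off x h, h0 c b h]

theorem mat_surj (A : Q₁ → Matrix β β ℂ) (h : ∀ a c b, A a c b ≠ 0 → vx c = t a ∧ vx b = s a) :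
    ∃ x, ∀ a, mat s t vx x a = A a :=
  ⟨fun p => A p.1.1 p.1.2.1 p.1.2.2, fun a =>
    mat_eq (fun c b k => by by_contra e; exact k (h a c b e)) fun _ _ _ => rfl⟩

theorem mat_add (x x' : Ent s t vx → ℂ) (a : Q₁) :
    mat s t vx (x + x') a = mat s t vx x a + mat s t vx x' a :=
  mat_eq (fun c b k => by rw [Matrix.add_apply, mat_off x k, mat_off x' k, add_zero])
    fun c b h => by
      rw [Matrix.add_apply, Pi.add_apply, ← mat_ent x ⟨(a, c, b), h⟩, ← mat_ent x' ⟨(a, c, b), h⟩]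

theorem mat_smul (z : ℂ) (x : Ent s t vx → ℂ) (a : Q₁) :
    mat s t vx (z • x) a = z • mat s t vx x a :=
  mat_eq (fun c b k => by rw [Matrix.smul_apply, mat_off x k, smul_zero])
    fun c b h => by rw [Matrix.smul_apply, Pi.smul_apply, ← mat_ent x ⟨(a, c, b), h⟩]

theorem mat_neg (x : Ent s t vx → ℂ) (a : Q₁) : mat s t vx (-x) a = -mat s t vx x a := by
  rw [← neg_one_smul ℂ x, mat_smul, neg_one_smul]

theorem mat_sub (x x' : Ent s t vx → ℂ) (a : Q₁) :
    mat s t vx (x - x') a = mat s t vx x a - mat s t vx x' a := by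
  rw [sub_eq_add_neg, mat_add, mat_neg, sub_eq_add_neg]

omit [DecidableEq Q₀] in
theorem Adm_tr (γ δ : Matrix β β ℂ) :
    (Adm s t vx γ δ).transpose = Adm s t vx γ.transpose δ.transpose := by
  ext p q
  simp only [Adm, Matrix.transpose_apply, Matrix.of_apply]
  by_cases e : p.1.1 = q.1.1
  · rw [if_pos e, if_pos e.symm]
  · rw [if_neg e, if_neg (Ne.symm e)]

omit [DecidableEq Q₀] in
theorem adm_tr [DecidableEq β] (ξ : Matrix β β ℂ) :
    (adm s t vx ξ).transpose = adm s t vx ξ.transpose := by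
  rw [adm, adm, Matrix.transpose_sub, Adm_tr, Adm_tr, Matrix.transpose_one]

omit [DecidableEq Q₀] in
theorem adm_add [DecidableEq β] (ξ η : Matrix β β ℂ) :
    adm s t vx (ξ + η) = adm s t vx ξ + adm s t vx η := by
  ext p q
  simp only [adm, Adm, Matrix.sub_apply, Matrix.add_apply, Matrix.of_apply]
  split_ifs <;> ring

omit [DecidableEq Q₀] in
theorem adm_smul [DecidableEq β] (c : ℂ) (ξ : Matrix β β ℂ) :
    adm s t vx (c • ξ) = c • adm s t vx ξ := by
  ext p q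
  simp only [adm, Adm, Matrix.sub_apply, Matrix.smul_apply, Matrix.of_apply, smul_eq_mul]
  split_ifs <;> ring

omit [DecidableEq Q₀] in
theorem Adm_diag [DecidableEq Q₁] [DecidableEq β] (a b : β → ℂ) :
    Adm s t vx (Matrix.diagonal a) (Matrix.diagonal b) =
      Matrix.diagonal fun p => a p.1.2.1 * b p.1.2.2 := by
  ext ⟨⟨a₁, c₁, b₁⟩, h₁⟩ ⟨⟨a₂, c₂, b₂⟩, h₂⟩
  simp only [Adm, Matrix.of_apply, Matrix.diagonal_apply, Subtype.mk.injEq, Prod.mk.injEq]
  by_cases e1 : a₁ = a₂ <;> by_cases e2 : c₁ = c₂ <;> by_cases e3 : b₁ = b₂ <;>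
    simp [e1, e2, e3, eq_comm (a := b₂)]

omit [DecidableEq Q₀] in
theorem mem_gl [DecidableEq β] (A : Matrix (Ent s t vx) (Ent s t vx) ℂ) :
    A ∈ gl s t vx ↔ ∃ ξ, Gd vx ξ ∧ A = adm s t vx ξ := by
  refine ⟨fun h => ?_, fun h => Submodule.subset_span h⟩
  induction h using Submodule.span_induction with
  | mem A h => exact h
  | zero =>
    refine ⟨(0 : ℂ) • 1, fun c b e => ?_, by rw [adm_smul, zero_smul]⟩
    rw [zero_smul, Matrix.zero_apply]
  | add A B _ _ hA hB =>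
    obtain ⟨ξ, h1, rfl⟩ := hA
    obtain ⟨η, h2, rfl⟩ := hB
    exact ⟨ξ + η, fun c b e => by rw [Matrix.add_apply, h1 c b e, h2 c b e, add_zero],
      (adm_add ξ η).symm⟩
  | smul z A _ hA =>
    obtain ⟨ξ, h1, rfl⟩ := hA
    exact ⟨z • ξ, fun c b e => by rw [Matrix.smul_apply, h1 c b e, smul_zero],
      (adm_smul z ξ).symm⟩

variable [Fintype Q₁] [Fintype β]

theorem sum_ent (g : Q₁ × β × β → ℂ) (x : Ent s t vx → ℂ) :
    ∑ q, g q.1 * x q = ∑ a, ∑ c, ∑ b, g (a, c, b) * mat s t vx x a c b := by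
  have h := Finset.sum_subtype (p := fun p : Q₁ × β × β => vx p.2.1 = t p.1 ∧ vx p.2.2 = s p.1)
    (F := inferInstance) (Finset.univ.filter fun p : Q₁ × β × β =>
      vx p.2.1 = t p.1 ∧ vx p.2.2 = s p.1) (by simp)
    (fun p => g p * mat s t vx x p.1 p.2.1 p.2.2)
  simp only [mat_ent] at h
  rw [← h, Finset.sum_filter_of_ne fun p _ e => mat_supp x (right_ne_zero_of_mul e)]
  simp only [Fintype.sum_prod_type]

theorem mat_Adm {γ δ : Matrix β β ℂ} (h : Gd vx γ) (h' : Gd vx δ) (x : Ent s t vx → ℂ) (a : Q₁) :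
    mat s t vx ((Adm s t vx γ δ).mulVec x) a = γ * mat s t vx x a * δ := by
  classical
  refine mat_eq (fun c b k => ?_) fun c b k => ?_
  · simp only [Matrix.mul_apply, Finset.sum_mul]
    refine Finset.sum_eq_zero fun j _ => Finset.sum_eq_zero fun i _ => ?_
    by_cases e : vx i = t a ∧ vx j = s a
    · by_cases e1 : vx c = vx i
      · rw [h' j b fun e2 => k ⟨e1.trans e.1, e2.symm.trans e.2⟩, mul_zero]
      · rw [h c i e1, zero_mul, zero_mul]
    · rw [mat_off x e, mul_zero, zero_mul]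
  · have := sum_ent (fun q => if a = q.1 then γ c q.2.1 * δ q.2.2 b else 0) x
    simp only [ite_mul, zero_mul, Finset.sum_ite_irrel, Finset.sum_const_zero, Finset.sum_ite_eq,
      Finset.mem_univ, if_true] at this
    simp only [Matrix.mulVec, dotProduct, Adm, Matrix.of_apply, Matrix.mul_apply, Finset.sum_mul,
      ite_mul, zero_mul]
    rw [Finset.sum_comm]
    refine Eq.trans ?_ (this.trans (Finset.sum_congr rfl fun i _ =>
      Finset.sum_congr rfl fun j _ => by ring))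
    exact Finset.sum_congr rfl fun q _ => by congr

theorem mext {A B : Matrix (Ent s t vx) (Ent s t vx) ℂ}
    (h : ∀ x a, mat s t vx (A.mulVec x) a = mat s t vx (B.mulVec x) a) : A = B :=
  Matrix.ext_iff_mulVec.2 fun x => mat_inj (h x)

theorem Adm_mul {γ δ γ' δ' : Matrix β β ℂ} (h1 : Gd vx γ) (h2 : Gd vx δ) (h3 : Gd vx γ')
    (h4 : Gd vx δ') : Adm s t vx γ δ * Adm s t vx γ' δ' = Adm s t vx (γ * γ') (δ' * δ) :=
  mext fun x a => by
    rw [← Matrix.mulVec_mulVec, mat_Adm h1 h2, mat_Adm h3 h4, mat_Adm (gd_mul h1 h3) (gd_mul h4 h2)]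
    simp only [Matrix.mul_assoc]

variable [DecidableEq β]

theorem mat_adm {ξ : Matrix β β ℂ} (h : Gd vx ξ) (x : Ent s t vx → ℂ) (a : Q₁) :
    mat s t vx ((adm s t vx ξ).mulVec x) a = ξ * mat s t vx x a - mat s t vx x a * ξ := by
  rw [adm, Matrix.sub_mulVec, mat_sub, mat_Adm h gd_one, mat_Adm gd_one h, Matrix.mul_one,
    Matrix.one_mul]

theorem isLie : IsLie (gl s t vx) := by
  intro A hA B hB
  obtain ⟨ξ, h1, rfl⟩ := (mem_gl A).1 hA
  obtain ⟨η, h2, rfl⟩ := (mem_gl B).1 hB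
  have h3 := gd_sub (gd_mul h1 h2) (gd_mul h2 h1)
  refine (mem_gl _).2 ⟨ξ * η - η * ξ, h3, mext fun x a => ?_⟩
  rw [Matrix.sub_mulVec, mat_sub, ← Matrix.mulVec_mulVec, ← Matrix.mulVec_mulVec, mat_adm h1,
    mat_adm h2, mat_adm h2, mat_adm h1, mat_adm h3]
  noncomm_ring

theorem conj {γ δ ξ : Matrix β β ℂ} (h : GInv vx γ δ) (h1 : Gd vx ξ) :
    Adm s t vx γ δ * adm s t vx ξ * Adm s t vx δ γ = adm s t vx (γ * ξ * δ) :=
  mext fun x a => by
    rw [← Matrix.mulVec_mulVec, ← Matrix.mulVec_mulVec, mat_Adm h.gd h.gd', mat_adm h1,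
      mat_Adm h.gd' h.gd, mat_adm (gd_mul (gd_mul h.gd h1) h.gd')]
    simp only [Matrix.mul_sub, Matrix.sub_mul, Matrix.mul_assoc, h.mul, Matrix.mul_one]
    rw [← Matrix.mul_assoc γ δ, h.mul, Matrix.one_mul]

end AdmAux

open AdmAux in
theorem p_ADM :
    S_ADM := by
  intro Q₀ Q₁ β _ _ _ _ _ s t vx
  refine ⟨mem_gl, fun _ _ => mat_inj, fun y y' h => ?_, mat_surj, fun A h => ?_,
    fun y a c b h => ?_, fun x x' c a => ⟨mat_add x x' a, mat_smul c x a⟩, fun y y' c a => ?_,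
    fun _ _ x a h h' => mat_Adm h h' x a, fun _ x a h => mat_adm h x a,
    fun _ _ _ _ => Adm_mul, ?_, isLie, fun ξ η c => ⟨adm_add ξ η, adm_smul c ξ⟩,
    fun _ _ _ => conj, fun deg => ?_, Adm_diag, fun x y => ?_, fun ξ y a h => ?_, inv⟩
  · have h1 : y ∘ Sum.inl = y' ∘ Sum.inl := mat_inj fun a => h (Sum.inl a)
    have h2 : y ∘ Sum.inr = y' ∘ Sum.inr :=
      mat_inj fun a => Matrix.transpose_injective (h (Sum.inr a))
    funext p
    rcases p with p | p
    exacts [congrFun h1 p, congrFun h2 p]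
  · obtain ⟨x, hx⟩ := mat_surj (s := s) (t := t) (vx := vx) (fun a => A (Sum.inl a))
      fun a c b e => h (Sum.inl a) c b e
    obtain ⟨x', hx'⟩ := mat_surj (s := s) (t := t) (vx := vx) (fun a => (A (Sum.inr a)).transpose)
      fun a c b e => (h (Sum.inr a) b c e).symm
    refine ⟨Sum.elim x x', ?_⟩
    rintro (a | a)
    · exact hx a
    · exact congrArg Matrix.transpose (hx' a)
  · rcases a with a | a
    · exact mat_supp (y ∘ Sum.inl) h
    · exact (mat_supp (y ∘ Sum.inr) h).symm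
  · rcases a with a | a
    · exact ⟨mat_add (y ∘ Sum.inl) (y' ∘ Sum.inl) a, mat_smul c (y ∘ Sum.inl) a⟩
    · exact ⟨congrArg Matrix.transpose (mat_add (y ∘ Sum.inr) (y' ∘ Sum.inr) a),
        congrArg Matrix.transpose (mat_smul c (y ∘ Sum.inr) a)⟩
  · rw [← Matrix.diagonal_one, Adm_diag, ← Matrix.diagonal_one]
    simp only [mul_one]
  · rw [adm, dg, dg, ← Matrix.diagonal_one, Adm_diag, Adm_diag, Matrix.diagonal_sub]
    simp only [wtE, mul_one, one_mul, Int.cast_sub]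
  · have := sum_ent (fun q => mat s t vx y q.1 q.2.1 q.2.2) x
    simp only [mat_ent] at this
    rw [this]
    refine Finset.sum_congr rfl fun a _ => ?_
    rw [Finset.sum_comm]
    simp only [Matrix.trace, Matrix.diag_apply, Matrix.mul_apply, Matrix.transpose_apply]
  · rcases a with a | a
    · exact mat_adm h (y ∘ Sum.inl) a
    · change (mat s t vx (-(adm s t vx ξ).transpose.mulVec (y ∘ Sum.inr)) a).transpose =
        ξ * (mat s t vx (y ∘ Sum.inr) a).transpose - (mat s t vx (y ∘ Sum.inr) a).transpose * ξ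
      rw [mat_neg, adm_tr, mat_adm (gd_tr h), neg_sub, Matrix.transpose_sub, Matrix.transpose_mul,
        Matrix.transpose_mul, Matrix.transpose_transpose]

end Pool.Agent.P.MP_52ab5a_al
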