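import Pool.Agent.P.MP_52ab5a_al.F.Iface
import Pool.Agent.P.MP_52ab5a_al.K.Iface

/-! Step AGOOD of the open orbit project. -/

namespace Pool.Agent.P.MP_52ab5a_al

open MvPolynomial WM

namespace AgoodAux

/-- The action of the torus on matrices. -/
noncomputable def sc {α γ : Type} (u : ℂ) (r : α → ℤ) (c : γ → ℤ) (M : Matrix α γ ℂ) :
    Matrix α γ ℂ := Matrix.of fun a b => u ^ (r a - c b) * M a b

theorem sc_mul {α γ δ : Type} [Fintype γ] {u : ℂ} (hu : u ≠ 0) (r : α → ℤ) (c : γ → ℤ) (d : δ → ℤ)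
    (M : Matrix α γ ℂ) (N : Matrix γ δ ℂ) : sc u r c M * sc u c d N = sc u r d (M * N) := by
  ext a b
  simp only [sc, Matrix.mul_apply, Matrix.of_apply, Finset.mul_sum]
  refine Finset.sum_congr rfl fun j _ => ?_
  rw [show r a - d b = r a - c j + (c j - d b) by ring, zpow_add₀ hu]; ring

theorem sc_one {α : Type} [DecidableEq α] (u : ℂ) (r : α → ℤ) : sc u r r 1 = 1 := by
  ext a b
  by_cases h : a = b <;> simp [sc, Matrix.one_apply, h]

theorem sc_hom {α : Type} {u : ℂ} (hu : u ≠ 0) (r : α → ℤ) (d : ℤ) {M : Matrix α α ℂ}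
    (hM : ∀ c b, M c b ≠ 0 → r c - r b = d) : M = u ^ (-d) • sc u r r M := by
  ext c b
  by_cases h : M c b = 0
  · simp [sc, h]
  · simp only [sc, Matrix.smul_apply, Matrix.of_apply, hM c b h, smul_eq_mul]
    rw [← mul_assoc, ← zpow_add₀ hu]; simp

variable {Q₀ β κ : Type} [Fintype β] [LinearOrder β] [Fintype κ] [LinearOrder κ] {vx : β → Q₀}
  {i : κ → Q₀} {w : κ ≃ β} {g : Matrix β κ ℂ} {u : ℂ}

omit [Fintype β] [Fintype κ] in
theorem cell_sc (u : ℂ) (deg : β → ℤ) (hg : Cell vx i w g) :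
    Cell vx i w (sc u deg (deg ∘ w) g) := fun k =>
  ⟨(hg k).1, by simp [sc, (hg k).2.1], fun b hb => by simp [sc, (hg k).2.2 b hb]⟩

theorem conj_sc (hCELL : S_CELL) (hu : u ≠ 0) (deg : β → ℤ) (hg : Cell vx i w g)
    (M : Matrix β β ℂ) : cinv w (sc u deg (deg ∘ w) g) * sc u deg deg M * sc u deg (deg ∘ w) g =
      sc u (deg ∘ w) (deg ∘ w) (cinv w g * M * g) := by
  have h1 := ((hCELL Q₀ β κ vx i w).1 g hg).1
  have h2 := ((hCELL Q₀ β κ vx i w).1 _ (cell_sc u deg hg)).2.1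
  have e : cinv w (sc u deg (deg ∘ w) g) = sc u (deg ∘ w) deg (cinv w g) := by
    have h3 : sc u (deg ∘ w) deg (cinv w g) * sc u deg (deg ∘ w) g = 1 := by
      rw [sc_mul hu, h1, sc_one]
    rw [← Matrix.one_mul (cinv w _), ← h3, Matrix.mul_assoc, h2, Matrix.mul_one]
  rw [e, sc_mul hu, sc_mul hu]

theorem fix_sc (hCELL : S_CELL) (hu : u ≠ 0) (deg : β → ℤ) (hg : Cell vx i w g)
    {M : Matrix β β ℂ} (h : Fixes M g) : Fixes (sc u deg deg M) (sc u deg (deg ∘ w) g) := by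
  rw [((hCELL Q₀ β κ vx i w).1 _ (cell_sc u deg hg)).2.2.2.2.2.1, conj_sc hCELL hu deg hg]
  intro j k hk
  rw [sc, Matrix.of_apply, (((hCELL Q₀ β κ vx i w).1 g hg).2.2.2.2.2.1 M).1 h j k hk, mul_zero]

theorem conj_hom (hCELL : S_CELL) (hu : u ≠ 0) (deg : β → ℤ) (hg : Cell vx i w g) (d : ℤ)
    {M : Matrix β β ℂ} (hM : ∀ c b, M c b ≠ 0 → deg c - deg b = d) (j k : κ) :
    (cinv w (sc u deg (deg ∘ w) g) * M * sc u deg (deg ∘ w) g) j k =
      u ^ (deg (w j) - deg (w k) - d) * (cinv w g * M * g) j k := by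
  conv_lhs => rw [sc_hom hu deg d hM, Matrix.mul_smul, Matrix.smul_mul, conj_sc hCELL hu deg hg]
  simp only [sc, Matrix.smul_apply, Matrix.of_apply, smul_eq_mul, Function.comp_apply]
  rw [← mul_assoc, ← zpow_add₀ hu, neg_add_eq_sub]

end AgoodAux

open AgoodAux in
theorem p_AGOOD (hADM : S_ADM) (hCELL : S_CELL) (hCHI : S_CHI) (hABAD : S_ABAD) :
    S_AGOOD := by
  intro Q₀ Q₁ β κ _ _ _ _ _ _ s t vx deg z i w hz
  have hX : ∀ a c b, dbl s t vx z (Sum.inl a) c b ≠ 0 → deg c - deg b = 0 := fun a c b h => by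
    simp only [dbl, mat, Sum.elim_inl, Matrix.of_apply] at h
    split_ifs at h with e
    exacts [hz.supX _ h, absurd rfl h]
  have hD : ∀ a c b, dbl s t vx z (Sum.inr a) c b ≠ 0 → deg c - deg b = -1 := fun a c b h => by
    simp only [dbl, mat, Sum.elim_inr, Matrix.transpose_apply, Matrix.of_apply] at h
    split_ifs at h with e
    · have := hz.supD _ h
      simp only [wtE] at this
      omega
    · exact absurd rfl h
  have hF := fun g hg => ((hCELL Q₀ β κ vx i w).1 g hg).2.2.2.2.2.1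
  obtain ⟨c1, c2, -⟩ := hABAD Q₀ Q₁ β κ s t vx deg z i w hz
  have c3 : Con {g : β ×ₗ κ → ℂ | Cell vx i w (cols g) ∧ ∀ a, Fixes (dbl s t vx z a) (cols g)} :=
    (((hCELL Q₀ β κ vx i w).2.2.2 (β ×ₗ κ) cols fun b j => PolyFn.coord _).2.2 (Q₁ ⊕ Q₁)
      (fun a _ => dbl s t vx z a) fun a c b => PolyFn.const _).1
  let wt : β ×ₗ κ → ℤ := fun p => deg (ofLex p).1 - deg (w (ofLex p).2)
  rw [(hCHI _).2.2.2.2.2.2 (Sum.elim wt (wtE s t vx deg)) _ (c1.inter c2) ?_,
    (hCHI _).2.2.2.2.2.2 wt _ c3 ?_]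
  · refine (hCHI _).2.2.2.2.2.1 _ _ _ (fun g => Sum.elim g (z ∘ Sum.inl)) (fun j => ?_)
      (c3.inter (Con.all fun j => Con.imp' fun _ => Con.eq_zero (PolyFn.coord j))) ⟨?_, ?_, ?_⟩
    · rcases j with j | j
      exacts [PolyFn.coord j, PolyFn.const _]
    · rintro g ⟨⟨h1, h2⟩, h3⟩
      refine ⟨⟨⟨h1, fun a => h2 (Sum.inl a), fun _ _ => rfl⟩, fun a j k hk _ =>
        (hF _ h1 _).1 (h2 (Sum.inr a)) j k hk⟩, fun j hj => ?_⟩
      rcases j with j | j
      exacts [h3 j hj, by_contra fun e => hj (hz.supX j e)]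
    · exact fun g _ g' _ e => funext fun p => congrFun e (Sum.inl p)
    · rintro q ⟨⟨⟨h1, h2, h3⟩, h4⟩, h5⟩
      have e : q ∘ Sum.inr = z ∘ Sum.inl := funext fun p => by
        by_cases h : wtE s t vx deg p = 0
        · exact h3 p h.le
        · exact (h5 (Sum.inr p) h).trans (by_contra fun e => h (hz.supX p (Ne.symm e)))
      have e2 : sc 2 deg (deg ∘ w) (cols (q ∘ Sum.inl)) = cols (q ∘ Sum.inl) := by
        ext b k
        by_cases h : deg b - deg (w k) = 0
        · simp [sc, h]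
        · have : cols (q ∘ Sum.inl) b k = 0 := h5 (Sum.inl (toLex (b, k))) h
          simp [sc, this]
      refine ⟨q ∘ Sum.inl, ⟨⟨h1, fun a => ?_⟩, fun j hj => h5 (Sum.inl j) hj⟩, ?_⟩
      · rcases a with a | a
        · have := h2 a
          rwa [e] at this
        · refine (hF _ h1 _).2 fun j k hk => ?_
          by_cases h : deg (w j) - deg (w k) = -1
          · exact h4 a j k hk h
          have h6 := conj_hom hCELL two_ne_zero deg h1 _ (hD a) j k
          rw [e2] at h6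
          by_contra h7
          have h8 := congrArg norm (mul_left_eq_self₀.1 h6.symm |>.resolve_right h7)
          rw [norm_zpow, Complex.norm_two, norm_one, zpow_eq_one_iff_right₀ (by norm_num)
            (by norm_num)] at h8
          omega
      · rw [← e]; exact Sum.elim_comp_inl_inr q
  · rintro u hu g ⟨h1, h2⟩
    refine ⟨cell_sc u deg h1, fun a => (hF _ (cell_sc u deg h1) _).2 fun j k hk => ?_⟩
    rcases a with a | a
    · rw [conj_hom hCELL hu deg h1 _ (hX a), (hF _ h1 _).1 (h2 _) j k hk, mul_zero]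
    · rw [conj_hom hCELL hu deg h1 _ (hD a), (hF _ h1 _).1 (h2 _) j k hk, mul_zero]
  · rintro u hu q ⟨⟨h1, h2, h3⟩, h4⟩
    refine ⟨⟨cell_sc u deg h1, fun a => ?_, fun p hp => ?_⟩, fun a j k hk hd =>
      (conj_hom hCELL hu deg h1 _ (hD a) j k).trans (by rw [h4 a j k hk hd, mul_zero])⟩
    · have e : mat s t vx (fun p => u ^ wtE s t vx deg p * q (Sum.inr p)) a =
          sc u deg deg (mat s t vx (q ∘ Sum.inr) a) := by
        ext c b
        simp only [mat, sc, Matrix.of_apply]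
        split_ifs
        exacts [rfl, (mul_zero _).symm]
      exact (congrArg (Fixes · _) e).mpr (fix_sc hCELL hu deg h1 (h2 a))
    · change u ^ wtE s t vx deg p * q (Sum.inr p) = _
      rw [h3 p hp]
      by_cases h : z (Sum.inl p) = 0
      · rw [h, mul_zero]
      · rw [hz.supX p h, zpow_zero, one_mul]

end Pool.Agent.P.MP_52ab5a_al
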