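import Pool.Agent.P.MP_52ab5a_al.F.Iface

/-! Step BASIS of the open orbit project. -/

namespace Pool.Agent.P.MP_52ab5a_al

open MvPolynomial WM

namespace BasisAux

lemma exists_perm {Q₀ β : Type} [Fintype β] [LinearOrder β] (vx : β → Q₀) (d : β → ℤ) :
    ∃ π : Equiv.Perm β, (∀ b, vx (π b) = vx b) ∧
      ∀ b c, vx b = vx c → b ≤ c → d (π c) ≤ d (π b) := by
  classical
  obtain ⟨r, hr⟩ : ∃ r : β → ℤ, StrictMono r :=
    ⟨fun b => (((Fintype.orderIsoFinOfCardEq β rfl).symm b : ℕ) : ℤ), fun b c h => by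
      have := (Fintype.orderIsoFinOfCardEq β rfl).symm.strictMono h
      exact Int.ofNat_lt.2 this⟩
  obtain ⟨π, h1, h2⟩ := Finset.exists_min_image
    (Finset.univ.filter fun π : Equiv.Perm β => ∀ b, vx (π b) = vx b)
    (fun π => ∑ b, r b * d (π b)) ⟨1, by simp⟩
  rw [Finset.mem_filter] at h1
  refine ⟨π, h1.2, fun b c hv hbc => not_lt.1 fun hlt => ?_⟩
  have hne : b ≠ c := fun e => by
    rw [e] at hlt
    exact lt_irrefl _ hlt
  have h3 := h2 ((Equiv.swap b c).trans π) (Finset.mem_filter.2 ⟨Finset.mem_univ _, fun x => by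
    rw [Equiv.trans_apply, h1.2, Equiv.swap_apply_def]
    split_ifs with e1 e2
    · rw [e1, hv]
    · rw [e2, hv]
    · rfl⟩)
  rw [← sub_nonneg, ← Finset.sum_sub_distrib, Fintype.sum_eq_add b c hne fun x hx => by
    rw [Equiv.trans_apply, Equiv.swap_apply_of_ne_of_ne hx.1 hx.2, sub_self]] at h3
  simp only [Equiv.trans_apply, Equiv.swap_apply_left, Equiv.swap_apply_right] at h3
  nlinarith [mul_pos (sub_pos.2 (hr (lt_of_le_of_ne hbc hne))) (sub_pos.2 hlt)]

lemma exists_cols {β : Type} [Fintype β] [DecidableEq β] (S : Set (β → ℂ))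
    (hS : ⊤ ≤ Submodule.span ℂ S) :
    ∃ γ δ : Matrix β β ℂ, γ * δ = 1 ∧ ∀ b, δ b b ≠ 0 ∧ (fun c => δ c b) ∈ S := by
  obtain ⟨T, h1, h2, h3⟩ := exists_linearIndependent ℂ S
  let B := Module.Basis.mk h3 (by rw [Subtype.range_coe, h2]; exact hS)
  let B' := B.reindex (B.indexEquiv (Pi.basisFun ℂ β))
  have hB : ∀ b, B' b ∈ S := fun b => by
    simp only [B', B, Module.Basis.reindex_apply, Module.Basis.mk_apply]
    exact h1 (Subtype.mem _)
  have h4 : ((Pi.basisFun ℂ β).toMatrix B').det ≠ 0 := ((Pi.basisFun ℂ β).isUnit_det B').ne_zero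
  have h5 := h4
  rw [Matrix.det_apply'] at h5
  obtain ⟨σ, -, h6⟩ := Finset.exists_ne_zero_of_sum_ne_zero h5
  have h7 := Finset.prod_ne_zero_iff.1 (right_ne_zero_of_mul h6)
  refine ⟨(((Pi.basisFun ℂ β).toMatrix B')⁻¹).submatrix σ.symm id,
    ((Pi.basisFun ℂ β).toMatrix B').submatrix id σ.symm, ?_, fun b => ⟨?_, ?_⟩⟩
  · rw [← Matrix.submatrix_mul _ _ _ _ _ Function.bijective_id,
      Matrix.nonsing_inv_mul _ h4.isUnit, Matrix.submatrix_one_equiv]
  · simpa using h7 (σ.symm b) (Finset.mem_univ _)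
  · simpa [Module.Basis.toMatrix_apply] using hB (σ.symm b)

end BasisAux

open BasisAux in
theorem p_BASIS :
    S_BASIS := by
  intro Q₀ β _ _ _ vx U hind htop hproj
  obtain ⟨γ₀, δ₀, h1, h2⟩ := exists_cols {v | ∃ d u, v ∈ U d ∧ ∀ c, vx c ≠ u → v c = 0} (by
    rw [← htop]
    refine iSup_le fun d v hv => ?_
    have e : v = ∑ u ∈ Finset.univ.image vx, fun b => if vx b = u then v b else 0 := by
      funext b
      simp [Finset.sum_apply]
    rw [e]
    exact Submodule.sum_mem _ fun u _ =>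
      Submodule.subset_span ⟨d, u, hproj d v hv u, fun c hc => if_neg hc⟩)
  choose d u hd hu using fun b => (h2 b).2
  have hu' : ∀ b c, vx c ≠ vx b → δ₀ c b = 0 := fun b c h => hu b c fun e =>
    (h2 b).1 (hu b b fun e' => h (e.trans e'.symm))
  obtain ⟨π, p1, p2⟩ := exists_perm vx d
  let δ : Matrix β β ℂ := δ₀.submatrix id π
  have hδ : Gd vx δ := fun c b h => hu' _ _ (by rwa [p1])
  have h3 : γ₀.submatrix π id * δ = 1 := by
    rw [← Matrix.submatrix_mul _ _ _ _ _ Function.bijective_id, h1, Matrix.submatrix_one_equiv]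
  let γ : Matrix β β ℂ := Matrix.of fun c b => if vx c = vx b then γ₀ (π c) b else 0
  have h4 : γ * δ = 1 := by
    ext c b
    by_cases h : vx c = vx b
    · rw [← h3, Matrix.mul_apply, Matrix.mul_apply]
      refine Finset.sum_congr rfl fun x _ => ?_
      by_cases e : vx c = vx x
      · simp [γ, e]
      · rw [hδ x b fun e' => e (h.trans e'.symm), mul_zero, mul_zero]
    · rw [Matrix.one_apply_ne fun e => h (by rw [e]), Matrix.mul_apply]
      refine Finset.sum_eq_zero fun x _ => ?_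
      by_cases e : vx c = vx x
      · rw [hδ x b fun e' => h (e.trans e'), mul_zero]
      · simp [γ, e]
  have h5 : δ * γ = 1 := mul_eq_one_comm.1 h4
  have hcol : ∀ x : β → ℂ, δ.mulVec x = ∑ b, x b • fun c => δ₀ c (π b) := fun x => by
    funext c
    simp [δ, Matrix.mulVec, dotProduct, Finset.sum_apply, mul_comm]
  have hmem : ∀ (W : Submodule ℂ (β → ℂ)) (x : β → ℂ), (∀ b, x b ≠ 0 → U (d (π b)) ≤ W) →
      δ.mulVec x ∈ W := fun W x hx => by
    rw [hcol]
    refine Submodule.sum_mem _ fun b _ => ?_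
    by_cases e : x b = 0
    · rw [e, zero_smul]
      exact Submodule.zero_mem _
    · exact Submodule.smul_mem _ _ (hx b e (hd (π b)))
  refine ⟨γ, δ, fun b => d (π b), ⟨fun c b h => if_neg h, hδ, h4, h5⟩, p2, fun n v => ⟨?_, ?_⟩⟩
  · intro hv b hb
    let x : β → ℂ := fun c => if d (π c) = n then γ.mulVec v c else 0
    have k1 : δ.mulVec x ∈ U n := hmem _ _ fun c hc => by
      rw [not_not.1 fun e => hc (if_neg e)]
    have k2 : δ.mulVec (γ.mulVec v - x) ∈ ⨆ j, ⨆ _ : j ≠ n, U j := hmem _ _ fun c hc =>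
      le_iSup₂_of_le (f := fun j (_ : j ≠ n) => U j) (d (π c)) (fun e => hc (by simp [x, e])) le_rfl
    have k3 : δ.mulVec (γ.mulVec v - x) ∈ U n := by
      rw [Matrix.mulVec_sub, Matrix.mulVec_mulVec, h5, Matrix.one_mulVec]
      exact Submodule.sub_mem _ hv k1
    have k4 := congrArg (fun y => γ.mulVec y b) (Submodule.disjoint_def.1 (hind n) _ k3 k2)
    simp only [Matrix.mulVec_mulVec, h4, Matrix.one_mulVec, Matrix.mulVec_zero] at k4
    simpa [x, hb] using k4
  · intro h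
    have := hmem (U n) (γ.mulVec v) fun b hb =>
      (congrArg U (not_not.1 fun e => hb (h b e))).le
    rwa [Matrix.mulVec_mulVec, h5, Matrix.one_mulVec] at this

end Pool.Agent.P.MP_52ab5a_al
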