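import Pool.Agent.P.MP_52ab5a_al.F.Iface

/-! Step CELL of the open orbit project. -/

namespace Pool.Agent.P.MP_52ab5a_al

open MvPolynomial WM

namespace CellAux

open Matrix

variable {Q₀ β κ : Type} [Fintype κ] [LinearOrder κ]

theorem mem_step {g : Matrix β κ ℂ} {k : κ} {v : β → ℂ} :
    v ∈ step g k ↔ ∃ c : κ → ℂ, (∀ j, k < j → c j = 0) ∧ g *ᵥ c = v := by
  constructor
  · intro hv
    induction hv using Submodule.span_induction with
    | mem v hv =>
      obtain ⟨j, hj, rfl⟩ := hv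
      exact ⟨Pi.single j 1, fun l hl => Pi.single_eq_of_ne (hj.trans_lt hl).ne' _,
        by rw [mulVec_single_one]; rfl⟩
    | zero => exact ⟨0, fun _ _ => rfl, mulVec_zero _⟩
    | add u v _ _ hu hv =>
      obtain ⟨c, h1, rfl⟩ := hu
      obtain ⟨d, h2, rfl⟩ := hv
      exact ⟨c + d, fun j hj => by rw [Pi.add_apply, h1 j hj, h2 j hj, add_zero], mulVec_add ..⟩
    | smul a v _ hv =>
      obtain ⟨c, h1, rfl⟩ := hv
      exact ⟨a • c, fun j hj => by rw [Pi.smul_apply, h1 j hj, smul_zero], mulVec_smul ..⟩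
  · rintro ⟨c, h1, rfl⟩
    have e : g *ᵥ c = ∑ j, c j • fun b => g b j := by
      funext b
      simp [mulVec, dotProduct, mul_comm]
    rw [e]
    refine Submodule.sum_mem _ fun j _ => ?_
    rcases le_or_gt j k with h | h
    · exact Submodule.smul_mem _ _ (Submodule.subset_span ⟨j, h, rfl⟩)
    · rw [h1 j h, zero_smul]
      exact Submodule.zero_mem _

theorem step_mul_le (g : Matrix β κ ℂ) {U : Matrix κ κ ℂ} (hU : ∀ j k, k < j → U j k = 0) (k : κ) :
    step (g * U) k ≤ step g k := by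
  refine Submodule.span_le.2 ?_
  rintro _ ⟨j, hj, rfl⟩
  exact mem_step.2 ⟨fun l => U l j, fun l hl => hU l j (hj.trans_lt hl), rfl⟩

variable [Fintype β]

theorem step_mul (A : Matrix β β ℂ) (g : Matrix β κ ℂ) (k : κ) :
    step (A * g) k = (step g k).map A.mulVecLin := by
  ext v
  simp only [Submodule.mem_map, mem_step, mulVecLin_apply, ← mulVec_mulVec]
  constructor
  · rintro ⟨c, h1, rfl⟩
    exact ⟨_, ⟨c, h1, rfl⟩, rfl⟩
  · rintro ⟨_, ⟨c, h1, rfl⟩, rfl⟩
    exact ⟨c, h1, rfl⟩

theorem fixes_iff (A : Matrix β β ℂ) (g : Matrix β κ ℂ) :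
    Fixes A g ↔ ∀ k, step (A * g) k ≤ step g k := by
  simp only [step_mul, Submodule.map_le_iff_le_comap]
  rfl

theorem le_iff [DecidableEq β] {g h : Matrix β κ ℂ} {g' : Matrix κ β ℂ} (h1 : g' * g = 1)
    (h2 : g * g' = 1) : (∀ k, step h k ≤ step g k) ↔ ∀ j k, k < j → (g' * h) j k = 0 := by
  constructor
  · intro H j k hjk
    obtain ⟨c, c1, c2⟩ := mem_step.1 (H k (Submodule.subset_span ⟨k, le_rfl, rfl⟩))
    have e : g' *ᵥ (fun b => h b k) = c := by rw [← c2, mulVec_mulVec, h1, one_mulVec]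
    exact (congrFun e j).trans (c1 j hjk)
  · intro H k
    have := step_mul_le g H k
    rwa [← Matrix.mul_assoc, h2, Matrix.one_mul] at this

variable [LinearOrder β] {vx : β → Q₀} {i : κ → Q₀} {w : κ ≃ β} {g : Matrix β κ ℂ}

omit [Fintype β] in
theorem adj_mul (h : Cell vx i w g) : (g.submatrix w id).adjugate * g.submatrix w id = 1 := by
  rw [adjugate_mul, det_of_isLowerTriangular (g.submatrix w id) fun j k hjk =>
    (h k).2.2 _ (Or.inr (Or.inr ⟨j, hjk, rfl⟩)),
    Finset.prod_eq_one (f := fun k => g.submatrix w id k k) fun k _ => (h k).2.1, one_smul]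

theorem cinv_mul (h : Cell vx i w g) : cinv w g * g = 1 := by
  have e : g = (g.submatrix w id).submatrix w.symm id := by
    ext b k
    simp
  refine (congrArg (cinv w g * ·) e).trans ?_
  rw [cinv, submatrix_mul_equiv, adj_mul h, submatrix_id_id]

omit [Fintype β] in
theorem adj_tri (h : Cell vx i w g) {α : Type} [LinearOrder α] {f : κ → α}
    (hf : (g.submatrix w id).BlockTriangular f) :
    (g.submatrix w id).adjugate.BlockTriangular f := by
  have := invertibleOfLeftInverse _ _ (adj_mul h)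
  rw [← inv_eq_left_inv (adj_mul h)]
  exact blockTriangular_inv_of_blockTriangular hf

omit [Fintype β] [Fintype κ] in
theorem supp (h : Cell vx i w g) {b : β} {k : κ} (h0 : g b k ≠ 0) : b ≤ w k ∧ vx b = i k :=
  ⟨not_lt.1 fun e => h0 ((h k).2.2 b (Or.inl e)),
    not_not.1 fun e => h0 ((h k).2.2 b (Or.inr (Or.inl e)))⟩

omit [Fintype β] in
theorem supp_inv (h : Cell vx i w g) {b : β} {k : κ} (h0 : cinv w g k b ≠ 0) :
    w k ≤ b ∧ vx b = i k := by
  classical
  obtain ⟨l, rfl⟩ := w.surjective b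
  rw [cinv, submatrix_apply, w.symm_apply_apply] at h0
  refine ⟨not_lt.1 fun e => h0 (adj_tri h (f := w) (fun a c hac => ?_) e), not_not.1 fun e =>
    h0 (adj_tri h (f := fun j => if i j = i k then 1 else (0 : ℕ)) (fun a c hac => ?_) ?_)⟩
  · exact (h c).2.2 _ (Or.inl hac)
  · refine (h c).2.2 _ (Or.inr (Or.inl fun e' => ?_))
    rw [(h a).1] at e'
    simp [e'] at hac
  · rw [(h l).1] at e
    simp [e]

theorem fixes_cell (h : Cell vx i w g) (A : Matrix β β ℂ) :
    Fixes A g ↔ ∀ j k, k < j → (cinv w g * A * g) j k = 0 := by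
  rw [fixes_iff, le_iff (cinv_mul h) ((mul_eq_one_comm_of_equiv w).1 (cinv_mul h)),
    Matrix.mul_assoc]

theorem steps_eq (h : Cell vx i w g) {m : Matrix β κ ℂ} {m' : Matrix κ β ℂ} (hm : m' * m = 1) :
    (∀ k, step m k = step g k) ↔ ∀ j k, k < j → (cinv w g * m) j k = 0 := by
  have g1 := cinv_mul h
  have g2 := (mul_eq_one_comm_of_equiv w).1 g1
  refine ⟨fun H => (le_iff g1 g2).1 fun k => (H k).le, fun H k =>
    le_antisymm ((le_iff g1 g2).2 H k)
      ((le_iff hm ((mul_eq_one_comm_of_equiv w).1 hm)).2 (fun j l hjl => ?_) k)⟩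
  have e : m' * g * (cinv w g * m) = 1 := by
    rw [Matrix.mul_assoc, ← Matrix.mul_assoc g, g2, Matrix.one_mul, hm]
  have := invertibleOfLeftInverse _ _ e
  rw [← inv_eq_left_inv e]
  exact blockTriangular_inv_of_blockTriangular (b := id) (fun a c hac => H a c hac) hjl

variable {ι : Type} {G : (ι → ℂ) → Matrix β κ ℂ}

omit [Fintype β] [LinearOrder β] in
theorem poly_cinv (hG : ∀ b k, PolyFn fun x => G x b k) (w : κ ≃ β) (k : κ) (b : β) :
    PolyFn fun x => cinv w (G x) k b :=
  PolyFn.adjugate (A := fun x => (G x).submatrix w id) (fun a c => hG (w a) c) k (w.symm b)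

theorem con_cell (hG : ∀ b k, PolyFn fun x => G x b k) (w : κ ≃ β) :
    Con {x | Cell vx i w (G x)} :=
  Con.all fun k => (Con.const _).and ((Con.eq (hG _ k) (PolyFn.const 1)).and
    (Con.all fun b => Con.imp' fun _ => Con.eq_zero (hG b k)))

theorem con_fix (hG : ∀ b k, PolyFn fun x => G x b k) {α : Type} [Finite α]
    {A : α → (ι → ℂ) → Matrix β β ℂ} (hA : ∀ a c b, PolyFn fun x => A a x c b) (w : κ ≃ β) :
    Con {x | Cell vx i w (G x) ∧ ∀ a, Fixes (A a x) (G x)} := by
  have e : {x | Cell vx i w (G x) ∧ ∀ a, Fixes (A a x) (G x)} = {x | Cell vx i w (G x) ∧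
      ∀ a j k, k < j → (cinv w (G x) * A a x * G x) j k = 0} :=
    Set.ext fun x => and_congr_right fun h => forall_congr' fun a => fixes_cell h _
  rw [e]
  exact (con_cell hG w).and (Con.all fun a => Con.all fun j => Con.all fun k => Con.imp' fun _ =>
    Con.eq_zero (PolyFn.matMul (PolyFn.matMul (poly_cinv hG w) (hA a)) hG j k))

end CellAux

open CellAux in
theorem p_CELL :
    S_CELL := by
  intro Q₀ β κ _ _ _ _ vx i w
  refine ⟨fun g h => ⟨cinv_mul h, (Matrix.mul_eq_one_comm_of_equiv w).1 (cinv_mul h),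
    fun _ _ => supp h, fun _ _ => supp_inv h, fun w' h' => Equiv.ext fun k => le_antisymm
      (supp h (by rw [(h' k).2.1]; exact one_ne_zero)).1
      (supp h' (by rw [(h k).2.1]; exact one_ne_zero)).1,
    fixes_cell h, fun m ⟨_, hm⟩ => steps_eq h hm⟩, fun γ δ A g h => ?_, fun g d hd k => ?_,
    fun ι g hg => ⟨poly_cinv hg w, con_cell hg w, fun α _ A hA => ⟨con_fix hg hA w, ?_⟩⟩⟩
  · have h' : δ * γ = 1 := mul_eq_one_comm.1 h
    have e : γ * A * δ * (γ * g) = γ * (A * g) := by
      rw [Matrix.mul_assoc, ← Matrix.mul_assoc δ, h', Matrix.one_mul, Matrix.mul_assoc]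
    have inj : Function.Injective γ.mulVecLin := fun u v huv => by
      have := congrArg δ.mulVec huv
      simpa [Matrix.mulVec_mulVec, h'] using this
    rw [fixes_iff, fixes_iff, e]
    simp only [step_mul γ, Submodule.map_le_map_iff_of_injective inj]
  · have tri : ∀ (e : κ → ℂ) j l, l < j → Matrix.diagonal e j l = 0 := fun e j l h =>
      Matrix.diagonal_apply_ne _ h.ne'
    refine le_antisymm (step_mul_le g (tri d) k) ?_
    have := step_mul_le (g * Matrix.diagonal d) (tri fun j => (d j)⁻¹) k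
    rwa [Matrix.mul_assoc, Matrix.diagonal_mul_diagonal, show (fun j => d j * (d j)⁻¹) = fun _ => 1
      from funext fun j => mul_inv_cancel₀ (hd j), Matrix.diagonal_one, Matrix.mul_one] at this
  · simp only [Echelon, ← exists_and_right]
    exact Con.ex fun w' => con_fix hg hA w'

end Pool.Agent.P.MP_52ab5a_al
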