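import Pool.Agent.P.MP_52ab5a_al.F.Iface

/-! Step DIV of the open orbit project. -/

namespace Pool.Agent.P.MP_52ab5a_al

open MvPolynomial WM

namespace DivAux

variable {κ β : Type} [Fintype κ] [LinearOrder κ] [LinearOrder β] {blk : κ → ℕ}

theorem uniq (hb : Monotone blk) {w : κ ≃ β} {p : κ ≃ κ} (hp : ∀ k, blk (p k) = blk k)
    (h0 : ∀ k k', blk k = blk k' → k < k' → w k < w k')
    (h1 : ∀ k k', blk k = blk k' → k < k' → (p.trans w) k < (p.trans w) k') : p = Equiv.refl κ := by
  have hs : StrictMono p := by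
    intro k k' hk
    rcases (hb hk.le).eq_or_lt with h | h
    · have := h1 k k' h hk
      by_contra hn
      rcases (not_lt.1 hn).eq_or_lt with h' | h'
      · exact hk.ne' (p.injective h')
      · exact lt_asymm this (h0 _ _ (by rw [hp, hp, h]) h')
    · exact hb.reflect_lt (by rwa [hp, hp])
  exact Equiv.ext fun k => le_antisymm (hs.le_id k) (hs.id_le k)

theorem exi (hb : Monotone blk) (c : (κ ≃ β) → ℤ)
    (hc : ∀ w k k', k ⋖ k' → blk k = blk k' → w k < w k' → c ((Equiv.swap k k').trans w) = c w)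
    (w : κ ≃ β) : ∃ p : κ ≃ κ, (∀ k, blk (p k) = blk k) ∧ c (p.trans w) = c w ∧
      ∀ k k', blk k = blk k' → k < k' → (p.trans w) k < (p.trans w) k' := by
  classical
  obtain ⟨p, hp, hmin⟩ := Finset.exists_min_image
    (Finset.univ.filter fun p : κ ≃ κ => (∀ k, blk (p k) = blk k) ∧ c (p.trans w) = c w)
    (fun p => toLex (p.trans w : κ → β)) ⟨Equiv.refl κ, by simp⟩
  obtain ⟨hp1, hp2⟩ := (Finset.mem_filter.1 hp).2
  refine ⟨p, hp1, hp2, ?_⟩
  have hadj : ∀ k k', k ⋖ k' → blk k = blk k' → (p.trans w) k < (p.trans w) k' := by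
    intro k k' hk hbk
    by_contra hn
    have hlt : (p.trans w) k' < (p.trans w) k :=
      lt_of_le_of_ne (not_lt.1 hn) fun h => hk.ne' ((p.trans w).injective h)
    have h1 := hc ((Equiv.swap k k').trans (p.trans w)) k k' hk hbk (by simpa using hlt)
    rw [← Equiv.trans_assoc, Equiv.swap_swap, Equiv.refl_trans] at h1
    refine absurd (hmin ((Equiv.swap k k').trans p) (Finset.mem_filter.2
      ⟨Finset.mem_univ _, fun j => ?_, ?_⟩)) (not_le.2 (Pi.lex_desc hk.le hlt))
    · rw [Equiv.trans_apply, hp1, Equiv.swap_apply_def]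
      split_ifs with h h'
      · rw [h, hbk]
      · rw [h', hbk]
      · rfl
    · rw [Equiv.trans_assoc, ← h1, hp2]
  intro k k' hbk hk
  let _ : LocallyFiniteOrder κ := Fintype.toLocallyFiniteOrder
  have ht := lt_iff_transGen_covBy.1 hk
  clear hk
  induction ht with
  | single h => exact hadj _ _ h hbk
  | tail h1 h2 ih =>
    have a1 := hb (lt_iff_transGen_covBy.2 h1).le
    have a2 := hb h2.le
    exact (ih (by omega)).trans (hadj _ _ h2 (by omega))

end DivAux

theorem p_DIV :
    S_DIV := by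
  intro κ _ _ blk hb
  classical
  refine ⟨(Finset.univ.filter fun p : κ ≃ κ => ∀ k, blk (p k) = blk k).card,
    Int.natCast_pos.2 (Finset.card_pos.2 ⟨Equiv.refl κ, by simp⟩), fun β _ _ c hc => ?_⟩
  rw [← nsmul_eq_mul, ← Finset.sum_const, ← Finset.sum_product']
  symm
  refine Finset.sum_bij (fun x _ => x.1.trans x.2) (fun _ _ => Finset.mem_univ _) ?_ ?_ ?_
  · rintro ⟨p, w⟩ h ⟨q, w'⟩ h' e
    simp only [Finset.mem_product, Finset.mem_filter, Finset.mem_univ, true_and] at h h' e
    have e' : w' = (q.symm.trans p).trans w := by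
      rw [Equiv.trans_assoc, e, ← Equiv.trans_assoc, Equiv.symm_trans_self, Equiv.refl_trans]
    have h1 := DivAux.uniq hb (p := q.symm.trans p)
      (fun k => by rw [Equiv.trans_apply, h.1, ← h'.1, Equiv.apply_symm_apply]) h.2 (e' ▸ h'.2)
    rw [h1, Equiv.refl_trans] at e'
    subst e'
    exact Prod.ext (Equiv.ext fun k => w'.injective (Equiv.congr_fun e k)) rfl
  · intro w _
    obtain ⟨p, h1, -, h3⟩ := DivAux.exi hb c hc w
    refine ⟨(p.symm, p.trans w), ?_, ?_⟩
    · simp only [Finset.mem_product, Finset.mem_filter, Finset.mem_univ, true_and]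
      exact ⟨fun k => by rw [← h1, Equiv.apply_symm_apply], h3⟩
    · simp only
      rw [← Equiv.trans_assoc, Equiv.symm_trans_self, Equiv.refl_trans]
  · rintro ⟨p, w⟩ h
    simp only [Finset.mem_product, Finset.mem_filter, Finset.mem_univ, true_and] at h
    obtain ⟨q, h1, h2, h3⟩ := DivAux.exi hb c hc (p.trans w)
    have h4 := DivAux.uniq hb (p := q.trans p) (fun k => by rw [Equiv.trans_apply, h.1, h1]) h.2 h3
    rw [← h2, ← Equiv.trans_assoc, h4, Equiv.refl_trans]

end Pool.Agent.P.MP_52ab5a_al
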