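import Pool.Agent.P.MP_52ab5a_al.F.Iface
import Pool.Agent.P.MP_52ab5a_al.K.Iface
import Pool.Agent.P.MP_52ab5a_al.B.Iface

/-! Step GINV of the open orbit project. -/

namespace Pool.Agent.P.MP_52ab5a_al

open MvPolynomial WM

namespace GinvAux

variable {Q₀ β κ : Type} [Fintype β] [LinearOrder β] [Fintype κ] [LinearOrder κ]

/-- The flag of `g'` is the image under `γ` of the flag of `g`. -/
def Rel (vx : β → Q₀) (i : κ → Q₀) (γ : Matrix β β ℂ) (g g' : Matrix β κ ℂ) : Prop :=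
  Echelon vx i g ∧ Echelon vx i g' ∧ ∀ k, step g' k = step (γ * g) k

omit [LinearOrder β] [Fintype κ] in
theorem step_mul (γ : Matrix β β ℂ) (g : Matrix β κ ℂ) (k : κ) :
    step (γ * g) k = (step g k).map γ.mulVecLin := by
  unfold step
  rw [Submodule.map_span]
  congr 1
  ext v
  constructor
  · rintro ⟨j, hj, rfl⟩
    exact ⟨fun b => g b j, ⟨j, hj, rfl⟩, rfl⟩
  · rintro ⟨_, ⟨j, hj, rfl⟩, rfl⟩
    exact ⟨j, hj, rfl⟩

variable {vx : β → Q₀} {i : κ → Q₀} {γ δ : Matrix β β ℂ}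

omit [Fintype κ] in
theorem Rel.symm (h : δ * γ = 1) {g g' : Matrix β κ ℂ} (hR : Rel vx i γ g g') :
    Rel vx i δ g' g := by
  refine ⟨hR.2.1, hR.1, fun k => ?_⟩
  rw [step_mul, hR.2.2 k, ← step_mul, ← Matrix.mul_assoc, h, Matrix.one_mul]

theorem exu (hCELL : S_CELL) (hNF : S_NF) (h : GInv vx γ δ) {g : Matrix β κ ℂ}
    (hg : Echelon vx i g) : ∃! g', Rel vx i γ g g' := by
  obtain ⟨w, hw⟩ := hg
  obtain ⟨h1, h2, h3, -⟩ := (hCELL Q₀ β κ vx i w).1 g hw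
  have := hNF Q₀ β κ vx i (γ * g) ⟨cinv w g * δ, by
    rw [Matrix.mul_assoc, ← Matrix.mul_assoc δ, h.mul', Matrix.one_mul, h1], by
    rw [Matrix.mul_assoc, ← Matrix.mul_assoc g, h2, Matrix.one_mul, h.mul]⟩ (by
    intro b k hb
    rw [Matrix.mul_apply] at hb
    obtain ⟨c, -, hc⟩ := Finset.exists_ne_zero_of_sum_ne_zero hb
    have e1 : vx b = vx c := by
      by_contra hne
      exact hc (by rw [h.gd b c hne, zero_mul])
    rw [e1]
    exact (h3 c k (right_ne_zero_of_mul hc)).2)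
  obtain ⟨g', hg', hu⟩ := this
  exact ⟨g', ⟨⟨w, hw⟩, hg'⟩, fun g'' h'' => hu g'' h''.2⟩

theorem fixes_iff (hCELL : S_CELL) (h : γ * δ = 1) {g g' : Matrix β κ ℂ} (hR : Rel vx i γ g g')
    (A : Matrix β β ℂ) : Fixes (γ * A * δ) g' ↔ Fixes A g := by
  obtain ⟨w, -⟩ := hR.1
  rw [← (hCELL Q₀ β κ vx i w).2.1 γ δ A g h]
  unfold Fixes
  simp only [hR.2.2]

theorem conE (hCELL : S_CELL) (vx : β → Q₀) (i : κ → Q₀) {ι α : Type} [Finite α]
    (g : (ι → ℂ) → Matrix β κ ℂ) (hg : ∀ b k, PolyFn fun x => g x b k)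
    (A : α → (ι → ℂ) → Matrix β β ℂ) (hA : ∀ a c b, PolyFn fun x => A a x c b) :
    Con {x | Echelon vx i (g x) ∧ ∀ a, Fixes (A a x) (g x)} := by
  by_cases hw : Nonempty (κ ≃ β)
  · obtain ⟨w⟩ := hw
    exact (((hCELL Q₀ β κ vx i w).2.2.2 ι g hg).2.2 α A hA).2
  · have : {x | Echelon vx i (g x) ∧ ∀ a, Fixes (A a x) (g x)} = ∅ :=
      Set.eq_empty_of_forall_notMem fun x hx => hw ⟨hx.1.choose⟩
    rw [this]
    exact Con.empty

theorem conR (hCELL : S_CELL) (vx : β → Q₀) (i : κ → Q₀) (h : δ * γ = 1) {ι : Type}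
    (g g' : (ι → ℂ) → Matrix β κ ℂ) (hg : ∀ b k, PolyFn fun x => g x b k)
    (hg' : ∀ b k, PolyFn fun x => g' x b k) : Con {x | Rel vx i γ (g x) (g' x)} := by
  have e : {x | Rel vx i γ (g x) (g' x)} = {x | (∃ w, Cell vx i w (g x)) ∧ ∃ w, Cell vx i w (g' x) ∧
      ∀ j k, k < j → (cinv w (g' x) * (γ * g x)) j k = 0} := by
    ext x
    have hinv : Echelon vx i (g x) → ∃ h' : Matrix κ β ℂ, h' * (γ * g x) = 1 := by
      rintro ⟨w, hw⟩
      refine ⟨cinv w (g x) * δ, ?_⟩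
      rw [Matrix.mul_assoc, ← Matrix.mul_assoc δ, h, Matrix.one_mul,
        ((hCELL Q₀ β κ vx i w).1 _ hw).1]
    constructor
    · rintro ⟨h1, ⟨w, hw⟩, h3⟩
      exact ⟨h1, w, hw, (((hCELL Q₀ β κ vx i w).1 _ hw).2.2.2.2.2.2 _ (hinv h1)).1
        fun k => (h3 k).symm⟩
    · rintro ⟨h1, w, hw, h3⟩
      exact ⟨h1, ⟨w, hw⟩, fun k =>
        ((((hCELL Q₀ β κ vx i w).1 _ hw).2.2.2.2.2.2 _ (hinv h1)).2 h3 k).symm⟩
  rw [e]
  have h1 : ∀ w : κ ≃ β, Con {x | Cell vx i w (g x)} := fun w =>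
    ((hCELL Q₀ β κ vx i w).2.2.2 ι g hg).2.1
  have h2 : ∀ w : κ ≃ β, Con {x | Cell vx i w (g' x) ∧
      ∀ j k, k < j → (cinv w (g' x) * (γ * g x)) j k = 0} := fun w => by
    have hc := (hCELL Q₀ β κ vx i w).2.2.2 ι g' hg'
    have hp : ∀ b k, PolyFn fun x => (γ * g x) b k :=
      PolyFn.matMul (A := fun _ => γ) (B := g) (fun b c => PolyFn.const (γ b c)) hg
    have hq : ∀ j k, PolyFn fun x => (cinv w (g' x) * (γ * g x)) j k :=
      PolyFn.matMul (A := fun x => cinv w (g' x)) (B := fun x => γ * g x) hc.1 hp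
    have hr : ∀ j k, Con {x | k < j → (cinv w (g' x) * (γ * g x)) j k = 0} := fun j k =>
      Con.imp' (q := fun x => (cinv w (g' x) * (γ * g x)) j k = 0) fun _ => Con.eq_zero (hq j k)
    exact Con.and hc.2.1 (Con.all (p := fun j x => ∀ k, k < j →
      (cinv w (g' x) * (γ * g x)) j k = 0) fun j => Con.all (p := fun k x => k < j →
      (cinv w (g' x) * (γ * g x)) j k = 0) (hr j))
  exact Con.and (Con.ex h1) (Con.ex h2)

omit [Fintype β] [Fintype κ] [LinearOrder β] [LinearOrder κ] in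
theorem exu_cols {p : Matrix β κ ℂ → Prop} (h : ∃! g, p g) :
    ∃! y : β ×ₗ κ → ℂ, p (cols y) := by
  obtain ⟨g, hg, hu⟩ := h
  refine ⟨fun q => g (ofLex q).1 (ofLex q).2, hg, fun y hy => ?_⟩
  funext q
  rw [← hu _ hy]
  rfl

/-- The correspondence between flags preserved by conjugate families. -/
theorem corr (hCELL : S_CELL) (hNF : S_NF) (h : GInv vx γ δ) {α : Type}
    {A B : α → Matrix β β ℂ} (hB : ∀ a, B a = γ * A a * δ) :
    (∀ g g' : Matrix β κ ℂ, Rel vx i γ g g' ∧ (Echelon vx i g ∧ ∀ a, Fixes (A a) g) →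
      (Echelon vx i g ∧ ∀ a, Fixes (A a) g) ∧ (Echelon vx i g' ∧ ∀ a, Fixes (B a) g')) ∧
    (∀ g : Matrix β κ ℂ, (Echelon vx i g ∧ ∀ a, Fixes (A a) g) →
      ∃! g', Rel vx i γ g g' ∧ (Echelon vx i g ∧ ∀ a, Fixes (A a) g)) ∧
    (∀ g' : Matrix β κ ℂ, (Echelon vx i g' ∧ ∀ a, Fixes (B a) g') →
      ∃! g, Rel vx i γ g g' ∧ (Echelon vx i g ∧ ∀ a, Fixes (A a) g)) := by
  refine ⟨fun g g' hR => ⟨hR.2, hR.1.2.1, fun a => ?_⟩, fun g hg => ?_, fun g' hg' => ?_⟩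
  · rw [hB, fixes_iff hCELL h.mul hR.1]
    exact hR.2.2 a
  · obtain ⟨g', h1, h2⟩ := exu hCELL hNF h hg.1
    exact ⟨g', ⟨h1, hg⟩, fun g'' h'' => h2 g'' h''.1⟩
  · obtain ⟨g, h1, h2⟩ := exu hCELL hNF (⟨h.gd', h.gd, h.mul', h.mul⟩ : GInv vx δ γ) hg'.1
    have h3 := h1.symm h.mul
    refine ⟨g, ⟨h3, h3.1, fun a => ?_⟩, fun g'' h'' => h2 g'' (h''.1.symm h.mul')⟩
    rw [← fixes_iff hCELL h.mul h3, ← hB]
    exact hg'.2 a

omit [Fintype β] [LinearOrder β] in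
theorem poly_mat {Q₁ ι : Type} [DecidableEq Q₀] (s t : Q₁ → Q₀) (vx : β → Q₀)
    (r : Ent s t vx → ι) (a : Q₁) (c b : β) :
    PolyFn fun z : ι → ℂ => mat s t vx (z ∘ r) a c b :=
  PolyFn.dite _ (fun _ => PolyFn.coord _) fun _ => PolyFn.const 0

end GinvAux

open GinvAux in
theorem p_GINV (hADM : S_ADM) (hCELL : S_CELL) (hNF : S_NF) (hTRANS : S_TRANS) (hFUB : S_FUB) (hCHI : S_CHI) (hBR : S_BR) :
    S_GINV := by
  intro Q₀ Q₁ β κ _ _ _ _ _ _ _ s t vx i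
  have hcon : Con (flagBundle s t vx i) :=
    conE hCELL vx i (fun z : (β ×ₗ κ) ⊕ Ent s t vx → ℂ => cols (z ∘ Sum.inl))
      (fun _ _ => PolyFn.coord _) (fun a z => mat s t vx (z ∘ Sum.inr) a)
      (poly_mat s t vx Sum.inr)
  refine ⟨hcon, fun γ δ h => ⟨fun y z hyz => ?_, fun φ hφ => ?_⟩⟩
  · have hB : ∀ a, dbl s t vx z a = γ * dbl s t vx y a * δ := fun a => by
      rw [hyz a, Matrix.mul_assoc, h.mul, Matrix.mul_one]
    obtain ⟨c1, c2, c3⟩ := corr (i := i) hCELL hNF h hB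
    refine ⟨?_, fun ⟨g, hg⟩ => ?_, fun ⟨g', hg'⟩ => ?_⟩
    · unfold flagChi
      rw [(hBR _).2, (hBR _).2]
      refine (hCHI _).2.2.2.2.1 _ _ _ (fun u u' => Rel vx i γ (cols u) (cols u') ∧
        (Echelon vx i (cols u) ∧ ∀ a, Fixes (dbl s t vx y a) (cols u))) ?_
        (fun u u' hR => c1 _ _ hR) (fun u hu => exu_cols (c2 _ hu))
        (fun u' hu' => exu_cols (c3 _ hu'))
      exact Con.and
        (conR hCELL vx i h.mul' (fun q : (β ×ₗ κ) ⊕ (β ×ₗ κ) → ℂ => cols (q ∘ Sum.inl))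
          (fun q => cols (q ∘ Sum.inr)) (fun _ _ => PolyFn.coord _) fun _ _ => PolyFn.coord _)
        (conE hCELL vx i (fun q : (β ×ₗ κ) ⊕ (β ×ₗ κ) → ℂ => cols (q ∘ Sum.inl))
          (fun _ _ => PolyFn.coord _) (fun a _ => dbl s t vx y a) fun _ _ _ => PolyFn.const _)
    · obtain ⟨g', hg', -⟩ := c2 g hg
      exact ⟨g', (c1 _ _ hg').2⟩
    · obtain ⟨g, hg, -⟩ := c3 g' hg'
      exact ⟨g, hg.2⟩
  · obtain ⟨-, -, -, -, -, -, -, -, a9, -, a11, a12, -⟩ := hADM Q₀ Q₁ β s t vx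
    rw [(hFUB _ _ _ hcon).2 (Adm s t vx γ δ) (Adm s t vx δ γ) φ hφ
      (by rw [a11 _ _ _ _ h.gd h.gd' h.gd' h.gd, h.mul, a12])
      (by rw [a11 _ _ _ _ h.gd' h.gd h.gd h.gd', h.mul', a12])]
    have hB : ∀ (x : Ent s t vx → ℂ) a, mat s t vx x a =
        γ * mat s t vx ((Adm s t vx δ γ).mulVec x) a * δ := fun x a => by
      rw [a9 δ γ x a h.gd' h.gd, ← Matrix.mul_assoc, ← Matrix.mul_assoc, h.mul, Matrix.one_mul,
        Matrix.mul_assoc, h.mul, Matrix.mul_one]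
    have hc := fun x => corr (i := i) hCELL hNF h (hB x)
    refine ((hTRANS (β ×ₗ κ) (β ×ₗ κ) (Ent s t vx) _ _).1 (fun u u' x =>
      Rel vx i γ (cols u) (cols u') ∧ (Echelon vx i (cols u) ∧
        ∀ a, Fixes (mat s t vx ((Adm s t vx δ γ).mulVec x) a) (cols u))) ?_
      (fun u u' x hR => (hc x).1 _ _ hR) (fun u x hu => exu_cols ((hc x).2.1 _ hu))
      (fun u' x hu' => exu_cols ((hc x).2.2 _ hu'))).2.2 φ hφ
    refine Con.and
      (conR hCELL vx i h.mul'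
        (fun q : ((β ×ₗ κ) ⊕ (β ×ₗ κ)) ⊕ Ent s t vx → ℂ => cols (q ∘ Sum.inl ∘ Sum.inl))
        (fun q => cols (q ∘ Sum.inl ∘ Sum.inr)) (fun _ _ => PolyFn.coord _)
        fun _ _ => PolyFn.coord _)
      (conE hCELL vx i
        (fun q : ((β ×ₗ κ) ⊕ (β ×ₗ κ)) ⊕ Ent s t vx → ℂ => cols (q ∘ Sum.inl ∘ Sum.inl))
        (fun _ _ => PolyFn.coord _)
        (fun a q => mat s t vx ((Adm s t vx δ γ).mulVec (q ∘ Sum.inr)) a) fun a c b => ?_)
    simp only [a9 δ γ _ a h.gd' h.gd]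
    exact PolyFn.matMul (A := fun q : ((β ×ₗ κ) ⊕ (β ×ₗ κ)) ⊕ Ent s t vx → ℂ =>
        δ * mat s t vx (q ∘ Sum.inr) a) (B := fun _ => γ)
      (PolyFn.matMul (A := fun _ => δ) (B := fun q => mat s t vx (q ∘ Sum.inr) a)
        (fun b c => PolyFn.const (δ b c)) (poly_mat s t vx Sum.inr a))
      (fun b c => PolyFn.const (γ b c)) c b

end Pool.Agent.P.MP_52ab5a_al
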