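import Pool.Agent.P.MP_52ab5a_al.F.Iface

/-! Step GRAD of the open orbit project. -/

namespace Pool.Agent.P.MP_52ab5a_al

open MvPolynomial WM

namespace GradAux

variable {V : Type} [AddCommGroup V] [Module ℂ V]

theorem shift (T A : Module.End ℂ V) (c l : ℂ) (h : T * A = A * T + c • A) (v : V)
    (hv : v ∈ T.maxGenEigenspace l) : A v ∈ T.maxGenEigenspace (l + c) := by
  rw [Module.End.mem_maxGenEigenspace] at hv ⊢
  obtain ⟨k, hk⟩ := hv
  refine ⟨k, ?_⟩
  have h1 : (T - (l + c) • (1 : Module.End ℂ V)) * A = A * (T - l • 1) := by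
    rw [sub_mul, mul_sub, h, add_smul]
    simp only [add_mul, smul_mul_assoc, one_mul, mul_smul_comm, mul_one]
    abel
  have h2 : ∀ n : ℕ, (T - (l + c) • (1 : Module.End ℂ V)) ^ n * A = A * (T - l • 1) ^ n := by
    intro n
    induction n with
    | zero => simp
    | succ n ih => rw [pow_succ, mul_assoc, h1, ← mul_assoc, ih, mul_assoc, ← pow_succ]
  have := congrArg (fun F : Module.End ℂ V => F v) (h2 k)
  simp only [Module.End.mul_apply] at this
  rw [this, hk, map_zero]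

/-- The grouped generalised eigenspaces. -/
noncomputable def grp (T : Module.End ℂ V) (d : ℤ) : Submodule ℂ V :=
  ⨆ l ∈ {l : ℂ | -⌊l.re⌋ = d}, T.maxGenEigenspace l

theorem grp_indep (T : Module.End ℂ V) : iSupIndep (grp T) := by
  intro d
  have h := (T.independent_maxGenEigenspace).disjoint_biSup_biSup
    (s := {l : ℂ | -⌊l.re⌋ = d}) (t := {l : ℂ | -⌊l.re⌋ ≠ d})
    (Set.disjoint_left.2 fun l h1 h2 => h2 h1)
  refine h.mono_right ?_
  refine iSup₂_le fun e he => iSup₂_le fun l hl => ?_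
  exact le_iSup₂_of_le (f := fun l (_ : l ∈ {l : ℂ | -⌊l.re⌋ ≠ d}) => T.maxGenEigenspace l) l
    (fun h' => he ((show -⌊l.re⌋ = e from hl).symm.trans h')) le_rfl

theorem grp_top [FiniteDimensional ℂ V] (T : Module.End ℂ V) : ⨆ d, grp T d = ⊤ := by
  rw [eq_top_iff, ← T.iSup_maxGenEigenspace_eq_top]
  refine iSup_le fun l => le_iSup_of_le (-⌊l.re⌋) ?_
  exact le_iSup₂_of_le (f := fun m (_ : m ∈ {m : ℂ | -⌊m.re⌋ = -⌊l.re⌋}) => T.maxGenEigenspace m)
    l rfl le_rfl

theorem grp_shift (T A : Module.End ℂ V) (c : ℤ) (h : T * A = A * T + (c : ℂ) • A) (d : ℤ) (v : V)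
    (hv : v ∈ grp T d) : A v ∈ grp T (d - c) := by
  have : grp T d ≤ (grp T (d - c)).comap A := by
    refine iSup₂_le fun l hl w hw => ?_
    have h1 := shift T A c l h w hw
    have h2 : l + (c : ℂ) ∈ {m : ℂ | -⌊m.re⌋ = d - c} := by
      have hl' : -⌊l.re⌋ = d := hl
      show -⌊(l + (c : ℂ)).re⌋ = d - c
      rw [Complex.add_re, Complex.intCast_re, Int.floor_add_intCast]
      omega
    exact (le_iSup₂_of_le (f := fun m (_ : m ∈ {m : ℂ | -⌊m.re⌋ = d - c}) =>
      T.maxGenEigenspace m) _ h2 le_rfl : _ ≤ grp T (d - c)) h1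
  exact this hv

variable {Q₀ β : Type} [Fintype β]

theorem mul_sup (A B : Matrix β β ℂ) (c b : β) (h : (A * B) c b ≠ 0) :
    ∃ e, A c e ≠ 0 ∧ B e b ≠ 0 := by
  by_contra hn
  push Not at hn
  apply h
  rw [Matrix.mul_apply]
  refine Finset.sum_eq_zero fun e _ => ?_
  by_cases h1 : A c e = 0
  · simp [h1]
  · simp [hn e h1]

theorem conj_sup {vx : β → Q₀} {A B M : Matrix β β ℂ} (hA : Gd vx A) (hB : Gd vx B) {u u' : Q₀}
    (hM : ∀ c b, M c b ≠ 0 → vx c = u ∧ vx b = u') (c b : β) (h : (A * M * B) c b ≠ 0) :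
    vx c = u ∧ vx b = u' := by
  obtain ⟨e, h1, h2⟩ := mul_sup _ _ c b h
  obtain ⟨f, h3, h4⟩ := mul_sup _ _ c e h1
  have e1 : vx c = vx f := by by_contra hh; exact h3 (hA c f hh)
  have e2 : vx e = vx b := by by_contra hh; exact h2 (hB e b hh)
  exact ⟨e1.trans (hM f e h4).1, e2.symm.trans (hM f e h4).2⟩

theorem mat_shift [DecidableEq β] (ξ A : Matrix β β ℂ) (c : ℤ) (h : ξ * A = A * ξ + (c : ℂ) • A)
    (d : ℤ) (v : β → ℂ) (hv : v ∈ grp (Matrix.toLin' ξ) d) :
    A.mulVec v ∈ grp (Matrix.toLin' ξ) (d - c) := by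
  have := grp_shift (Matrix.toLin' ξ) (Matrix.toLin' A) c (by
    show (Matrix.toLin' ξ).comp (Matrix.toLin' A) = (Matrix.toLin' A).comp (Matrix.toLin' ξ) + _
    rw [← Matrix.toLin'_mul, ← Matrix.toLin'_mul, h, map_add, map_smul]) d v hv
  simpa using this

end GradAux

open GradAux

theorem p_GRAD (hADM : S_ADM) (hBASIS : S_BASIS) :
    S_GRAD := by
  classical
  intro Q₀ Q₁ β _ _ _ _ s t vx y hR
  obtain ⟨-, -, -, -, a5, a6, -⟩ := hADM Q₀ Q₁ β s t vx
  let v : Ent s t vx ⊕ Ent s t vx → ℂ := Sum.elim 0 (y ∘ Sum.inr)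
  have v1 : ∀ a, dbl s t vx v (Sum.inl a) = 0 := by
    intro a; ext c b; simp [dbl, mat, v]
  have v2 : ∀ a, dbl s t vx v (Sum.inr a) = dbl s t vx y (Sum.inr a) := fun a => rfl
  have hD : DMu s t vx y v := by
    have := hR.1
    unfold MuZero at this
    unfold DMu
    simp only [v1, v2, Matrix.mul_zero, Matrix.zero_mul, add_zero, sub_zero]
    exact this
  obtain ⟨ξ, hξ, hh⟩ := hR.2 v hD
  have c1 : ∀ a, ξ * dbl s t vx y (Sum.inl a) =
      dbl s t vx y (Sum.inl a) * ξ + ((0 : ℤ) : ℂ) • dbl s t vx y (Sum.inl a) := by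
    intro a
    have := hh (Sum.inl a)
    rw [v1] at this
    simpa using (sub_eq_zero.1 this.symm)
  have c2 : ∀ a, ξ * dbl s t vx y (Sum.inr a) =
      dbl s t vx y (Sum.inr a) * ξ + ((1 : ℤ) : ℂ) • dbl s t vx y (Sum.inr a) := by
    intro a
    have := hh (Sum.inr a)
    rw [v2] at this
    rw [Int.cast_one, one_smul]
    exact (sub_eq_iff_eq_add'.1 this.symm)
  obtain ⟨γ, δ, deg, hG, hs, hU⟩ := hBASIS Q₀ β vx (grp (Matrix.toLin' ξ)) (grp_indep _)
    (grp_top _) (by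
      intro d w hw u
      have hc : ξ * Matrix.diagonal (fun b => if vx b = u then (1 : ℂ) else 0) =
          Matrix.diagonal (fun b => if vx b = u then (1 : ℂ) else 0) * ξ +
            ((0 : ℤ) : ℂ) • Matrix.diagonal (fun b => if vx b = u then (1 : ℂ) else 0) := by
        ext c b
        simp only [Matrix.mul_diagonal, Matrix.diagonal_mul, Int.cast_zero, zero_smul, add_zero]
        by_cases hcb : vx c = vx b
        · rw [hcb, mul_comm]
        · rw [hξ c b hcb]; simp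
      have := mat_shift ξ _ 0 hc d w hw
      rw [sub_zero] at this
      convert this using 1
      ext b
      rw [Matrix.mulVec_diagonal]
      split_ifs <;> simp)
  obtain ⟨z, hz⟩ := a5 (fun a => γ * dbl s t vx y a * δ)
    (fun a c b h => conj_sup hG.gd hG.gd' (a6 y a) c b h)
  have key : ∀ (A : Matrix β β ℂ) (e : ℤ), ξ * A = A * ξ + (e : ℂ) • A →
      ∀ c b, (γ * A * δ) c b ≠ 0 → deg c = deg b - e := by
    intro A e hA c b hne
    have h1 : δ.mulVec (Pi.single b 1) ∈ grp (Matrix.toLin' ξ) (deg b) := by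
      rw [hU]
      intro b' hb'
      rw [Matrix.mulVec_mulVec, hG.mul, Matrix.one_mulVec, Pi.single_apply, if_neg]
      rintro rfl
      exact hb' rfl
    have h2 := (hU _ _).1 (mat_shift ξ A e hA _ _ h1) c
    by_contra hc
    apply hne
    have h3 := h2 hc
    rw [Matrix.mulVec_mulVec, Matrix.mulVec_mulVec, Matrix.mulVec_single_one] at h3
    exact h3
  refine ⟨γ, δ, z, deg, hG, fun a => ?_, hs, fun p hp => ?_, fun p hp => ?_⟩
  · rw [hz a, Matrix.mul_assoc, hG.mul', Matrix.mul_one]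
  · obtain ⟨⟨a, c, b⟩, h⟩ := p
    have e1 : dbl s t vx z (Sum.inl a) c b = z (Sum.inl ⟨(a, c, b), h⟩) := by
      simp only [dbl, Sum.elim_inl, mat, Matrix.of_apply]
      rw [dif_pos h]; rfl
    have := key _ 0 (c1 a) c b (by rw [← hz, e1]; exact hp)
    simp only [wtE]; omega
  · obtain ⟨⟨a, c, b⟩, h⟩ := p
    have e1 : dbl s t vx z (Sum.inr a) b c = z (Sum.inr ⟨(a, c, b), h⟩) := by
      simp only [dbl, Sum.elim_inr, mat, Matrix.transpose_apply, Matrix.of_apply]
      rw [dif_pos h]; rfl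
    have := key _ 1 (c2 a) b c (by rw [← hz, e1]; exact hp)
    simp only [wtE]; omega

end Pool.Agent.P.MP_52ab5a_al
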