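import Pool.Agent.P.MP_52ab5a_al.F.Iface
import Pool.Agent.P.MP_52ab5a_al.A.Iface
import Pool.Agent.P.MP_52ab5a_al.K.Iface
import Pool.Agent.P.MP_52ab5a_al.B.Iface

/-! Step INTG of the open orbit project. -/

namespace Pool.Agent.P.MP_52ab5a_al

open MvPolynomial WM

namespace IntgAux

theorem scale_eq {ι : Type} [Fintype ι] [DecidableEq ι] (L : WM ι) (w : ι → ℤ) (u : ℂ) :
    L.aff (Matrix.diagonal fun s => u ^ w s) (Matrix.diagonal fun s => u ^ (-w s)) 0 =
      L.scale w u := by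
  have h1 : (fun s => ∑ t, (Matrix.diagonal fun s => u ^ w s) s t • L.X t +
      (0 : ι → ℂ) s • (1 : Module.End ℂ L.V)) = fun s => u ^ w s • L.X s := by
    funext s
    simp [Matrix.diagonal_apply]
  have h2 : (fun s => ∑ t, (Matrix.diagonal fun s => u ^ (-w s)) t s • L.D t) =
      fun s => u ^ (-w s) • L.D s := by
    funext s
    simp only [Matrix.diagonal_apply, ite_smul, zero_smul, Finset.sum_ite_eq', Finset.mem_univ,
      if_true]
  exact congrArg₂ L.ops h1 h2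

variable {Q₀ β : Type} [Fintype β] [DecidableEq β] {vx : β → Q₀}

theorem ginv_symm {γ δ : Matrix β β ℂ} (h : GInv vx γ δ) : GInv vx δ γ :=
  ⟨h.gd', h.gd, h.mul', h.mul⟩

omit [Fintype β] in
theorem gd_diag (a : β → ℂ) : Gd vx (Matrix.diagonal a) := fun _ _ h =>
  Matrix.diagonal_apply_ne _ fun e => h (congrArg vx e)

theorem ginv_diag (deg : β → ℤ) {u : ℂ} (hu : u ≠ 0) :
    GInv vx (Matrix.diagonal fun b => u ^ deg b) (Matrix.diagonal fun b => u ^ (-deg b)) := by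
  refine ⟨gd_diag _, gd_diag _, ?_, ?_⟩ <;>
  · rw [Matrix.diagonal_mul_diagonal, ← Matrix.diagonal_one]
    congr 1
    funext b
    rw [← zpow_add₀ hu]
    simp

/-- The off diagonal elementary matrices. -/
noncomputable def nn (b c : β) : Matrix β β ℂ := if b = c then 0 else Matrix.single b c 1

omit [Fintype β] in
theorem gd_nn {b c : β} (h : vx b = vx c) : Gd vx (nn b c) := fun b' c' h' => by
  unfold nn
  split_ifs
  · rfl
  · refine Matrix.single_apply_of_ne _ _ _ _ _ ?_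
    rintro ⟨rfl, rfl⟩
    exact h' h

theorem nn_sq (b c : β) : nn b c * nn b c = 0 := by
  unfold nn
  split_ifs with h
  · exact mul_zero _
  · exact Matrix.single_mul_single_of_ne _ _ _ _ (Ne.symm h) _

omit [Fintype β] in
theorem dg_single (b : β) : dg (Pi.single b 1 : β → ℤ) = Matrix.single b b 1 := by
  ext i j
  simp only [dg, Matrix.diagonal_apply, Matrix.single_apply, Pi.single_apply]
  by_cases h1 : i = j <;> by_cases h2 : b = i <;> simp_all [eq_comm]

theorem conj_nn (b c : β) : (1 - nn b c) * dg (Pi.single b 1 : β → ℤ) * (1 + nn b c) =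
    Matrix.single b b 1 + nn b c := by
  rw [dg_single]
  unfold nn
  split_ifs with h
  · simp
  · rw [sub_mul, one_mul, Matrix.single_mul_single_of_ne _ _ _ _ (Ne.symm h), sub_zero, mul_add,
      mul_one, Matrix.single_mul_single_same, mul_one]

theorem ginv_nn {b c : β} (h : vx b = vx c) : GInv vx (1 - nn b c) (1 + nn b c) := by
  have h1 : Gd vx (1 : Matrix β β ℂ) := gd_diag _
  refine ⟨fun i j e => ?_, fun i j e => ?_, ?_, ?_⟩
  · rw [Matrix.sub_apply, h1 i j e, gd_nn h i j e, sub_zero]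
  · rw [Matrix.add_apply, h1 i j e, gd_nn h i j e, add_zero]
  · rw [sub_mul, one_mul, mul_add, mul_one, nn_sq, add_zero, add_sub_cancel_right]
  · rw [add_mul, one_mul, mul_sub, mul_one, nn_sq, sub_zero, sub_add_cancel]

end IntgAux

open IntgAux in
theorem p_INTG (hPISO : S_PISO) (hMULT : S_MULT) (hDEC : S_DEC) (hINT : S_INT) (hAFFM : S_AFFM) (hCLS : S_CLS) (hVF : S_VF) (hADM : S_ADM) (hGINV : S_GINV) (hPBW : S_PBW) :
    S_INTG := by
  intro Q₀ Q₁ β κ _ _ _ _ _ _ s t vx i L hS hH hm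
  classical
  obtain ⟨a1, -, -, -, -, -, -, -, -, -, a11, a12, a13, a14, a15, a16, a17, -⟩ := hADM Q₀ Q₁ β s t vx
  have inv : ∀ {γ δ}, GInv vx γ δ → Adm s t vx γ δ * Adm s t vx δ γ = 1 := fun h => by
    rw [a11 _ _ _ _ h.gd h.gd' h.gd' h.gd, h.mul, a12]
  obtain ⟨m, M, -, -, -, hM⟩ := (hDEC (Ent s t vx)).1 _
    ((hCLS (Ent s t vx)).2.2.2.2.2.2 (β ×ₗ κ) (flagBundle s t vx i))
  have app : ∀ (L' : WM (Ent s t vx)) γ δ, GInv vx γ δ → L'.Simple → L'.Holo →
      intg L'.mult (flagBundle s t vx i) ≠ 0 →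
      (L'.aff (Adm s t vx γ δ) (Adm s t vx δ γ) 0).Simple ∧
      (L'.aff (Adm s t vx γ δ) (Adm s t vx δ γ) 0).Holo ∧
      intg (L'.aff (Adm s t vx γ δ) (Adm s t vx δ γ) 0).mult (flagBundle s t vx i) ≠ 0 := by
    intro L' γ δ h h1 h2 h3
    obtain ⟨-, -, b3, b4, -, b6, -⟩ := hAFFM _ _ (Adm s t vx γ δ) (Adm s t vx δ γ) 0 (inv h)
      (inv (ginv_symm h))
    refine ⟨b3 L' h1, b4 L' ⊥ ⊤ h2, ?_⟩
    rw [← ((hGINV Q₀ Q₁ β κ s t vx i).2 γ δ h).2 _ (hMULT _ _ (b3 L' h1)).1]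
    simpa only [b6] using h3
  have dia : ∀ (L' : WM (Ent s t vx)) (deg : β → ℤ), L'.Simple → L'.Holo →
      intg L'.mult (flagBundle s t vx i) ≠ 0 → Diag (L'.eu (wtE s t vx deg)) := by
    intro L' deg h1 h2 h3
    refine hINT _ L' _ h1 h2 m M fun u hu => ?_
    obtain ⟨c1, -, c3⟩ := app L' _ _ (ginv_diag deg hu) h1 h2 h3
    have e1 : (fun p : Ent s t vx => u ^ deg p.1.2.1 * u ^ (-deg p.1.2.2)) =
        fun p => u ^ wtE s t vx deg p := funext fun p => by
      rw [← zpow_add₀ hu, wtE, sub_eq_add_neg]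
    have e2 : (fun p : Ent s t vx => u ^ (-deg p.1.2.1) * u ^ deg p.1.2.2) =
        fun p => u ^ (-wtE s t vx deg p) := funext fun p => by
      rw [← zpow_add₀ hu, wtE, neg_sub, sub_eq_neg_add]
    rw [a17, a17, e1, e2, scale_eq] at c1 c3
    exact hM _ c1 c3
  let F : Matrix β β ℂ →ₗ[ℂ] Matrix (Ent s t vx) (Ent s t vx) ℂ :=
    { toFun := adm s t vx
      map_add' := fun ξ η => (a14 ξ η 0).1
      map_smul' := fun c ξ => (a14 ξ 0 c).2 }
  refine hPBW _ L _ {p : β × β // vx p.1 = vx p.2}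
    (fun p => F (Matrix.single p.1.1 p.1.1 1 + nn p.1.1 p.1.2)) hS.1 hS.2.1 a13
    (le_antisymm (Submodule.span_le.2 ?_) fun A hA => ?_) fun p => ?_
  · rintro _ ⟨p, rfl⟩
    refine (a1 _).2 ⟨_, fun b c e => ?_, rfl⟩
    rw [Matrix.add_apply, gd_nn p.2 b c e, add_zero]
    refine Matrix.single_apply_of_ne _ _ _ _ _ ?_
    rintro ⟨rfl, h⟩
    exact e (congrArg vx h)
  · obtain ⟨ξ, hξ, rfl⟩ := (a1 A).1 hA
    show F ξ ∈ _
    rw [Matrix.matrix_eq_sum_single ξ]
    simp only [map_sum]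
    refine sum_mem fun b _ => sum_mem fun c _ => ?_
    by_cases e : vx b = vx c
    · rw [← mul_one (ξ b c), ← smul_eq_mul, ← Matrix.smul_single, map_smul]
      refine Submodule.smul_mem _ _ ?_
      have h1 : F (Matrix.single b b 1) ∈ Submodule.span ℂ (Set.range
          fun p : {p : β × β // vx p.1 = vx p.2} =>
            F (Matrix.single p.1.1 p.1.1 1 + nn p.1.1 p.1.2)) :=
        Submodule.subset_span ⟨⟨(b, b), rfl⟩, by simp [nn]⟩
      by_cases h : b = c
      · exact h ▸ h1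
      · have h2 := sub_mem (Submodule.subset_span (Set.mem_range_self
          (⟨(b, c), e⟩ : {p : β × β // vx p.1 = vx p.2}))) h1
        simpa only [map_add, add_sub_cancel_left, nn, if_neg h] using h2
    · rw [hξ b c e, Matrix.single_zero, map_zero]
      exact zero_mem _
  · have h := ginv_nn p.2
    obtain ⟨c1, c2, c3⟩ := app L _ _ (ginv_symm h) hS hH hm
    have d1 := dia _ (Pi.single p.1.1 1) c1 c2 c3
    rw [← (hVF _ _).2.1, (hVF _ L).2.2.1, ← a16, a15 _ _ (dg _) h (gd_diag _), conj_nn] at d1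
    exact d1

end Pool.Agent.P.MP_52ab5a_al
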