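import Pool.Agent.P.MP_52ab5a_al.F.Iface

/-! Step NF of the open orbit project. -/

namespace Pool.Agent.P.MP_52ab5a_al

open MvPolynomial WM

namespace NfAux

variable {Q₀ β κ : Type} [Fintype β] [LinearOrder β] [Fintype κ] [LinearOrder κ]

/-- The span of the earlier columns. -/
def low (h : Matrix β κ ℂ) (k : κ) : Submodule ℂ (β → ℂ) :=
  Submodule.span ℂ {v | ∃ j < k, v = fun b => h b j}

omit [Fintype β] [LinearOrder β] [Fintype κ] in
theorem low_mono (h : Matrix β κ ℂ) {j k : κ} (hj : j ≤ k) : low h j ≤ low h k :=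
  Submodule.span_mono fun _ ⟨l, a, b⟩ => ⟨l, a.trans_le hj, b⟩

omit [Fintype β] [LinearOrder β] [Fintype κ] in
theorem low_le (h : Matrix β κ ℂ) (k : κ) : low h k ≤ step h k :=
  Submodule.span_mono fun _ ⟨l, a, b⟩ => ⟨l, a.le, b⟩

omit [LinearOrder β] [Fintype κ] in
theorem not_low {h : Matrix β κ ℂ} {h' : Matrix κ β ℂ} (e : h' * h = 1) (k : κ) :
    (fun b => h b k) ∉ low h k := fun a => by
  have key : ∀ v ∈ low h k, h'.mulVec v k = 0 := fun v hv => by
    refine Submodule.span_induction (fun v ⟨j, hj, ev⟩ => ?_) (by simp) (fun x y _ _ hx hy => ?_)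
      (fun c x _ hx => ?_) hv
    · have := congrFun (congrFun e k) j
      rw [Matrix.one_apply_ne hj.ne'] at this
      rw [ev]; exact this
    · rw [Matrix.mulVec_add, Pi.add_apply, hx, hy, add_zero]
    · rw [Matrix.mulVec_smul, Pi.smul_apply, hx, smul_zero]
  have := congrFun (congrFun e k) k
  rw [Matrix.one_apply_eq] at this
  exact one_ne_zero (this.symm.trans (key _ a))

/-- The conditions on the column `k`. -/
def Good (vx : β → Q₀) (i : κ → Q₀) (h : Matrix β κ ℂ) (f : κ → β × (β → ℂ)) (k : κ) : Prop :=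
  (vx (f k).1 = i k ∧ (f k).2 (f k).1 = 1 ∧
    ∀ b, ((f k).1 < b ∨ vx b ≠ i k ∨ ∃ j < k, b = (f j).1) → (f k).2 b = 0) ∧
  ∃ c : ℂ, c ≠ 0 ∧ (f k).2 - c • (fun b => h b k) ∈ low h k

variable {vx : β → Q₀} {i : κ → Q₀} {h : Matrix β κ ℂ}

omit [Fintype β] [Fintype κ] in
theorem clear (hg : ∀ b k, h b k ≠ 0 → vx b = i k) {f : κ → β × (β → ℂ)} {k : κ}
    (hf : ∀ j < k, Good vx i h f j) (s : Finset κ) : (∀ j ∈ s, j < k) → ∃ v : β → ℂ,
      v - (fun b => h b k) ∈ low h k ∧ (∀ b, vx b ≠ i k → v b = 0) ∧ ∀ j ∈ s, v (f j).1 = 0 := by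
  induction s using Finset.induction_on_max with
  | empty => exact fun _ => ⟨fun b => h b k, by simp, fun b hb => not_not.1 (mt (hg b k) hb), by simp⟩
  | insert a s ha ih =>
    intro hs
    obtain ⟨v, v1, v2, v3⟩ := ih fun j hj => hs j (Finset.mem_insert_of_mem hj)
    have ak := hs a (Finset.mem_insert_self _ _)
    obtain ⟨⟨a1, a2, a3⟩, c, -, a4⟩ := hf a ak
    have m : (f a).2 ∈ low h k := by
      have := add_mem (low_mono h ak.le a4)
        (Submodule.smul_mem (low h k) c (Submodule.subset_span ⟨a, ak, rfl⟩))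
      rwa [sub_add_cancel] at this
    refine ⟨v - v (f a).1 • (f a).2, ?_, fun b hb => ?_, fun j hj => ?_⟩
    · rw [sub_right_comm]
      exact sub_mem v1 (Submodule.smul_mem _ _ m)
    · rw [Pi.sub_apply, Pi.smul_apply, v2 b hb, smul_eq_mul, zero_sub, neg_eq_zero, mul_eq_zero]
      by_cases e : vx (f a).1 = i k
      · exact Or.inr (a3 b (Or.inr (Or.inl (by rwa [← a1, e]))))
      · exact Or.inl (v2 _ e)
    · rw [Pi.sub_apply, Pi.smul_apply, smul_eq_mul]
      rcases Finset.mem_insert.1 hj with rfl | hj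
      · rw [a2, mul_one, sub_self]
      · rw [v3 j hj, a3 _ (Or.inr (Or.inr ⟨j, ha j hj, rfl⟩)), mul_zero, sub_zero]

theorem next {h' : Matrix κ β ℂ} (e : h' * h = 1) (hg : ∀ b k, h b k ≠ 0 → vx b = i k)
    {f : κ → β × (β → ℂ)} {k : κ} (hf : ∀ j < k, Good vx i h f j) :
    ∃ x, Good vx i h (Function.update f k x) k := by
  obtain ⟨v, v1, v2, v3⟩ := clear hg hf (Finset.univ.filter (· < k)) fun j hj =>
    (Finset.mem_filter.1 hj).2
  have v0 : (Finset.univ.filter fun b => v b ≠ 0).Nonempty := by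
    by_contra a
    have : v = 0 := funext fun b => not_not.1 fun hb => a ⟨b, by simpa using hb⟩
    rw [this, zero_sub, neg_mem_iff] at v1
    exact not_low e k v1
  obtain ⟨p, p1, p2⟩ := Finset.exists_max_image _ id v0
  have p0 : v p ≠ 0 := (Finset.mem_filter.1 p1).2
  refine ⟨(p, (v p)⁻¹ • v), ?_⟩
  rw [Good, Function.update_self]
  refine ⟨⟨not_not.1 (mt (v2 p) p0), inv_mul_cancel₀ p0, fun b hb => ?_⟩, (v p)⁻¹,
    inv_ne_zero p0, by rw [← smul_sub]; exact Submodule.smul_mem _ _ v1⟩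
  refine mul_eq_zero_of_right _ (?_ : v b = 0)
  rcases hb with hb | hb | ⟨j, hj, rfl⟩
  · exact not_not.1 fun a => hb.not_ge (p2 b (by simpa using a))
  · exact v2 b hb
  · rw [Function.update_of_ne hj.ne]
    exact v3 j (by simpa using hj)

theorem all {h' : Matrix κ β ℂ} (e : h' * h = 1) (hg : ∀ b k, h b k ≠ 0 → vx b = i k)
    (f₀ : κ → β × (β → ℂ)) (s : Finset κ) :
    (∀ k ∈ s, ∀ j < k, j ∈ s) → ∃ f, ∀ k ∈ s, Good vx i h f k := by
  induction s using Finset.induction_on_max with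
  | empty => exact fun _ => ⟨f₀, by simp⟩
  | insert a s ha ih =>
    intro hs
    obtain ⟨f, hf⟩ := ih fun k hk j hj => (Finset.mem_insert.1
      (hs k (Finset.mem_insert_of_mem hk) j hj)).resolve_left (hj.trans (ha k hk)).ne
    obtain ⟨x, hx⟩ := next e hg (k := a) fun j hj => hf j ((Finset.mem_insert.1
      (hs a (Finset.mem_insert_self _ _) j hj)).resolve_left hj.ne)
    refine ⟨Function.update f a x, fun k hk => ?_⟩
    rcases Finset.mem_insert.1 hk with rfl | hk
    · exact hx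
    obtain ⟨⟨a1, a2, a3⟩, a4⟩ := hf k hk
    rw [Good, Function.update_of_ne (ha k hk).ne]
    refine ⟨⟨a1, a2, fun b hb => a3 b (hb.imp_right (Or.imp_right fun ⟨j, hj, ej⟩ => ⟨j, hj, ?_⟩))⟩,
      a4⟩
    rwa [Function.update_of_ne (hj.trans (ha k hk)).ne] at ej

omit [Fintype β] [LinearOrder β] in
theorem step_eq {g : Matrix β κ ℂ}
    (hg : ∀ k, ∃ c : ℂ, c ≠ 0 ∧ (fun b => g b k) - c • (fun b => h b k) ∈ low h k) (k : κ) :
    step g k = step h k := by
  have mono : ∀ (g : Matrix β κ ℂ) {j k : κ}, j ≤ k → step g j ≤ step g k := fun g _ _ hj =>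
    Submodule.span_mono fun _ ⟨l, a, b⟩ => ⟨l, a.trans hj, b⟩
  have self : ∀ (g : Matrix β κ ℂ) (j : κ), (fun b => g b j) ∈ step g j := fun g j =>
    Submodule.subset_span ⟨j, le_rfl, rfl⟩
  have key : ∀ k, (fun b => h b k) ∈ step g k := fun k => by
    induction k using WellFoundedLT.induction with
    | ind k ih =>
      obtain ⟨c, c0, hc⟩ := hg k
      have m : low h k ≤ step g k :=
        Submodule.span_le.2 fun _ ⟨j, hj, e⟩ => e ▸ mono g hj.le (ih j hj)
      have := sub_mem (self g k) (m hc)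
      rw [sub_sub_cancel] at this
      exact (Submodule.smul_mem_iff _ c0).1 this
  refine le_antisymm (Submodule.span_le.2 ?_)
    (Submodule.span_le.2 fun _ ⟨j, hj, e⟩ => e ▸ mono g hj (key j))
  rintro _ ⟨j, hj, rfl⟩
  obtain ⟨c, -, hc⟩ := hg j
  have := add_mem (low_le h j hc) (Submodule.smul_mem _ c (self h j))
  rw [sub_add_cancel] at this
  exact mono h hj this

omit [Fintype β] [LinearOrder β] in
theorem mem_step {g : Matrix β κ ℂ} {k : κ} {v : β → ℂ} (hv : v ∈ step g k) :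
    ∃ t : κ → ℂ, (∀ j, k < j → t j = 0) ∧ v = g.mulVec t := by
  refine Submodule.span_induction (fun v ⟨j, hj, ev⟩ => ⟨Pi.single j 1, fun l hl => ?_, ?_⟩)
    ⟨0, fun _ _ => rfl, by simp⟩ (fun x y _ _ ⟨t, t1, t2⟩ ⟨u, u1, u2⟩ => ⟨t + u, fun j hj => ?_, ?_⟩)
    (fun c x _ ⟨t, t1, t2⟩ => ⟨c • t, fun j hj => ?_, ?_⟩) hv
  · exact Pi.single_eq_of_ne (hj.trans_lt hl).ne' _
  · rw [ev, Matrix.mulVec_single_one]; rfl
  · rw [Pi.add_apply, t1 j hj, u1 j hj, add_zero]
  · rw [Matrix.mulVec_add, t2, u2]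
  · rw [Pi.smul_apply, t1 j hj, smul_zero]
  · rw [Matrix.mulVec_smul, t2]

omit [Fintype β] in
theorem uniq {w w' : κ ≃ β} {g g' : Matrix β κ ℂ} (c : Cell vx i w g) (c' : Cell vx i w' g')
    (e : ∀ k, step g' k = step g k) (k : κ) : w' k = w k ∧ ∀ b, g' b k = g b k := by
  induction k using WellFoundedLT.induction with
  | ind k ih =>
    obtain ⟨t, t1, t2⟩ := mem_step (g := g) (k := k) (v := fun b => g' b k)
      (e k ▸ Submodule.subset_span ⟨k, le_rfl, rfl⟩)
    have t3 : ∀ j, j < k → t j = 0 := fun j => by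
      induction j using WellFoundedLT.induction with
      | ind j ih' =>
        intro hj
        have a := congrFun t2 (w j)
        rw [(c' k).2.2 _ (Or.inr (Or.inr ⟨j, hj, (ih j hj).1.symm⟩)), Matrix.mulVec, dotProduct,
          Finset.sum_eq_single j (fun l _ hl => ?_) (by simp), (c j).2.1, one_mul] at a
        · exact a.symm
        rcases lt_or_gt_of_ne hl with hl | hl
        · rw [ih' l hl (hl.trans hj), mul_zero]
        · rw [(c l).2.2 _ (Or.inr (Or.inr ⟨j, hl, rfl⟩)), zero_mul]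
    have t4 : ∀ b, g' b k = g b k * t k := fun b => by
      have a := congrFun t2 b
      rwa [Matrix.mulVec, dotProduct, Finset.sum_eq_single k (fun l _ hl => ?_) (by simp)] at a
      rcases lt_or_gt_of_ne hl with hl | hl
      · rw [t3 l hl, mul_zero]
      · rw [t1 l hl, mul_zero]
    have a1 := t4 (w' k)
    have a2 := t4 (w k)
    rw [(c' k).2.1] at a1
    rw [(c k).2.1, one_mul] at a2
    have b := mul_ne_zero_iff.1 (a1 ▸ one_ne_zero : g (w' k) k * t k ≠ 0)
    have ew : w' k = w k := le_antisymm (not_lt.1 fun a => b.1 ((c k).2.2 _ (Or.inl a)))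
      (not_lt.1 fun a => b.2 (a2 ▸ (c' k).2.2 _ (Or.inl a)))
    refine ⟨ew, fun b => ?_⟩
    rw [t4, ← a2, ← ew, (c' k).2.1, mul_one]

end NfAux

open NfAux in
theorem p_NF (hCELL : S_CELL) :
    S_NF := by
  intro Q₀ β κ _ _ _ _ vx i h ⟨h', e, e'⟩ hg
  have hc : Fintype.card κ = Fintype.card β := by
    have := Matrix.trace_mul_comm h' h
    rw [e, e', Matrix.trace_one, Matrix.trace_one] at this
    exact_mod_cast this
  obtain ⟨f, hf⟩ := all e hg (fun k => (Fintype.equivOfCardEq hc k, 0)) Finset.univ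
    fun _ _ _ _ => Finset.mem_univ _
  have hf' := fun k => hf k (Finset.mem_univ k)
  have ne : ∀ j k, j < k → (f j).1 ≠ (f k).1 := fun j k hj a =>
    one_ne_zero ((hf' k).1.2.1.symm.trans ((hf' k).1.2.2 _ (Or.inr (Or.inr ⟨j, hj, a.symm⟩))))
  have inj : Function.Injective fun k => (f k).1 := fun j k a => by
    rcases lt_trichotomy j k with l | l | l
    exacts [absurd a (ne j k l), l, absurd a.symm (ne k j l)]
  have cell : Cell vx i (Equiv.ofBijective _ ((Fintype.bijective_iff_injective_and_card _).2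
      ⟨inj, hc⟩)) (Matrix.of fun b k => (f k).2 b) := fun k => (hf' k).1
  have st := step_eq (g := Matrix.of fun b k => (f k).2 b) fun k => (hf' k).2
  refine ⟨_, ⟨⟨_, cell⟩, st⟩, fun g' ⟨⟨w', c'⟩, s'⟩ => ?_⟩
  ext b k
  exact (uniq cell c' (fun k => (s' k).trans (st k).symm) k).2 b

end Pool.Agent.P.MP_52ab5a_al
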