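import Pool.Agent.P.MP_52ab5a_al.F.Iface
import Pool.Agent.P.MP_52ab5a_al.B.Iface
import Pool.Agent.P.MP_52ab5a_al.A.Iface

/-! Step PBW of the open orbit project. -/

namespace Pool.Agent.P.MP_52ab5a_al

open MvPolynomial WM

namespace PbwAux

variable {V : Type} [AddCommGroup V] [Module ℂ V]

theorem spm {A B : Type} [AddCommGroup A] [Module ℂ A] [AddCommGroup B] [Module ℂ B]
    (f : A →ₗ[ℂ] B) {S : Set A} {Y : Submodule ℂ B} {x : A} (hx : x ∈ Submodule.span ℂ S)
    (h : ∀ y ∈ S, f y ∈ Y) : f x ∈ Y := (Submodule.span_le (p := Y.comap f)).2 h hx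

theorem loc {T : Module.End ℂ V} (h : Diag T) (W : Submodule ℂ V) (hW : W.FG) :
    ∃ W' : Submodule ℂ V, W'.FG ∧ W ≤ W' ∧ ∀ v ∈ W', T v ∈ W' := by
  have sp : ∀ A B A' B' : Submodule ℂ V, (A'.FG ∧ A ≤ A' ∧ ∀ v ∈ A', T v ∈ A') →
      (B'.FG ∧ B ≤ B' ∧ ∀ v ∈ B', T v ∈ B') →
      (A' ⊔ B').FG ∧ A ⊔ B ≤ A' ⊔ B' ∧ ∀ v ∈ A' ⊔ B', T v ∈ A' ⊔ B' := fun A B A' B' a b =>
    ⟨a.1.sup b.1, sup_le_sup a.2.1 b.2.1, fun v hv => by
      obtain ⟨x, hx, y, hy, rfl⟩ := Submodule.mem_sup.1 hv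
      rw [map_add]
      exact Submodule.add_mem_sup (a.2.2 x hx) (b.2.2 y hy)⟩
  refine Submodule.fg_induction
    (motive := fun W _ => ∃ W' : Submodule ℂ V, W'.FG ∧ W ≤ W' ∧ ∀ v ∈ W', T v ∈ W') (fun x => ?_)
    (fun A B _ _ ⟨A', a⟩ ⟨B', b⟩ => ⟨_, sp _ _ _ _ a b⟩) W hW
  have hx : x ∈ ⨆ a : ℂ, T.eigenspace a := by rw [h]; trivial
  induction hx using Submodule.iSup_induction' with
  | mem a x hx =>
    refine ⟨_, Submodule.fg_span_singleton x, le_rfl, fun v hv => ?_⟩
    obtain ⟨c, rfl⟩ := Submodule.mem_span_singleton.1 hv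
    rw [map_smul, Module.End.mem_eigenspace_iff.1 hx]
    exact Submodule.smul_mem _ _ (Submodule.smul_mem _ _ (Submodule.mem_span_singleton_self x))
  | zero => exact ⟨⊥, Submodule.fg_bot, by simp, by simp⟩
  | add x y _ _ hx hy =>
    obtain ⟨A', a⟩ := hx
    obtain ⟨B', b⟩ := hy
    have := sp _ _ _ _ a b
    exact ⟨_, this.1, (Submodule.span_singleton_le_iff_mem _ _).2 (this.2.1 (Submodule.add_mem_sup
      (Submodule.mem_span_singleton_self x) (Submodule.mem_span_singleton_self y))), this.2.2⟩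

theorem sorted {m : ℕ} (E : Fin m → Module.End ℂ V) (h : ∀ j, Diag (E j)) (v : V) (k : ℕ) :
    ∃ W : Submodule ℂ V, W.FG ∧ ∀ l : List (Fin m), l.Pairwise (· ≥ ·) → (∀ j ∈ l, j.val < k) →
      (l.map E).prod v ∈ W := by
  induction k with
  | zero =>
    refine ⟨_, Submodule.fg_span_singleton v, fun l _ hl => ?_⟩
    cases l with
    | nil => exact Submodule.mem_span_singleton_self v
    | cons a l => exact absurd (hl a List.mem_cons_self) (Nat.not_lt_zero _)
  | succ k ih =>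
    obtain ⟨W, hW, hl⟩ := ih
    by_cases hk : k < m
    · obtain ⟨W', a, b, c⟩ := loc (h ⟨k, hk⟩) W hW
      refine ⟨W', a, fun l => ?_⟩
      induction l with
      | nil => exact fun p _ => b (hl [] p (by simp))
      | cons x l ih =>
        intro p q
        by_cases hx : x.val < k
        · refine b (hl _ p fun j hj => ?_)
          rcases List.mem_cons.1 hj with rfl | hj
          · exact hx
          · exact lt_of_le_of_lt ((List.pairwise_cons.1 p).1 j hj) hx
        · obtain rfl : x = ⟨k, hk⟩ := Fin.ext (by have := q x List.mem_cons_self; simp; omega)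
          exact c _ (ih (List.pairwise_cons.1 p).2 fun j hj => q j (List.mem_cons_of_mem _ hj))
    · exact ⟨W, hW, fun l p _ => hl l p fun j _ => by have := j.2; omega⟩

theorem perm {α : Type} (E : α → Module.End ℂ V)
    (h : ∀ i j, E i * E j - E j * E i ∈ Submodule.span ℂ (Set.range E)) {l l' : List α}
    (p : l.Perm l') : (l.map E).prod - (l'.map E).prod ∈
      Submodule.span ℂ {T | ∃ u : List α, u.length < l.length ∧ T = (u.map E).prod} := by
  induction p with
  | nil => simp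
  | @cons x l l' _ ih =>
    rw [List.map_cons, List.map_cons, List.prod_cons, List.prod_cons, ← mul_sub]
    refine spm (LinearMap.mulLeft ℂ (E x)) ih ?_
    rintro _ ⟨u, hu, rfl⟩
    exact Submodule.subset_span ⟨x :: u, by simpa using hu, by simp⟩
  | swap x y l =>
    simp only [List.map_cons, List.prod_cons, ← mul_assoc, ← sub_mul]
    refine spm (LinearMap.mulRight ℂ (l.map E).prod) (h y x) ?_
    rintro _ ⟨i, rfl⟩
    exact Submodule.subset_span ⟨i :: l, by simp, by simp⟩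
  | trans p _ ih ih' =>
    rw [← p.length_eq] at ih'
    simpa using Submodule.add_mem _ ih ih'

theorem main {m : ℕ} (E : Fin m → Module.End ℂ V) (h : ∀ j, Diag (E j))
    (hc : ∀ i j, E i * E j - E j * E i ∈ Submodule.span ℂ (Set.range E)) (v : V) :
    ∃ W : Submodule ℂ V, W.FG ∧ v ∈ W ∧ ∀ j, ∀ u ∈ W, E j u ∈ W := by
  obtain ⟨W, hW, hl⟩ := sorted E h v m
  have all : ∀ (n : ℕ) (l : List (Fin m)), l.length = n → (l.map E).prod v ∈ W := by
    intro n
    induction n using Nat.strong_induction_on with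
    | _ n ih =>
    intro l e
    have a := (Submodule.span_le (p := W.comap (LinearMap.applyₗ v))).2
      (by rintro _ ⟨u, hu, rfl⟩; exact ih _ (e ▸ hu) u rfl)
      (perm E hc (List.perm_insertionSort (· ≥ ·) l).symm)
    have b := hl _ (List.pairwise_insertionSort (· ≥ ·) l) fun j _ => j.2
    simpa using W.add_mem a b
  refine ⟨Submodule.span ℂ (Set.range fun l : List (Fin m) => (l.map E).prod v), ?_,
    Submodule.subset_span ⟨[], rfl⟩, fun j u hu => ?_⟩
  · have := Module.Finite.iff_fg.2 hW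
    exact Module.Finite.iff_fg.1 (Submodule.finiteDimensional_of_le (S₂ := W)
      (Submodule.span_le.2 (by rintro _ ⟨l, rfl⟩; exact all _ l rfl)))
  · refine spm (E j) hu ?_
    rintro _ ⟨l, rfl⟩
    exact Submodule.subset_span ⟨j :: l, by simp⟩

end PbwAux

theorem p_PBW (hVF : S_VF) (hDIAG : S_DIAG) :
    S_PBW := by
  classical
  intro σ _ N g α _ π hW hn hg hs hd
  obtain ⟨m, ⟨e⟩⟩ := Finite.exists_equiv_fin α
  obtain ⟨f1, -, -, -, f5, -⟩ := hVF σ N
  let L : Matrix σ σ ℂ →ₗ[ℂ] Module.End ℂ N.V :=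
    { toFun := N.vf, map_add' := fun a b => (f1 a b 0).1, map_smul' := fun c a => (f1 a 0 c).2 }
  have sp : ∀ ξ ∈ g, N.vf ξ ∈ Submodule.span ℂ (Set.range fun j => N.vf (π (e.symm j))) := by
    intro ξ hξ
    rw [← hs] at hξ
    refine PbwAux.spm L hξ ?_
    rintro _ ⟨a, rfl⟩
    exact Submodule.subset_span ⟨e a, by simp [L]⟩
  have pm : ∀ a, π a ∈ g := fun a => hs ▸ Submodule.subset_span ⟨a, rfl⟩
  obtain ⟨v, hv⟩ := exists_ne (0 : N.V)
  obtain ⟨W, a, b, c⟩ := PbwAux.main (fun j => N.vf (π (e.symm j))) (fun j => hd _)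
    (fun i j => by rw [(f5 hW).2.2]; exact sp _ (hg _ (pm _) _ (pm _))) v
  refine ⟨W, fun h => hv (by simpa [h] using b), Module.Finite.iff_fg.2 a, fun ξ hξ u hu => ?_⟩
  refine (Submodule.span_le (p := W.comap (LinearMap.applyₗ u))).2 ?_ (sp ξ hξ)
  rintro _ ⟨j, rfl⟩
  exact c j u hu

end Pool.Agent.P.MP_52ab5a_al
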