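import Pool.Agent.P.MP_52ab5a_al.F.Iface

/-! Step RDBL of the open orbit project. -/

namespace Pool.Agent.P.MP_52ab5a_al

open MvPolynomial WM

namespace RdblAux

variable {Q₀ Q₁ β : Type}

/-- The two embeddings. -/
def em (i : Bool) (b : β) : β ⊕ₗ β := toLex (cond i (Sum.inl b) (Sum.inr b))

/-- The blocks of a matrix. -/
def blk (i j : Bool) : Matrix (β ⊕ₗ β) (β ⊕ₗ β) ℂ →+ Matrix β β ℂ where
  toFun A := A.submatrix (em i) (em j)
  map_zero' := rfl
  map_add' _ _ := rfl

/-- The doubled matrix. -/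
def two (D : Matrix β β ℂ) : Matrix (β ⊕ₗ β) (β ⊕ₗ β) ℂ :=
  (Matrix.fromBlocks D 0 0 D).submatrix ofLex ofLex

theorem blk_apply (i j : Bool) (A : Matrix (β ⊕ₗ β) (β ⊕ₗ β) ℂ) (c b : β) :
    blk i j A c b = A (em i c) (em j b) := rfl

theorem em_surj (x : β ⊕ₗ β) : ∃ i b, x = em i b := by
  rcases x with b | b
  exacts [⟨true, b, rfl⟩, ⟨false, b, rfl⟩]

theorem vx_em (vx : β → Q₀) (i : Bool) (b : β) : vx2 vx (em i b) = vx b := by cases i <;> rfl

theorem blk_ext {A B : Matrix (β ⊕ₗ β) (β ⊕ₗ β) ℂ} (h : ∀ i j, blk i j A = blk i j B) : A = B := by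
  ext x y
  obtain ⟨i, c, rfl⟩ := em_surj x
  obtain ⟨j, b, rfl⟩ := em_surj y
  exact congrFun (congrFun (h i j) c) b

theorem blk_two (i j : Bool) (D : Matrix β β ℂ) : blk i j (two D) = if i = j then D else 0 := by
  cases i <;> cases j <;> rfl

variable [Fintype β]

theorem sum_em (f : β ⊕ₗ β → ℂ) : ∑ x, f x = ∑ b, f (em true b) + ∑ b, f (em false b) :=
  (Equiv.sum_comp toLex f).symm.trans (Fintype.sum_sum_type _)

theorem blk_mul (i j : Bool) (A B : Matrix (β ⊕ₗ β) (β ⊕ₗ β) ℂ) :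
    blk i j (A * B) = blk i true A * blk true j B + blk i false A * blk false j B := by
  ext c b
  rw [blk_apply, Matrix.mul_apply, sum_em]
  rfl

theorem blk_right (i j : Bool) (A : Matrix (β ⊕ₗ β) (β ⊕ₗ β) ℂ) (D : Matrix β β ℂ) :
    blk i j (A * two D) = blk i j A * D := by
  rw [blk_mul, blk_two, blk_two]
  cases j <;> simp

theorem blk_left (i j : Bool) (A : Matrix (β ⊕ₗ β) (β ⊕ₗ β) ℂ) (D : Matrix β β ℂ) :
    blk i j (two D * A) = D * blk i j A := by
  rw [blk_mul, blk_two, blk_two]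
  cases i <;> simp

omit [Fintype β] in
theorem mat_two [DecidableEq Q₀] (s t : Q₁ → Q₀) (vx : β → Q₀) (x : Ent s t vx → ℂ)
    (x₂ : Ent s t (vx2 vx) → ℂ)
    (h : ∀ p, x₂ (entEquiv s t vx p) = Sum.elim (fun _ => 0) (Sum.elim x x) p) (a : Q₁) :
    mat s t (vx2 vx) x₂ a = two (mat s t vx x a) := by
  ext c b
  by_cases e : vx2 vx c = t a ∧ vx2 vx b = s a
  · rw [mat, Matrix.of_apply, dif_pos e]
    rcases c with c | c <;> rcases b with b | b
    · exact (h (Sum.inr (Sum.inl ⟨(a, c, b), e⟩))).trans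
        (show mat s t vx x a c b = x ⟨(a, c, b), e⟩ from dif_pos e).symm
    · exact h (Sum.inl (Sum.inl ⟨(a, c, b), e⟩))
    · exact h (Sum.inl (Sum.inr ⟨(a, c, b), e⟩))
    · exact (h (Sum.inr (Sum.inr ⟨(a, c, b), e⟩))).trans
        (show mat s t vx x a c b = x ⟨(a, c, b), e⟩ from dif_pos e).symm
  · rw [mat, Matrix.of_apply, dif_neg e]
    rcases c with c | c <;> rcases b with b | b
    · exact (show mat s t vx x a c b = 0 from dif_neg e).symm
    · rfl
    · rfl
    · exact (show mat s t vx x a c b = 0 from dif_neg e).symm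

omit [Fintype β] in
theorem two_T (D : Matrix β β ℂ) : (two D).transpose = two D.transpose := by
  ext c b
  rcases c with c | c <;> rcases b with b | b <;> rfl

end RdblAux

open RdblAux in
theorem p_RDBL (hADM : S_ADM) :
    S_RDBL := by
  classical
  intro Q₀ Q₁ β _ _ _ _ s t vx y y₂ h
  have e : ∀ a, dbl s t (vx2 vx) y₂ a = two (dbl s t vx y a) := by
    rintro (a | a)
    · exact mat_two s t vx _ _ (fun p => by
        rcases p with p | p | p <;> exact congrFun h (Sum.inl _)) a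
    · exact (congrArg Matrix.transpose (mat_two s t vx _ _ (fun p => by
        rcases p with p | p | p <;> exact congrFun h (Sum.inr _)) a)).trans (two_T _)
  refine ⟨e, fun hy => ⟨blk_ext fun i j => ?_, fun v hv => ?_⟩⟩
  · simp only [map_sum, map_sub, e, blk_right, blk_two, map_zero]
    split_ifs
    · exact hy.1
    · simp
  have k : ∀ i j, ∃ ξ, Gd vx ξ ∧ ∀ a,
      blk i j (dbl s t (vx2 vx) v a) = ξ * dbl s t vx y a - dbl s t vx y a * ξ := fun i j => by
    obtain ⟨u, hu⟩ := (hADM Q₀ Q₁ β s t vx).2.2.2.2.1 (fun a => blk i j (dbl s t (vx2 vx) v a))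
      fun a c b hn => by
        have := (hADM Q₀ Q₁ _ s t (vx2 vx)).2.2.2.2.2.1 v a _ _ hn
        rwa [vx_em, vx_em] at this
    have := congrArg (blk i j) hv
    simp only [map_sum, map_sub, map_add, e, blk_right, blk_left, map_zero, ← hu] at this
    simpa only [Tang, hu] using hy.2 u this
  choose ξ h1 h2 using k
  let ξ₂ : Matrix (β ⊕ₗ β) (β ⊕ₗ β) ℂ := (Matrix.fromBlocks (ξ true true) (ξ true false)
    (ξ false true) (ξ false false)).submatrix ofLex ofLex
  have b : ∀ i j, blk i j ξ₂ = ξ i j := fun i j => by cases i <;> cases j <;> rfl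
  refine ⟨ξ₂, fun c d hn => ?_, fun a => blk_ext fun i j => ?_⟩
  · obtain ⟨i, c, rfl⟩ := em_surj c
    obtain ⟨j, d, rfl⟩ := em_surj d
    rw [vx_em, vx_em] at hn
    exact (congrFun (congrFun (b i j) c) d).trans (h1 i j c d hn)
  · rw [map_sub, e, blk_right, blk_left, b, h2]

end Pool.Agent.P.MP_52ab5a_al
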