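import Pool.Agent.P.MP_52ab5a_al.F.Iface
import Pool.Agent.P.MP_52ab5a_al.A.Iface
import Pool.Agent.P.MP_52ab5a_al.K.Iface

/-! Step REW of the open orbit project. -/

namespace Pool.Agent.P.MP_52ab5a_al

open MvPolynomial WM

namespace RewAux

variable {Q₀ Q₁ β κ κ' : Type} [LinearOrder β] [LinearOrder κ] [LinearOrder κ']

omit [LinearOrder β] in
theorem step_sub (e : κ' ≃o κ) (g : Matrix β κ ℂ) (k : κ') :
    step (g.submatrix id e) k = step g (e k) := by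
  unfold step
  congr 1
  ext v
  constructor
  · rintro ⟨j, hj, rfl⟩
    exact ⟨e j, e.monotone hj, rfl⟩
  · rintro ⟨j, hj, rfl⟩
    refine ⟨e.symm j, ?_, ?_⟩
    · have := e.symm.monotone hj
      rwa [e.symm_apply_apply] at this
    · funext b
      simp

omit [LinearOrder β] in
theorem fixes_sub [Fintype β] (e : κ' ≃o κ) (A : Matrix β β ℂ) (g : Matrix β κ ℂ)
    (h : Fixes A g) : Fixes A (g.submatrix id e) := by
  intro k v hv
  rw [step_sub] at hv ⊢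
  exact h _ v hv

theorem cell_sub (e : κ' ≃o κ) (vx : β → Q₀) (i : κ → Q₀) (w : κ ≃ β) (g : Matrix β κ ℂ)
    (h : Cell vx i w g) : Cell vx (i ∘ e) (e.toEquiv.trans w) (g.submatrix id e) := by
  intro k
  obtain ⟨h1, h2, h3⟩ := h (e k)
  refine ⟨h1, h2, fun b hb => h3 b ?_⟩
  rcases hb with hb | hb | ⟨j, hj, hb⟩
  · exact Or.inl hb
  · exact Or.inr (Or.inl hb)
  · exact Or.inr (Or.inr ⟨e j, e.strictMono hj, hb⟩)

/-- Renaming of the columns. -/
def ren {E : Type} (e : κ' → κ) (z : (β ×ₗ κ) ⊕ E → ℂ) : (β ×ₗ κ') ⊕ E → ℂ :=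
  Sum.elim (fun p => z (Sum.inl (toLex ((ofLex p).1, e (ofLex p).2)))) (z ∘ Sum.inr)

omit [LinearOrder β] in
theorem ren_ren {E : Type} (e : κ' ≃o κ) (z : (β ×ₗ κ) ⊕ E → ℂ) : ren e.symm (ren e z) = z := by
  funext p
  rcases p with p | p
  · simp [ren]
  · rfl

theorem maps [DecidableEq Q₀] [Fintype Q₁] [Fintype β] [Fintype κ] [Fintype κ'] (s t : Q₁ → Q₀)
    (vx : β → Q₀) (e : κ' ≃o κ) (i : κ → Q₀) :
    Set.MapsTo (ren e) (flagBundle s t vx i) (flagBundle s t vx (i ∘ e)) := by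
  rintro z ⟨⟨w, hw⟩, hz⟩
  have h1 : cols (ren e z ∘ Sum.inl) = (cols (z ∘ Sum.inl)).submatrix id e := by
    ext b k
    rfl
  have h2 : ren e z ∘ Sum.inr = z ∘ Sum.inr := by
    funext p
    rfl
  show Echelon vx (i ∘ e) (cols (ren e z ∘ Sum.inl)) ∧
    ∀ a, Fixes (mat s t vx (ren e z ∘ Sum.inr) a) (cols (ren e z ∘ Sum.inl))
  rw [h1, h2]
  exact ⟨⟨e.toEquiv.trans w, cell_sub e vx i w (cols (z ∘ Sum.inl)) hw⟩,
    fun a => fixes_sub e (mat s t vx (z ∘ Sum.inr) a) (cols (z ∘ Sum.inl)) (hz a)⟩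

theorem bij [DecidableEq Q₀] [Fintype Q₁] [Fintype β] [Fintype κ] [Fintype κ'] (s t : Q₁ → Q₀)
    (vx : β → Q₀) (e : κ' ≃o κ) (i : κ → Q₀) :
    Set.BijOn (ren e.symm) (flagBundle s t vx (i ∘ e)) (flagBundle s t vx i) := by
  have h1 := maps s t vx e.symm (i ∘ e)
  have h2 : (i ∘ e) ∘ e.symm = i := by
    funext k
    simp
  rw [h2] at h1
  refine Set.InvOn.bijOn (f' := ren e) ⟨fun z _ => ?_, fun z _ => ren_ren e z⟩ h1 (maps s t vx e i)
  exact ren_ren e.symm z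

end RewAux

open RewAux in
theorem p_REW (hPUSH : S_PUSH) (hCLS : S_CLS) (hTRANS : S_TRANS) (hGINV : S_GINV) :
    S_REW := by
  intro Q₀ Q₁ β κ _ _ _ _ _ _ s t vx n φ hφ hn
  classical
  have hempty : ∀ i : κ → Q₀, flagBundle s t vx i = ∅ → intg φ (flagBundle s t vx i) = 0 := by
    intro i hi
    rw [hi]
    exact (hCLS _).2.1 _ ((hPUSH _ _ Sum.inr Sum.inr_injective).1 φ hφ)
  refine ⟨fun i => ?_, ?_⟩
  · unfold extW
    split_ifs with h
    · refine ((hTRANS (β ×ₗ κ) (β ×ₗ Fin n) (Ent s t vx) (flagBundle s t vx i)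
        (flagBundle s t vx (i ∘ Fintype.orderIsoFinOfCardEq κ h))).2
        (fun z p => z (Sum.inl (toLex ((ofLex p).1,
          (Fintype.orderIsoFinOfCardEq κ h).symm (ofLex p).2))))
        (fun j => PolyFn.coord _) (hGINV Q₀ Q₁ β (Fin n) s t vx _).1
        (bij s t vx (Fintype.orderIsoFinOfCardEq κ h) i)).2 φ hφ
    · refine hempty i (Set.eq_empty_of_forall_notMem ?_)
      rintro z ⟨⟨w, -⟩, -⟩
      exact h ((Fintype.card_congr w).trans hn)
  · refine (Set.Finite.pi (t := fun _ : κ => Set.range vx) fun _ => Set.finite_range vx).subset ?_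
    intro i hi k _
    by_contra hk
    refine hi (hempty i (Set.eq_empty_of_forall_notMem ?_))
    rintro z ⟨⟨w, hw⟩, -⟩
    exact hk ⟨w k, (hw k).1⟩

end Pool.Agent.P.MP_52ab5a_al
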