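import Pool.Agent.P.MP_52ab5a_al.F.Iface
import Pool.Agent.P.MP_52ab5a_al.B.Iface

/-! Step RIGQ of the open orbit project. -/

namespace Pool.Agent.P.MP_52ab5a_al

open MvPolynomial WM

namespace RigqAux

variable {Q₀ β : Type} [Fintype β]

theorem mul_sup (A B : Matrix β β ℂ) (c b : β) (h : (A * B) c b ≠ 0) :
    ∃ e, A c e ≠ 0 ∧ B e b ≠ 0 := by
  by_contra hn
  push Not at hn
  apply h
  rw [Matrix.mul_apply]
  refine Finset.sum_eq_zero fun e _ => ?_
  by_cases h1 : A c e = 0
  · simp [h1]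
  · simp [hn e h1]

theorem gd_mul {vx : β → Q₀} {A B : Matrix β β ℂ} (hA : Gd vx A) (hB : Gd vx B) :
    Gd vx (A * B) := by
  intro c b hcb
  by_contra h
  obtain ⟨e, h1, h2⟩ := mul_sup A B c b h
  have e1 : vx c = vx e := by by_contra hh; exact h1 (hA c e hh)
  have e2 : vx e = vx b := by by_contra hh; exact h2 (hB e b hh)
  exact hcb (e1.trans e2)

theorem conj_sup {vx : β → Q₀} {A B M : Matrix β β ℂ} (hA : Gd vx A) (hB : Gd vx B) {u u' : Q₀}
    (hM : ∀ c b, M c b ≠ 0 → vx c = u ∧ vx b = u') (c b : β) (h : (A * M * B) c b ≠ 0) :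
    vx c = u ∧ vx b = u' := by
  obtain ⟨e, h1, h2⟩ := mul_sup _ _ c b h
  obtain ⟨f, h3, h4⟩ := mul_sup _ _ c e h1
  have e1 : vx c = vx f := by by_contra hh; exact h3 (hA c f hh)
  have e2 : vx e = vx b := by by_contra hh; exact h2 (hB e b hh)
  exact ⟨e1.trans (hM f e h4).1, e2.symm.trans (hM f e h4).2⟩

theorem gd_pair {vx : β → Q₀} {A B : Matrix β β ℂ} {u u' : Q₀}
    (hA : ∀ c b, A c b ≠ 0 → vx c = u ∧ vx b = u') (hB : ∀ c b, B c b ≠ 0 → vx c = u' ∧ vx b = u) :
    Gd vx (A * B) := by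
  intro c b hcb
  by_contra h
  obtain ⟨e, h1, h2⟩ := mul_sup A B c b h
  exact hcb ((hA c e h1).1.trans (hB e b h2).2.symm)

theorem prod_conj [DecidableEq β] {α : Type} {γ δ : Matrix β β ℂ} (h1 : γ * δ = 1) (h2 : δ * γ = 1)
    (Y Z : α → Matrix β β ℂ) (h : ∀ a, Z a = γ * Y a * δ) (l : List α) :
    (l.map Z).prod = γ * (l.map Y).prod * δ := by
  induction l with
  | nil => simp [h1]
  | cons a l ih =>
    simp only [List.map_cons, List.prod_cons, ih, h a]
    calc γ * Y a * δ * (γ * (l.map Y).prod * δ)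
        = γ * Y a * (δ * γ) * (l.map Y).prod * δ := by simp only [Matrix.mul_assoc]
      _ = _ := by rw [h2]; simp only [Matrix.mul_assoc, Matrix.one_mul]

theorem cmul [DecidableEq β] {γ δ : Matrix β β ℂ} (h2 : δ * γ = 1) (A B : Matrix β β ℂ) :
    γ * A * δ * (γ * B * δ) = γ * (A * B) * δ := by
  calc γ * A * δ * (γ * B * δ) = γ * A * (δ * γ) * B * δ := by simp only [Matrix.mul_assoc]
    _ = _ := by rw [h2]; simp only [Matrix.mul_assoc, Matrix.one_mul]

end RigqAux

open RigqAux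

theorem p_RIGQ (hADM : S_ADM) (hVF : S_VF) :
    S_RIGQ := by
  classical
  intro Q₀ Q₁ β _ _ _ _ s t vx y
  obtain ⟨a1, -, a3, -, a5, a6, -, -, -, a10, -, -, -, -, -, -, -, a18, a19, -⟩ :=
    hADM Q₀ Q₁ β s t vx
  have hom : ∀ (h v : Ent s t vx ⊕ Ent s t vx → ℂ), om h v =
      ∑ a, ((dbl s t vx v (Sum.inr a) * dbl s t vx h (Sum.inl a)).trace -
        (dbl s t vx h (Sum.inr a) * dbl s t vx v (Sum.inl a)).trace) := by
    intro h v
    rw [Finset.sum_sub_distrib]
    simp only [dbl, Sum.elim_inl, Sum.elim_inr]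
    rw [om, Finset.sum_sub_distrib]
    rw [← a18, ← a18]
    congr 1
    exact Finset.sum_congr rfl fun p _ => mul_comm _ _
  refine ⟨fun hR => ⟨?_, ?_⟩, ?_⟩
  · intro A hA
    obtain ⟨ξ, hξ, rfl⟩ := (a1 A).1 hA
    have e0 : eval y (mu (adm s t vx ξ)) =
        ∑ p, (y ∘ Sum.inr) p * ((adm s t vx ξ).mulVec (y ∘ Sum.inl)) p := by
      simp only [mu, map_sum, smul_eval, map_mul, eval_X, Matrix.mulVec, dotProduct,
        Function.comp, Finset.mul_sum]
      refine Finset.sum_congr rfl fun p _ => Finset.sum_congr rfl fun q _ => by ring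
    rw [e0, a18]
    have hz : (ξ * ∑ a, (dbl s t vx y (Sum.inr a) * dbl s t vx y (Sum.inl a) -
        dbl s t vx y (Sum.inl a) * dbl s t vx y (Sum.inr a))).trace = 0 := by
      rw [show (∑ a, (dbl s t vx y (Sum.inr a) * dbl s t vx y (Sum.inl a) -
        dbl s t vx y (Sum.inl a) * dbl s t vx y (Sum.inr a))) = 0 from hR.1]
      simp
    rw [Finset.mul_sum, Matrix.trace_sum] at hz
    rw [← neg_eq_zero, ← Finset.sum_neg_distrib, ← hz]
    refine Finset.sum_congr rfl fun a _ => ?_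
    rw [a10 ξ _ a hξ]
    simp only [dbl, Sum.elim_inl, Sum.elim_inr]
    generalize mat s t vx (y ∘ Sum.inl) a = Y
    generalize (mat s t vx (y ∘ Sum.inr) a).transpose = W
    simp only [Matrix.mul_sub, Matrix.trace_sub]
    have t1 : (W * (ξ * Y)).trace = (ξ * (Y * W)).trace := by
      rw [Matrix.trace_mul_comm, Matrix.mul_assoc]
    have t2 : (W * (Y * ξ)).trace = (ξ * (W * Y)).trace := by
      rw [← Matrix.mul_assoc, Matrix.trace_mul_comm]
    rw [t1, t2]; ring
  · intro v hv0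
    have hD : DMu s t vx y v := by
      unfold DMu
      set D := ∑ a, (dbl s t vx v (Sum.inr a) * dbl s t vx y (Sum.inl a) +
        dbl s t vx y (Sum.inr a) * dbl s t vx v (Sum.inl a) -
        dbl s t vx v (Sum.inl a) * dbl s t vx y (Sum.inr a) -
        dbl s t vx y (Sum.inl a) * dbl s t vx v (Sum.inr a)) with hDdef
      have key : ∀ ξ, Gd vx ξ → (ξ * D).trace = 0 := by
        intro ξ hξ
        have h0 := hv0 _ ((a1 _).2 ⟨ξ, hξ, rfl⟩)
        rw [hom] at h0
        rw [hDdef, Finset.mul_sum, Matrix.trace_sum, ← neg_eq_zero, ← Finset.sum_neg_distrib, ← h0]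
        refine Finset.sum_congr rfl fun a _ => ?_
        rw [a19 ξ y _ hξ, a19 ξ y _ hξ]
        generalize dbl s t vx y (Sum.inl a) = Y
        generalize dbl s t vx y (Sum.inr a) = W
        generalize dbl s t vx v (Sum.inl a) = V
        generalize dbl s t vx v (Sum.inr a) = U
        simp only [Matrix.mul_sub, Matrix.sub_mul, Matrix.mul_add, Matrix.trace_sub,
          Matrix.trace_add]
        have t1 : (U * (ξ * Y)).trace = (ξ * (Y * U)).trace := by
          rw [Matrix.trace_mul_comm, Matrix.mul_assoc]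
        have t2 : (U * (Y * ξ)).trace = (ξ * (U * Y)).trace := by
          rw [← Matrix.mul_assoc, Matrix.trace_mul_comm]
        have t3 : (ξ * W * V).trace = (ξ * (W * V)).trace := by rw [Matrix.mul_assoc]
        have t4 : (W * ξ * V).trace = (ξ * (V * W)).trace := by
          rw [Matrix.mul_assoc, Matrix.trace_mul_comm, Matrix.mul_assoc]
        rw [t1, t2, t3, t4]; ring
      have hG : Gd vx D := by
        intro c b hcb
        rw [hDdef, Matrix.sum_apply]
        refine Finset.sum_eq_zero fun a _ => ?_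
        have g1 := gd_pair (a6 v (Sum.inr a)) (a6 y (Sum.inl a)) c b hcb
        have g2 := gd_pair (a6 y (Sum.inr a)) (a6 v (Sum.inl a)) c b hcb
        have g3 := gd_pair (a6 v (Sum.inl a)) (a6 y (Sum.inr a)) c b hcb
        have g4 := gd_pair (a6 y (Sum.inl a)) (a6 v (Sum.inr a)) c b hcb
        simp only [Matrix.sub_apply, Matrix.add_apply, g1, g2, g3, g4]
        simp
      ext c b
      by_cases hcb : vx c = vx b
      · have hξ : Gd vx (Matrix.single b c (1 : ℂ)) := by
          intro c' b' h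
          rw [Matrix.single_apply]
          split_ifs with hh
          · exact absurd (by rw [← hh.1, ← hh.2, hcb]) h
          · rfl
        have := key _ hξ
        rw [Matrix.trace_single_mul] at this
        simpa using this
      · exact hG c b hcb
    obtain ⟨ξ, hξ, hh⟩ := hR.2 v hD
    refine ⟨_, (a1 _).2 ⟨ξ, hξ, rfl⟩, a3 _ _ fun a => ?_⟩
    rw [a19 ξ y a hξ, hh a]
  · intro γ δ z hG hI
    have hZ : ∀ a, dbl s t vx z a = γ * dbl s t vx y a * δ := by
      intro a
      rw [hI a, Matrix.mul_assoc, hG.mul, Matrix.mul_one]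
    have hY : ∀ a, dbl s t vx y a = δ * dbl s t vx z a * γ := by
      intro a
      rw [Matrix.mul_assoc, ← hI a, ← Matrix.mul_assoc, hG.mul', Matrix.one_mul]
    have hmu : MuZero s t vx y → MuZero s t vx z := by
      intro h
      unfold MuZero at h ⊢
      simp only [hZ, cmul hG.mul']
      simp only [← Matrix.sub_mul, ← Matrix.mul_sub]
      rw [← Finset.sum_mul, ← Finset.mul_sum, h]
      simp
    refine ⟨fun hR => ⟨hmu hR.1, fun v hv0 => ?_⟩, fun hN => ⟨hmu hN.1, ?_⟩, ?_⟩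
    · obtain ⟨v', hv'⟩ := a5 (fun a => δ * dbl s t vx v a * γ)
        (fun a c b h => conj_sup hG.gd' hG.gd (a6 v a) c b h)
      have hD : DMu s t vx y v' := by
        unfold DMu at hv0 ⊢
        simp only [hv', hY, cmul hG.mul]
        simp only [← Matrix.sub_mul, ← Matrix.mul_sub, ← Matrix.add_mul, ← Matrix.mul_add]
        rw [← Finset.sum_mul, ← Finset.mul_sum, hv0]
        simp
      obtain ⟨ξ, hξ, hh⟩ := hR.2 v' hD
      refine ⟨γ * ξ * δ, gd_mul (gd_mul hG.gd hξ) hG.gd', fun a => ?_⟩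
      have e := hh a
      rw [hv' a] at e
      rw [hZ a, cmul hG.mul', cmul hG.mul', ← Matrix.sub_mul, ← Matrix.mul_sub, ← e]
      calc dbl s t vx v a = (γ * δ) * dbl s t vx v a * (γ * δ) := by rw [hG.mul]; simp
        _ = _ := by simp only [Matrix.mul_assoc]
    · obtain ⟨m, hm⟩ := hN.2
      refine ⟨m, fun l hl => ?_⟩
      rw [prod_conj hG.mul hG.mul' _ _ hZ l, hm l hl]
      simp
    · have uγ : IsUnit γ := ⟨⟨γ, δ, hG.mul, hG.mul'⟩, rfl⟩
      have uδ : IsUnit δ := ⟨⟨δ, γ, hG.mul', hG.mul⟩, rfl⟩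
      ext w
      constructor
      · rintro ⟨g, hu, hg, hw⟩
        refine ⟨g * δ, hu.mul uδ, gd_mul hg hG.gd', fun a => ?_⟩
        rw [hZ a, ← Matrix.mul_assoc (dbl s t vx w a), ← hw a]
        calc g * δ * (γ * dbl s t vx y a * δ) = g * (δ * γ) * dbl s t vx y a * δ := by
              simp only [Matrix.mul_assoc]
          _ = _ := by rw [hG.mul']; simp
      · rintro ⟨g, hu, hg, hw⟩
        refine ⟨g * γ, hu.mul uγ, gd_mul hg hG.gd, fun a => ?_⟩
        rw [Matrix.mul_assoc, hI a, ← Matrix.mul_assoc, hw a, Matrix.mul_assoc]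

end Pool.Agent.P.MP_52ab5a_al
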