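import Pool.Agent.P.MP_52ab5a_al.F.Iface

/-! Step RTR of the open orbit project. -/

namespace Pool.Agent.P.MP_52ab5a_al

open MvPolynomial WM

namespace RtrAux

variable {σ ι : Type} [Fintype σ] [Fintype ι]

theorem evm (B : Matrix σ σ ℂ) (Y : σ ⊕ σ → ℂ) :
    eval Y (mu B) = ∑ s, ∑ t, B s t * (Y (Sum.inl t) * Y (Sum.inr s)) := by
  simp [mu]

theorem evm_sub (e : ι ≃ σ) (B : Matrix σ σ ℂ) (Y : σ ⊕ σ → ℂ) :
    eval (Y ∘ Sum.map e e) (mu (B.submatrix e e)) = eval Y (mu B) := by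
  rw [evm, evm, ← e.sum_comp]
  exact Finset.sum_congr rfl fun s _ =>
    e.sum_comp fun t => B (e s) t * (Y (Sum.inl t) * Y (Sum.inr (e s)))

theorem hv_sub (e : ι ≃ σ) (B : Matrix σ σ ℂ) (Y : σ ⊕ σ → ℂ) :
    hv (B.submatrix e e) (Y ∘ Sum.map e e) = hv B Y ∘ Sum.map e e := by
  funext i
  rcases i with i | i
  · exact e.sum_comp fun t => B (e i) t * Y (Sum.inl t)
  · exact congrArg Neg.neg (e.sum_comp fun t => B t (e i) * Y (Sum.inr t))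

theorem om_sub (e : ι ≃ σ) (v w : σ ⊕ σ → ℂ) :
    om (v ∘ Sum.map e e) (w ∘ Sum.map e e) = om v w :=
  e.sum_comp fun s => v (Sum.inl s) * w (Sum.inr s) - v (Sum.inr s) * w (Sum.inl s)

/-- A pair of points of the cotangent space. -/
def pr (v w : σ ⊕ σ → ℂ) : (σ ⊕ σ) ⊕ σ ⊕ σ → ℂ :=
  Sum.elim (Sum.elim (v ∘ Sum.inl) (w ∘ Sum.inl)) (Sum.elim (v ∘ Sum.inr) (w ∘ Sum.inr))

theorem evm_blk (B C : Matrix σ σ ℂ) (Y : σ ⊕ σ → ℂ) :
    eval (pr Y Y) (mu (Matrix.fromBlocks B 0 0 C)) = eval Y (mu B) + eval Y (mu C) := by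
  simp [evm, pr, Fintype.sum_sum_type]

theorem hv_blk (B C : Matrix σ σ ℂ) (Y : σ ⊕ σ → ℂ) :
    hv (Matrix.fromBlocks B 0 0 C) (pr Y Y) = pr (hv B Y) (hv C Y) := by
  funext i
  rcases i with (i | i) | (i | i) <;>
    simp [hv, pr, Matrix.mulVec, Matrix.vecMul, dotProduct, Fintype.sum_sum_type]

theorem om_blk (v w v' w' : σ ⊕ σ → ℂ) : om (pr v w) (pr v' w') = om v v' + om w w' :=
  Fintype.sum_sum_type _

theorem om_zero (Y v : σ ⊕ σ → ℂ) : om (hv 0 Y) v = 0 := by simp [om, hv]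

end RtrAux

open RtrAux in
theorem p_RTR :
    S_RTR := by
  intro σ _ g Y
  refine ⟨fun ι _ e => ⟨g.map (Matrix.reindexLinearEquiv ℂ ℂ e.symm e.symm).toLinearMap, ?_⟩,
    ⟨{ carrier := {A | ∃ B ∈ g, ∃ C ∈ g, A = Matrix.fromBlocks B 0 0 C}
       add_mem' := ?_
       zero_mem' := ⟨0, g.zero_mem, 0, g.zero_mem, Matrix.fromBlocks_zero.symm⟩
       smul_mem' := ?_ }, fun _ => Iff.rfl, fun h => ?_, fun h => ⟨?_, fun v hv' => ?_⟩⟩⟩
  · have k : ∀ A, A ∈ g.map (Matrix.reindexLinearEquiv ℂ ℂ e.symm e.symm).toLinearMap ↔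
        ∃ B ∈ g, A = B.submatrix e e := fun A =>
      ⟨fun ⟨B, a, b⟩ => ⟨B, a, b.symm⟩, fun ⟨B, a, b⟩ => ⟨B, a, b.symm⟩⟩
    refine ⟨k, fun h A hA A' hA' => ?_, fun h => ⟨fun A hA => ?_, fun v hv' => ?_⟩⟩
    · obtain ⟨B, a, rfl⟩ := (k A).1 hA
      obtain ⟨C, b, rfl⟩ := (k A').1 hA'
      refine (k _).2 ⟨_, h B a C b, ?_⟩
      rw [Matrix.submatrix_mul_equiv, Matrix.submatrix_mul_equiv]
      rfl
    · obtain ⟨B, a, rfl⟩ := (k A).1 hA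
      rw [evm_sub, h.1 B a]
    · have e1 : v = (v ∘ Sum.map e.symm e.symm) ∘ Sum.map e e := by
        funext i
        rcases i with i | i <;> simp
      obtain ⟨B, a, b⟩ := h.2 (v ∘ Sum.map e.symm e.symm) fun B a => by
        rw [← om_sub e, ← hv_sub, ← e1]
        exact hv' _ ((k _).2 ⟨B, a, rfl⟩)
      exact ⟨_, (k _).2 ⟨B, a, rfl⟩, by rw [hv_sub, ← b, ← e1]⟩
  · rintro _ _ ⟨B, a, C, b, rfl⟩ ⟨B', a', C', b', rfl⟩
    exact ⟨_, g.add_mem a a', _, g.add_mem b b', by rw [Matrix.fromBlocks_add, add_zero]⟩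
  · rintro c _ ⟨B, a, C, b, rfl⟩
    exact ⟨_, g.smul_mem c a, _, g.smul_mem c b, by rw [Matrix.fromBlocks_smul, smul_zero]⟩
  · rintro _ ⟨B, a, C, b, rfl⟩ _ ⟨B', a', C', b', rfl⟩
    refine ⟨_, h B a B' a', _, h C b C' b', ?_⟩
    simp only [Matrix.fromBlocks_multiply, sub_eq_add_neg, Matrix.fromBlocks_neg,
      Matrix.fromBlocks_add, mul_zero, zero_mul, add_zero, zero_add, neg_zero]
  · rintro _ ⟨B, a, C, b, rfl⟩
    exact (evm_blk B C Y).trans (by rw [h.1 B a, h.1 C b, add_zero])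
  · have e1 : v = pr (v ∘ Sum.map Sum.inl Sum.inl) (v ∘ Sum.map Sum.inr Sum.inr) := by
      funext i
      rcases i with (i | i) | (i | i) <;> rfl
    have k : ∀ B ∈ g, ∀ C ∈ g, om (hv B Y) (v ∘ Sum.map Sum.inl Sum.inl) +
        om (hv C Y) (v ∘ Sum.map Sum.inr Sum.inr) = 0 := fun B a C b => by
      rw [← om_blk, ← hv_blk, ← e1]
      exact hv' _ ⟨B, a, C, b, rfl⟩
    obtain ⟨B, a, a'⟩ := h.2 _ fun B a => by simpa only [om_zero, add_zero] using k B a 0 g.zero_mem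
    obtain ⟨C, b, b'⟩ := h.2 _ fun C b => by simpa only [om_zero, zero_add] using k 0 g.zero_mem C b
    exact ⟨_, ⟨B, a, C, b, rfl⟩, e1.trans (by rw [a', b']; exact (hv_blk B C Y).symm)⟩

end Pool.Agent.P.MP_52ab5a_al
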