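import Pool.Agent.P.MP_52ab5a_al.F.Agood

/-! Step SHA of the open orbit project. -/

namespace Pool.Agent.P.MP_52ab5a_al

open MvPolynomial WM

open AgoodAux in
theorem p_SHA (hADM : S_ADM) (hCELL : S_CELL) :
    S_SHA := by
  intro Q₀ Q₁ β κ ν _ _ _ _ _ _ _ s t vx o i c
  let E := (Equiv.sumCongr o (Equiv.refl _)).trans (entEquiv s t vx)
  constructor
  · have h1 : Con {z : (((β ⊕ₗ β) ×ₗ κ) ⊕ ν) ⊕ Ent s t vx ⊕ Ent s t vx → ℂ |
        ∃ w : κ ≃ β ⊕ₗ β, (∀ k, k ∈ c ↔ (ofLex (w k)).isLeft = true) ∧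
          Cell (vx2 vx) i w (cols (z ∘ Sum.inl ∘ Sum.inl)) ∧
          ∀ a, Fixes (mat s t (vx2 vx) (Sum.elim (z ∘ Sum.inl ∘ Sum.inr) (z ∘ Sum.inr) ∘ E.symm) a)
            (cols (z ∘ Sum.inl ∘ Sum.inl))} := by
      refine Con.ex fun w => (Con.const _).and (((hCELL Q₀ _ κ (vx2 vx) i w).2.2.2 _
        (fun z => cols (z ∘ Sum.inl ∘ Sum.inl)) fun b j => PolyFn.coord _).2.2 Q₁ _
        fun a c b => PolyFn.dite _ (fun h => ?_) fun _ => PolyFn.const _).1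
      simp only [Function.comp_apply]
      rcases E.symm ⟨(a, c, b), h⟩ with j | j
      exacts [PolyFn.coord _, PolyFn.coord _]
    convert h1 using 1
    ext z
    exact ⟨fun ⟨⟨w, h, h'⟩, h''⟩ => ⟨w, h, h', h''⟩, fun ⟨w, h, h', h''⟩ => ⟨⟨w, h, h'⟩, h''⟩⟩
  · rintro u hu z ⟨⟨w, h1, h2⟩, h3⟩
    let deg : β ⊕ₗ β → ℤ := fun b => if (ofLex b).isLeft then 1 else 0
    set z' := Sum.elim (fun j => u ^ shufWt o c j * z (Sum.inl j)) (z ∘ Sum.inr) with hz'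
    have e1 : cols (z' ∘ Sum.inl ∘ Sum.inl) = sc u deg (deg ∘ w) (cols (z ∘ Sum.inl ∘ Sum.inl)) := by
      ext b k
      have e : shufWt o c (Sum.inl (toLex (b, k))) = deg b - deg (w k) := by
        by_cases hk : k ∈ c
        · simp [shufWt, deg, hk, (h1 k).1 hk]
        · simp [shufWt, deg, hk, mt (h1 k).2 hk]
      exact congrArg (fun n => u ^ n * z (Sum.inl (Sum.inl (toLex (b, k))))) e
    have e2 : Sum.elim (z' ∘ Sum.inl ∘ Sum.inr) (z' ∘ Sum.inr) ∘ E.symm = fun p =>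
        u ^ wtE s t (vx2 vx) deg p *
          (Sum.elim (z ∘ Sum.inl ∘ Sum.inr) (z ∘ Sum.inr) ∘ E.symm) p := by
      funext p
      obtain ⟨j, rfl⟩ := E.surjective p
      simp only [Function.comp_apply, Equiv.symm_apply_apply]
      rcases j with j | j | j
      · rcases h : o j with q | q <;> simp [hz', E, wtE, entEquiv, h, shufWt, deg]
      · simp [hz', E, wtE, entEquiv, deg]
      · simp [hz', E, wtE, entEquiv, deg]
    refine ⟨⟨w, h1, e1 ▸ cell_sc u deg h2⟩, fun a => ?_⟩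
    have e3 : mat s t (vx2 vx) (Sum.elim (z' ∘ Sum.inl ∘ Sum.inr) (z' ∘ Sum.inr) ∘ E.symm) a = sc u deg deg
        (mat s t (vx2 vx) (Sum.elim (z ∘ Sum.inl ∘ Sum.inr) (z ∘ Sum.inr) ∘ E.symm) a) := by
      rw [e2]
      ext c b
      simp only [mat, sc, Matrix.of_apply]
      split_ifs
      exacts [rfl, (mul_zero _).symm]
    rw [e1, e3]
    exact fix_sc hCELL hu deg h2 (h3 a)

end Pool.Agent.P.MP_52ab5a_al
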