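import Pool.Agent.P.MP_52ab5a_al.F.Iface
import Pool.Agent.P.MP_52ab5a_al.K.Iface

/-! Step SHB of the open orbit project. -/

namespace Pool.Agent.P.MP_52ab5a_al

open MvPolynomial WM

namespace ShbAux

variable {Q₀ β β' κ : Type}

theorem cell_part [LinearOrder β] [LinearOrder β'] [LinearOrder κ] (e : β → β')
    (he : ∀ a b, e a < e b ↔ a < b) (hinj : Function.Injective e) (vx' : β' → Q₀) (vx : β → Q₀)
    (hv : ∀ b, vx' (e b) = vx b) (i : κ → Q₀) (p : κ → Prop) (w : κ ≃ β') (w₁ : Subtype p ≃ β)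
    (hw : ∀ k, w k.1 = e (w₁ k)) (G : Matrix β' κ ℂ) (g : Matrix β (Subtype p) ℂ)
    (hG : ∀ b k, G (e b) k.1 = g b k) (h0 : ∀ b', b' ∉ Set.range e → ∀ k, p k → G b' k = 0) :
    (∀ k, p k → vx' (w k) = i k ∧ G (w k) k = 1 ∧
      ∀ b, (w k < b ∨ vx' b ≠ i k ∨ ∃ j < k, b = w j) → G b k = 0) ↔
      Cell vx (i ∘ Subtype.val) w₁ g := by
  constructor
  · intro h k
    obtain ⟨h1, h2, h3⟩ := h k.1 k.2
    rw [hw, hv] at h1
    rw [hw, hG] at h2
    refine ⟨h1, h2, fun b hb => ?_⟩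
    rw [← hG]
    refine h3 _ ?_
    rcases hb with hb | hb | ⟨j, hj, hb⟩
    · exact Or.inl (by rw [hw, he]; exact hb)
    · exact Or.inr (Or.inl (by rw [hv]; exact hb))
    · exact Or.inr (Or.inr ⟨j.1, hj, by rw [hw, hb]⟩)
  · intro h k hk
    obtain ⟨h1, h2, h3⟩ := h ⟨k, hk⟩
    have e1 : w k = e (w₁ ⟨k, hk⟩) := hw ⟨k, hk⟩
    refine ⟨by rw [e1, hv]; exact h1, by rw [e1]; exact (hG _ ⟨k, hk⟩).trans h2, fun b' hb => ?_⟩
    by_cases hr : b' ∈ Set.range e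
    · obtain ⟨b, rfl⟩ := hr
      refine (hG _ ⟨k, hk⟩).trans (h3 b ?_)
      rcases hb with hb | hb | ⟨j, hj, hb⟩
      · exact Or.inl (by rw [e1, he] at hb; exact hb)
      · exact Or.inr (Or.inl (by rw [hv] at hb; exact hb))
      · refine Or.inr (Or.inr ⟨w₁.symm b, ?_, by simp⟩)
        have : w (w₁.symm b).1 = w j := by rw [hw, ← hb]; simp
        have := w.injective this
        show (w₁.symm b).1 < k
        rw [this]; exact hj
    · exact h0 _ hr k hk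

/-- The block matrix of two flags. -/
def blk [DecidableEq κ] (c : Finset κ) (g₁ : Matrix β {k // k ∈ c} ℂ)
    (g₂ : Matrix β {k // k ∉ c} ℂ) : Matrix (β ⊕ₗ β) κ ℂ :=
  Matrix.of fun b k => Sum.elim (fun b => if h : k ∈ c then g₁ b ⟨k, h⟩ else 0)
    (fun b => if h : k ∈ c then 0 else g₂ b ⟨k, h⟩) (ofLex b)

/-- The block diagonal matrix. -/
def bd (A₁ A₂ : Matrix β β ℂ) : Matrix (β ⊕ₗ β) (β ⊕ₗ β) ℂ :=
  Matrix.of fun p q => Matrix.fromBlocks A₁ 0 0 A₂ (ofLex p) (ofLex q)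

section

variable [DecidableEq κ] (c : Finset κ) (g₁ : Matrix β {k // k ∈ c} ℂ)
  (g₂ : Matrix β {k // k ∉ c} ℂ)

theorem blk_ll (b : β) (k : {k // k ∈ c}) : blk c g₁ g₂ (toLex (Sum.inl b)) k.1 = g₁ b k := by
  simp [blk, k.2]

theorem blk_rr (b : β) (k : {k // k ∉ c}) : blk c g₁ g₂ (toLex (Sum.inr b)) k.1 = g₂ b k := by
  simp [blk, k.2]

theorem blk_lr (b : β) {k : κ} (hk : k ∉ c) : blk c g₁ g₂ (toLex (Sum.inl b)) k = 0 := by
  simp [blk, hk]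

theorem blk_rl (b : β) {k : κ} (hk : k ∈ c) : blk c g₁ g₂ (toLex (Sum.inr b)) k = 0 := by
  simp [blk, hk]

end

theorem lex_cases {p : β ⊕ₗ β → Prop} (h1 : ∀ b, p (toLex (Sum.inl b)))
    (h2 : ∀ b, p (toLex (Sum.inr b))) (b : β ⊕ₗ β) : p b := by
  rcases b with b | b
  exacts [h1 b, h2 b]

theorem cell_blk [LinearOrder β] [LinearOrder κ] (vx : β → Q₀) (i : κ → Q₀) (c : Finset κ)
    (g₁ : Matrix β {k // k ∈ c} ℂ) (g₂ : Matrix β {k // k ∉ c} ℂ) (w : κ ≃ β ⊕ₗ β)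
    (w₁ : {k // k ∈ c} ≃ β) (w₂ : {k // k ∉ c} ≃ β) (h₁ : ∀ k, w k.1 = toLex (Sum.inl (w₁ k)))
    (h₂ : ∀ k, w k.1 = toLex (Sum.inr (w₂ k))) :
    Cell (vx2 vx) i w (blk c g₁ g₂) ↔
      Cell vx (i ∘ Subtype.val) w₁ g₁ ∧ Cell vx (i ∘ Subtype.val) w₂ g₂ := by
  rw [← cell_part (fun b => toLex (Sum.inl b : β ⊕ β)) (fun _ _ => Sum.Lex.inl_lt_inl_iff)
      (toLex.injective.comp Sum.inl_injective) (vx2 vx) vx (fun _ => rfl) i _ w w₁ h₁
      (blk c g₁ g₂) g₁ (blk_ll c g₁ g₂)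
      (lex_cases (fun b hb => absurd ⟨b, rfl⟩ hb) fun b _ k hk => blk_rl c g₁ g₂ b hk),
    ← cell_part (fun b => toLex (Sum.inr b : β ⊕ β)) (fun _ _ => Sum.Lex.inr_lt_inr_iff)
      (toLex.injective.comp Sum.inr_injective) (vx2 vx) vx (fun _ => rfl) i _ w w₂ h₂
      (blk c g₁ g₂) g₂ (blk_rr c g₁ g₂)
      (lex_cases (fun b _ k hk => blk_lr c g₁ g₂ b hk) fun b hb => absurd ⟨b, rfl⟩ hb)]
  exact ⟨fun h => ⟨fun k _ => h k, fun k _ => h k⟩,
    fun h k => if hk : k ∈ c then h.1 k hk else h.2 k hk⟩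

theorem exists_part (e : β → β') (hinj : Function.Injective e) (p : κ → Prop) (w : κ ≃ β')
    (h : ∀ k, p k ↔ w k ∈ Set.range e) : ∃ w₁ : Subtype p ≃ β, ∀ k, w k.1 = e (w₁ k) := by
  choose f hf using fun k : Subtype p => (h k.1).1 k.2
  refine ⟨Equiv.ofBijective f ⟨fun k k' hk => Subtype.ext (w.injective ?_), fun b => ?_⟩,
    fun k => (hf k).symm⟩
  · rw [← hf, ← hf, hk]
  · exact ⟨⟨w.symm (e b), (h _).2 ⟨b, by simp⟩⟩, hinj (by rw [hf]; simp)⟩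

theorem ech_blk [LinearOrder β] [LinearOrder κ] (vx : β → Q₀) (i : κ → Q₀) (c : Finset κ)
    (g₁ : Matrix β {k // k ∈ c} ℂ) (g₂ : Matrix β {k // k ∉ c} ℂ) :
    (∃ w : κ ≃ β ⊕ₗ β, (∀ k, k ∈ c ↔ (ofLex (w k)).isLeft = true) ∧
      Cell (vx2 vx) i w (blk c g₁ g₂)) ↔
      Echelon vx (i ∘ Subtype.val) g₁ ∧ Echelon vx (i ∘ Subtype.val) g₂ := by
  constructor
  · rintro ⟨w, hw, h⟩
    obtain ⟨w₁, h₁⟩ := exists_part (fun b => toLex (Sum.inl b : β ⊕ β))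
      (toLex.injective.comp Sum.inl_injective) (· ∈ c) w fun k => by
        rw [hw]
        induction w k using lex_cases <;> simp
    obtain ⟨w₂, h₂⟩ := exists_part (fun b => toLex (Sum.inr b : β ⊕ β))
      (toLex.injective.comp Sum.inr_injective) (· ∉ c) w fun k => by
        rw [hw]
        induction w k using lex_cases <;> simp
    have := (cell_blk vx i c g₁ g₂ w w₁ w₂ h₁ h₂).1 h
    exact ⟨⟨w₁, this.1⟩, w₂, this.2⟩
  · rintro ⟨⟨w₁, h₁⟩, w₂, h₂⟩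
    let w : κ ≃ β ⊕ₗ β := (Equiv.sumCompl (· ∈ c)).symm.trans ((Equiv.sumCongr w₁ w₂).trans toLex)
    have e₁ : ∀ k : {k // k ∈ c}, w k.1 = toLex (Sum.inl (w₁ k)) := fun k => by
      simp [w, Equiv.sumCompl_symm_apply_of_pos (p := (· ∈ c)) k.2]
    have e₂ : ∀ k : {k // k ∉ c}, w k.1 = toLex (Sum.inr (w₂ k)) := fun k => by
      simp [w, Equiv.sumCompl_symm_apply_of_neg (p := (· ∈ c)) k.2]
    refine ⟨w, fun k => ?_, (cell_blk vx i c g₁ g₂ w w₁ w₂ e₁ e₂).2 ⟨h₁, h₂⟩⟩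
    by_cases hk : k ∈ c
    · rw [e₁ ⟨k, hk⟩]; simp [hk]
    · rw [e₂ ⟨k, hk⟩]; simp [hk]

/-- The span of the columns up to `k`. -/
def sp [LinearOrder κ] {p : κ → Prop} (g : Matrix β (Subtype p) ℂ) (k : κ) :
    Submodule ℂ (β → ℂ) := Submodule.span ℂ {v | ∃ j : Subtype p, j.1 ≤ k ∧ v = fun b => g b j}

theorem fixes_iff [Fintype β] [LinearOrder β] [LinearOrder κ] {p : κ → Prop} (A : Matrix β β ℂ)
    (g : Matrix β (Subtype p) ℂ) : Fixes A g ↔ ∀ k, ∀ v ∈ sp g k, A.mulVec v ∈ sp g k := by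
  refine ⟨fun h k => ?_, fun h k => h k.1⟩
  suffices sp g k ≤ (sp g k).comap A.mulVecLin from fun v hv => this hv
  refine Submodule.span_le.2 ?_
  rintro _ ⟨j, hj, rfl⟩
  refine Submodule.span_mono ?_ (h j _ (Submodule.subset_span ⟨j, le_rfl, rfl⟩))
  rintro _ ⟨l, hl, rfl⟩
  exact ⟨l, le_trans hl hj, rfl⟩

/-- The vector with two given halves. -/
def jn (v₁ v₂ : β → ℂ) : β ⊕ₗ β → ℂ := fun b => Sum.elim v₁ v₂ (ofLex b)

theorem jn_add (v₁ v₂ u₁ u₂ : β → ℂ) : jn v₁ v₂ + jn u₁ u₂ = jn (v₁ + u₁) (v₂ + u₂) :=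
  funext (lex_cases (fun _ => rfl) fun _ => rfl)

theorem jn_smul (a : ℂ) (v₁ v₂ : β → ℂ) : a • jn v₁ v₂ = jn (a • v₁) (a • v₂) :=
  funext (lex_cases (fun _ => rfl) fun _ => rfl)

theorem jn_zero : jn (0 : β → ℂ) 0 = 0 := funext (lex_cases (fun _ => rfl) fun _ => rfl)

theorem jn_surj (v : β ⊕ₗ β → ℂ) :
    v = jn (fun b => v (toLex (Sum.inl b))) fun b => v (toLex (Sum.inr b)) :=
  funext (lex_cases (fun _ => rfl) fun _ => rfl)

theorem mem_step [LinearOrder κ] (c : Finset κ) (g₁ : Matrix β {k // k ∈ c} ℂ)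
    (g₂ : Matrix β {k // k ∉ c} ℂ) (k : κ) (v₁ v₂ : β → ℂ) :
    jn v₁ v₂ ∈ step (blk c g₁ g₂) k ↔ v₁ ∈ sp g₁ k ∧ v₂ ∈ sp g₂ k := by
  constructor
  · intro h
    have key : ∀ v ∈ step (blk c g₁ g₂) k, (fun b => v (toLex (Sum.inl b))) ∈ sp g₁ k ∧
        (fun b => v (toLex (Sum.inr b))) ∈ sp g₂ k := by
      intro v hv
      induction hv using Submodule.span_induction with
      | mem v hv =>
        obtain ⟨j, hj, rfl⟩ := hv
        by_cases hc : j ∈ c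
        · refine ⟨Submodule.subset_span ⟨⟨j, hc⟩, hj, funext fun b => blk_ll c g₁ g₂ b ⟨j, hc⟩⟩, ?_⟩
          simp only [blk_rl c g₁ g₂ _ hc]
          exact Submodule.zero_mem _
        · refine ⟨?_, Submodule.subset_span ⟨⟨j, hc⟩, hj, funext fun b => blk_rr c g₁ g₂ b ⟨j, hc⟩⟩⟩
          simp only [blk_lr c g₁ g₂ _ hc]
          exact Submodule.zero_mem _
      | zero => exact ⟨Submodule.zero_mem _, Submodule.zero_mem _⟩
      | add x y _ _ hx hy => exact ⟨Submodule.add_mem _ hx.1 hy.1, Submodule.add_mem _ hx.2 hy.2⟩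
      | smul a x _ hx => exact ⟨Submodule.smul_mem _ a hx.1, Submodule.smul_mem _ a hx.2⟩
    exact key _ h
  · rintro ⟨h₁, h₂⟩
    have k₁ : jn v₁ 0 ∈ step (blk c g₁ g₂) k := by
      induction h₁ using Submodule.span_induction with
      | mem v hv =>
        obtain ⟨j, hj, rfl⟩ := hv
        exact Submodule.subset_span ⟨j.1, hj, funext (lex_cases
          (fun b => (blk_ll c g₁ g₂ b j).symm) fun b => (blk_rl c g₁ g₂ b j.2).symm)⟩
      | zero => rw [jn_zero]; exact Submodule.zero_mem _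
      | add x y _ _ hx hy => simpa [jn_add] using Submodule.add_mem _ hx hy
      | smul a x _ hx => simpa [jn_smul] using Submodule.smul_mem _ a hx
    have k₂ : jn 0 v₂ ∈ step (blk c g₁ g₂) k := by
      induction h₂ using Submodule.span_induction with
      | mem v hv =>
        obtain ⟨j, hj, rfl⟩ := hv
        exact Submodule.subset_span ⟨j.1, hj, funext (lex_cases
          (fun b => (blk_lr c g₁ g₂ b j.2).symm) fun b => (blk_rr c g₁ g₂ b j).symm)⟩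
      | zero => rw [jn_zero]; exact Submodule.zero_mem _
      | add x y _ _ hx hy => simpa [jn_add] using Submodule.add_mem _ hx hy
      | smul a x _ hx => simpa [jn_smul] using Submodule.smul_mem _ a hx
    simpa [jn_add] using Submodule.add_mem _ k₁ k₂

theorem bd_mulVec [Fintype β] (A₁ A₂ : Matrix β β ℂ) (v₁ v₂ : β → ℂ) :
    (bd A₁ A₂).mulVec (jn v₁ v₂) = jn (A₁.mulVec v₁) (A₂.mulVec v₂) := by
  have := Matrix.fromBlocks_mulVec A₁ (0 : Matrix β β ℂ) (0 : Matrix β β ℂ) A₂ (Sum.elim v₁ v₂)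
  simp only [Matrix.zero_mulVec, add_zero, zero_add, Sum.elim_comp_inl, Sum.elim_comp_inr] at this
  exact this

theorem fixes_blk [Fintype β] [LinearOrder β] [LinearOrder κ] (c : Finset κ)
    (g₁ : Matrix β {k // k ∈ c} ℂ) (g₂ : Matrix β {k // k ∉ c} ℂ) (A₁ A₂ : Matrix β β ℂ) :
    Fixes (bd A₁ A₂) (blk c g₁ g₂) ↔ Fixes A₁ g₁ ∧ Fixes A₂ g₂ := by
  rw [fixes_iff, fixes_iff]
  constructor
  · intro h
    refine ⟨fun k v hv => ?_, fun k v hv => ?_⟩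
    · have := h k _ ((mem_step c g₁ g₂ k v 0).2 ⟨hv, Submodule.zero_mem _⟩)
      rw [bd_mulVec, mem_step] at this
      exact this.1
    · have := h k _ ((mem_step c g₁ g₂ k 0 v).2 ⟨Submodule.zero_mem _, hv⟩)
      rw [bd_mulVec, mem_step] at this
      exact this.2
  · rintro ⟨h₁, h₂⟩ k v hv
    rw [jn_surj v] at hv ⊢
    rw [mem_step] at hv
    rw [bd_mulVec, mem_step]
    exact ⟨h₁ k _ hv.1, h₂ k _ hv.2⟩

theorem mat_bd {Q₁ ν : Type} [DecidableEq Q₀] (s t : Q₁ → Q₀) (vx : β → Q₀)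
    (o : ν ≃ Ent s t vx ⊕ Ent s t vx) (x : Ent s t vx ⊕ Ent s t vx → ℂ) (a : Q₁) :
    mat s t (vx2 vx) (Sum.elim (0 : ν → ℂ) x ∘
      ((Equiv.sumCongr o (Equiv.refl _)).trans (entEquiv s t vx)).symm) a =
      bd (mat s t vx (x ∘ Sum.inl) a) (mat s t vx (x ∘ Sum.inr) a) := by
  ext p q
  induction p using lex_cases <;> induction q using lex_cases
  · rfl
  · exact dite_eq_right_iff.2 fun _ => rfl
  · exact dite_eq_right_iff.2 fun _ => rfl
  · rfl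

end ShbAux

open ShbAux in
theorem p_SHB (hADM : S_ADM) (hCELL : S_CELL) (hTRANS : S_TRANS) (hGINV : S_GINV) :
    S_SHB := by
  intro Q₀ Q₁ β κ ν _ _ _ _ _ _ _ s t vx o i c φ hφ
  classical
  let F : (((β ×ₗ {k // k ∈ c}) ⊕ (β ×ₗ {k // k ∉ c})) ⊕ Ent s t vx ⊕ Ent s t vx → ℂ) →
      ((β ⊕ₗ β) ×ₗ κ) ⊕ ν → ℂ := fun z => Sum.elim (fun p => blk c (cols (z ∘ Sum.inl ∘ Sum.inl))
        (cols (z ∘ Sum.inl ∘ Sum.inr)) (ofLex p).1 (ofLex p).2) 0
  have key : ∀ z, Sum.elim (F z) (z ∘ Sum.inr) ∈ shufSet s t vx o i c ↔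
      z ∘ Sum.map Sum.inl Sum.inl ∈ flagBundle s t vx (i ∘ Subtype.val) ∧
        z ∘ Sum.map Sum.inr Sum.inr ∈ flagBundle s t vx (i ∘ Subtype.val) := by
    intro z
    have h1 := ech_blk vx i c (cols (z ∘ Sum.inl ∘ Sum.inl)) (cols (z ∘ Sum.inl ∘ Sum.inr))
    have h2 := fun a => fixes_blk c (cols (z ∘ Sum.inl ∘ Sum.inl)) (cols (z ∘ Sum.inl ∘ Sum.inr))
      (mat s t vx ((z ∘ Sum.inr) ∘ Sum.inl) a) (mat s t vx ((z ∘ Sum.inr) ∘ Sum.inr) a)
    simp only [← mat_bd s t vx o] at h2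
    have h3 := and_congr h1 (forall_congr' h2)
    rw [forall_and] at h3
    exact h3.trans and_and_and_comm
  refine ((hTRANS _ _ _ _ _).2 F ?_ ?_ ⟨?_, ?_, ?_⟩).2 φ hφ
  · rintro (⟨b | b, k⟩ | j)
    · exact PolyFn.dite (k ∈ c) (fun _ => PolyFn.coord _) fun _ => PolyFn.const 0
    · exact PolyFn.dite (k ∈ c) (fun _ => PolyFn.const 0) fun _ => PolyFn.coord _
    · exact PolyFn.const 0
  · exact (Con.comp (hGINV Q₀ Q₁ β _ s t vx _).1 _).and (Con.comp (hGINV Q₀ Q₁ β _ s t vx _).1 _)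
  · intro z hz
    refine ⟨(key z).2 hz, ?_⟩
    rintro (⟨b | b, k⟩ | j) hj
    · refine blk_lr c _ _ b (k := k) fun hk => hj ?_
      show ((1 : ℤ) - if k ∈ c then 1 else 0) = 0
      simp [hk]
    · refine blk_rl c _ _ b (k := k) (by_contra fun hk => hj ?_)
      show ((0 : ℤ) - if k ∈ c then 1 else 0) = 0
      simp [hk]
    · rfl
  · intro z _ z' _ h
    funext q
    rcases q with (⟨b, k⟩ | ⟨b, k⟩) | q
    · have := congrFun h (Sum.inl (Sum.inl (toLex (toLex (Sum.inl b), k.1))))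
      exact (blk_ll c _ _ b k).symm.trans (this.trans (blk_ll c _ _ b k))
    · have := congrFun h (Sum.inl (Sum.inl (toLex (toLex (Sum.inr b), k.1))))
      exact (blk_rr c _ _ b k).symm.trans (this.trans (blk_rr c _ _ b k))
    · exact congrFun h (Sum.inr q)
  · rintro z ⟨hz, h0⟩
    let z' : ((β ×ₗ {k // k ∈ c}) ⊕ (β ×ₗ {k // k ∉ c})) ⊕ Ent s t vx ⊕ Ent s t vx → ℂ :=
      Sum.elim (Sum.elim
        (fun p => z (Sum.inl (Sum.inl (toLex (toLex (Sum.inl (ofLex p).1), (ofLex p).2.1)))))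
        fun p => z (Sum.inl (Sum.inl (toLex (toLex (Sum.inr (ofLex p).1), (ofLex p).2.1)))))
        (z ∘ Sum.inr)
    have e : Sum.elim (F z') (z' ∘ Sum.inr) = z := by
      funext q
      rcases q with (⟨b | b, k⟩ | j) | q
      · by_cases hk : k ∈ c
        · exact blk_ll c _ _ b ⟨k, hk⟩
        · refine (blk_lr c _ _ b hk).trans (h0 _ ?_).symm
          show ((1 : ℤ) - if k ∈ c then 1 else 0) ≠ 0
          simp [hk]
      · by_cases hk : k ∈ c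
        · refine (blk_rl c _ _ b hk).trans (h0 _ ?_).symm
          show ((0 : ℤ) - if k ∈ c then 1 else 0) ≠ 0
          simp [hk]
        · exact blk_rr c _ _ b ⟨k, hk⟩
      · refine (h0 (Sum.inr j) ?_).symm
        show (if (o j).isLeft then (1 : ℤ) else -1) ≠ 0
        split_ifs <;> simp
      · rfl
    exact ⟨z', (key z').1 (e.symm ▸ hz), e⟩

end Pool.Agent.P.MP_52ab5a_al
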