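import Pool.Agent.P.MP_52ab5a_al.F.Iface

/-! Step SHC of the open orbit project. -/

namespace Pool.Agent.P.MP_52ab5a_al

open MvPolynomial WM

namespace ShcAux

theorem lt_restrict {Q κ : Type} [LinearOrder Q] [LinearOrder κ] {n : ℕ} (p : κ → Prop)
    (e : Fin n ≃o {k // p k}) (j j' : κ → Q) (k : κ) (hk : p k) (h1 : ∀ k' < k, j' k' = j k')
    (h2 : j' k < j k) : toLex ((j' ∘ Subtype.val) ∘ e) < toLex ((j ∘ Subtype.val) ∘ e) := by
  refine ⟨e.symm ⟨k, hk⟩, fun a ha => ?_, ?_⟩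
  · have h3 : e a < ⟨k, hk⟩ := by
      have := e.strictMono ha
      rwa [OrderIso.apply_symm_apply] at this
    exact h1 _ h3
  · show j' (e (e.symm ⟨k, hk⟩)).1 < j (e (e.symm ⟨k, hk⟩)).1
    rw [OrderIso.apply_symm_apply]
    exact h2

theorem le_of_restrict {Q : Type} [LinearOrder Q] {m n : ℕ} (c : Finset (Fin m))
    (e : Fin n ≃o {k // k ∈ c}) (f : Fin n ≃o {k // k ∉ c}) (j j' : Fin m → Q)
    (h1 : toLex ((j ∘ Subtype.val) ∘ e) ≤ toLex ((j' ∘ Subtype.val) ∘ e))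
    (h2 : toLex ((j ∘ Subtype.val) ∘ f) ≤ toLex ((j' ∘ Subtype.val) ∘ f)) :
    toLex j ≤ toLex j' := by
  by_contra h
  obtain ⟨k, hk1, hk2⟩ : toLex j' < toLex j := not_le.mp h
  by_cases hk : k ∈ c
  · exact absurd (lt_restrict (fun k => k ∈ c) e j j' k hk hk1 hk2) (not_lt.mpr h1)
  · exact absurd (lt_restrict (fun k => k ∉ c) f j j' k hk hk1 hk2) (not_lt.mpr h2)

/-- The word with given restrictions. -/
def shw {Q : Type} {m n : ℕ} (c : Finset (Fin m)) (e : Fin n ≃o {k // k ∈ c})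
    (f : Fin n ≃o {k // k ∉ c}) (u v : Fin n → Q) : Fin m → Q :=
  fun k => if h : k ∈ c then u (e.symm ⟨k, h⟩) else v (f.symm ⟨k, h⟩)

theorem sh_left {Q : Type} {m n : ℕ} (c : Finset (Fin m)) (e : Fin n ≃o {k // k ∈ c})
    (f : Fin n ≃o {k // k ∉ c}) (u v : Fin n → Q) : (shw c e f u v ∘ Subtype.val) ∘ e = u := by
  funext a
  show shw c e f u v (e a).1 = u a
  unfold shw
  rw [dif_pos (e a).2]
  simp

theorem sh_right {Q : Type} {m n : ℕ} (c : Finset (Fin m)) (e : Fin n ≃o {k // k ∈ c})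
    (f : Fin n ≃o {k // k ∉ c}) (u v : Fin n → Q) : (shw c e f u v ∘ Subtype.val) ∘ f = v := by
  funext a
  show shw c e f u v (f a).1 = v a
  unfold shw
  rw [dif_neg (f a).2]
  simp

theorem exists_top {Q : Type} [LinearOrder Q] {n : ℕ} (c : (Fin n → Q) → ℤ)
    (hf : {i | c i ≠ 0}.Finite) (hn : ∃ i, c i ≠ 0) :
    ∃ i, c i ≠ 0 ∧ ∀ j, c j ≠ 0 → toLex j ≤ toLex i := by
  obtain ⟨i, hi, hm⟩ := Set.exists_max_image {i | c i ≠ 0} (fun j => toLex j) hf hn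
  exact ⟨i, hi, hm⟩

end ShcAux

open ShcAux in
theorem p_SHC :
    S_SHC := by
  intro Q₀ n c₁ c₂ hf₁ hf₂ hn₁ hn₂
  classical
  let : LinearOrder Q₀ := linearOrderOfSTO WellOrderingRel
  obtain ⟨i₁, hi₁, hm₁⟩ := exists_top c₁ hf₁ hn₁
  obtain ⟨i₂, hi₂, hm₂⟩ := exists_top c₂ hf₂ hn₂
  let C := {c : Finset (Fin (n + n)) //
    Fintype.card {k // k ∈ c} = n ∧ Fintype.card {k // k ∉ c} = n}
  have hC : Nonempty C := by
    obtain ⟨c, -, hc⟩ := Finset.exists_subset_card_eq (s := (Finset.univ : Finset (Fin (n + n))))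
      (n := n) (by simp)
    refine ⟨⟨c, ?_, ?_⟩⟩
    · rw [Fintype.card_of_subtype c (fun _ => Iff.rfl), hc]
    · rw [Fintype.card_of_subtype cᶜ (fun _ => Finset.mem_compl), Finset.card_compl, hc]
      simp
  let w : C → Fin (n + n) → Q₀ := fun c => shw c.1 (Fintype.orderIsoFinOfCardEq _ c.2.1)
    (Fintype.orderIsoFinOfCardEq _ c.2.2) i₁ i₂
  obtain ⟨c₀, hc₀⟩ := Finite.exists_max (fun c : C => toLex (w c))
  refine ⟨w c₀, ?_⟩
  have hp : c₁ i₁ * c₂ i₂ ≠ 0 := mul_ne_zero hi₁ hi₂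
  have key : ∀ c : Finset (Fin (n + n)), extW c₁ {k // k ∈ c} (w c₀ ∘ Subtype.val) *
      extW c₂ {k // k ∉ c} (w c₀ ∘ Subtype.val) ≠ 0 →
      extW c₁ {k // k ∈ c} (w c₀ ∘ Subtype.val) *
      extW c₂ {k // k ∉ c} (w c₀ ∘ Subtype.val) = c₁ i₁ * c₂ i₂ := by
    intro c hc
    have ha := left_ne_zero_of_mul hc
    have hb := right_ne_zero_of_mul hc
    unfold extW at ha hb ⊢
    by_cases h1 : Fintype.card {k // k ∈ c} = n
    swap
    · rw [dif_neg h1] at ha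
      exact absurd rfl ha
    by_cases h2 : Fintype.card {k // k ∉ c} = n
    swap
    · rw [dif_neg h2] at hb
      exact absurd rfl hb
    rw [dif_pos h1] at ha ⊢
    rw [dif_pos h2] at hb ⊢
    have e1 := sh_left c (Fintype.orderIsoFinOfCardEq _ h1) (Fintype.orderIsoFinOfCardEq _ h2) i₁ i₂
    have e2 := sh_right c (Fintype.orderIsoFinOfCardEq _ h1) (Fintype.orderIsoFinOfCardEq _ h2) i₁ i₂
    have hle : toLex (w c₀) ≤ toLex (w ⟨c, h1, h2⟩) := by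
      refine le_of_restrict c (Fintype.orderIsoFinOfCardEq _ h1) (Fintype.orderIsoFinOfCardEq _ h2)
        _ _ ?_ ?_
      · have := hm₁ _ ha
        rw [← e1] at this
        exact this
      · have := hm₂ _ hb
        rw [← e2] at this
        exact this
    have heq : w c₀ = w ⟨c, h1, h2⟩ := toLex.injective (le_antisymm hle (hc₀ _))
    rw [heq]
    exact congrArg₂ (· * ·) (congrArg c₁ e1) (congrArg c₂ e2)
  have h0 : extW c₁ {k // k ∈ c₀.1} (w c₀ ∘ Subtype.val) *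
      extW c₂ {k // k ∉ c₀.1} (w c₀ ∘ Subtype.val) = c₁ i₁ * c₂ i₂ := by
    unfold extW
    rw [dif_pos c₀.2.1, dif_pos c₀.2.2]
    exact congrArg₂ (· * ·) (congrArg c₁ (sh_left _ _ _ _ _)) (congrArg c₂ (sh_right _ _ _ _ _))
  intro hs
  have hpos : 0 < ∑ c : Finset (Fin (n + n)), (extW c₁ {k // k ∈ c} (w c₀ ∘ Subtype.val) *
      extW c₂ {k // k ∉ c} (w c₀ ∘ Subtype.val)) * (c₁ i₁ * c₂ i₂) := by
    refine Finset.sum_pos' (fun c _ => ?_) ⟨c₀.1, Finset.mem_univ _, ?_⟩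
    · by_cases hc : extW c₁ {k // k ∈ c} (w c₀ ∘ Subtype.val) *
        extW c₂ {k // k ∉ c} (w c₀ ∘ Subtype.val) = 0
      · rw [hc, zero_mul]
      · rw [key c hc]
        exact mul_self_nonneg _
    · rw [h0]
      exact mul_self_pos.mpr hp
  rw [← Finset.sum_mul, hs, zero_mul] at hpos
  exact lt_irrefl _ hpos

end Pool.Agent.P.MP_52ab5a_al
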