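import Pool.Agent.P.MP_52ab5a_al.F.Iface
import Pool.Agent.P.MP_52ab5a_al.A.Iface
import Pool.Agent.P.MP_52ab5a_al.K.Iface

/-! Step SHUF of the open orbit project. -/

namespace Pool.Agent.P.MP_52ab5a_al

open MvPolynomial WM

theorem p_SHUF (hPUSH : S_PUSH) (hCLS : S_CLS) (hLOCT : S_LOCT) (hPRODI : S_PRODI) (hFUB : S_FUB) (hCELL : S_CELL) (hGINV : S_GINV) (hSHA : S_SHA) (hSHB : S_SHB) :
    S_SHUF := by
  intro Q₀ Q₁ β κ ν _ _ _ _ _ _ _ s t vx o i φ φ₁ φ₂ hφ h1 h2 hP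
  classical
  have hcon2 := (hGINV Q₀ Q₁ (β ⊕ₗ β) κ s t (vx2 vx) i).1
  rw [(hFUB _ _ _ hcon2).1 ν _ ((Equiv.sumCongr o (Equiv.refl _)).trans (entEquiv s t vx)) φ hφ]
  have hset : {z : (((β ⊕ₗ β) ×ₗ κ) ⊕ ν) ⊕ Ent s t vx ⊕ Ent s t vx → ℂ |
      Sum.elim (z ∘ Sum.inl ∘ Sum.inl) (Sum.elim (z ∘ Sum.inl ∘ Sum.inr) (z ∘ Sum.inr) ∘
        ((Equiv.sumCongr o (Equiv.refl _)).trans (entEquiv s t vx)).symm) ∈
          flagBundle s t (vx2 vx) i} = ⋃ c : Finset κ, shufSet s t vx o i c := by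
    ext z
    simp only [Set.mem_iUnion]
    constructor
    · rintro ⟨⟨w, hw⟩, hf⟩
      exact ⟨Finset.univ.filter fun k => (ofLex (w k)).isLeft = true, ⟨w, by simp, hw⟩, hf⟩
    · rintro ⟨c, ⟨w, -, hw⟩, hf⟩
      exact ⟨⟨w, hw⟩, hf⟩
  have hdis : Pairwise fun c c' : Finset κ =>
      Disjoint (shufSet s t vx o i c) (shufSet s t vx o i c') := by
    intro c c' hne
    refine Set.disjoint_left.2 fun z hz hz' => hne ?_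
    obtain ⟨⟨w, hc, hw⟩, -⟩ := hz
    obtain ⟨⟨w', hc', hw'⟩, -⟩ := hz'
    have : w' = w := ((hCELL Q₀ _ κ (vx2 vx) i w).1 _ hw).2.2.2.2.1 w' hw'
    subst this
    ext k
    rw [hc, hc']
  have hS := fun c => hSHA Q₀ Q₁ β κ ν s t vx o i c
  rw [hset, intg, (hCLS _).2.2.2.1 _ (Finset κ) _ ((hPUSH _ _ Sum.inr Sum.inr_injective).1 φ hφ)
    (fun c => (hS c).1) hdis]
  refine Finset.sum_congr rfl fun c _ => ?_
  refine (hLOCT _ _ φ (shufWt o c) _ hφ (hS c).1 (hS c).2).trans ?_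
  rw [hSHB Q₀ Q₁ β κ ν s t vx o i c φ hφ]
  exact hPRODI _ _ _ _ φ φ₁ φ₂ _ _ hφ h1 h2 hP (hGINV Q₀ Q₁ β _ s t vx _).1
    (hGINV Q₀ Q₁ β _ s t vx _).1

end Pool.Agent.P.MP_52ab5a_al
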