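import Pool.Agent.P.MP_52ab5a_al.F.Iface

/-! Step SOC of the open orbit project. -/

namespace Pool.Agent.P.MP_52ab5a_al

open MvPolynomial WM

namespace SocAux

variable {Q₀ α β : Type} [Fintype β] (vx : β → Q₀) (Y : α → Matrix β β ℂ)

/-- The summand at a vertex. -/
def Vx (j : Q₀) : Submodule ℂ (β → ℂ) where
  carrier := {v | ∀ c, vx c ≠ j → v c = 0}
  zero_mem' := fun _ _ => rfl
  add_mem' := fun {v w} hv hw c hc => by rw [Pi.add_apply, hv c hc, hw c hc, add_zero]
  smul_mem' := fun r v hv c hc => by rw [Pi.smul_apply, hv c hc, smul_zero]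

/-- The vectors at a vertex which are mapped into `U`. -/
def soc (U : Submodule ℂ (β → ℂ)) (j : Q₀) : Submodule ℂ (β → ℂ) :=
  Vx vx j ⊓ ⨅ a, U.comap (Y a).mulVecLin

theorem mem_soc {U : Submodule ℂ (β → ℂ)} {j : Q₀} {v : β → ℂ} :
    v ∈ soc vx Y U j ↔ (∀ c, vx c ≠ j → v c = 0) ∧ ∀ a, (Y a).mulVec v ∈ U := by
  rw [soc, Submodule.mem_inf, Submodule.mem_iInf]; rfl

/-- One step of the chain. -/
def nxt (U : Submodule ℂ (β → ℂ)) (j : Q₀) : Submodule ℂ (β → ℂ) := U ⊔ soc vx Y U j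

variable {vx Y}

theorem gd_mem {γ : Matrix β β ℂ} (h : Gd vx γ) {j : Q₀} {v : β → ℂ}
    (hv : ∀ c, vx c ≠ j → v c = 0) (c : β) (hc : vx c ≠ j) : γ.mulVec v c = 0 :=
  Finset.sum_eq_zero fun b _ => by
    by_cases e : vx b = j
    · exact mul_eq_zero_of_left (h c b (by rwa [e])) _
    · exact mul_eq_zero_of_right _ (hv b e)

theorem exists_soc [DecidableEq β] (hY : ∀ a, ∃ u, ∀ c b, Y a c b ≠ 0 → vx b = u) {m : ℕ}
    (hm : ∀ l : List α, l.length = m → (l.map Y).prod = 0) {U : Submodule ℂ (β → ℂ)}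
    (hU : U ≠ ⊤) : ∃ j, ∃ v ∈ soc vx Y U j, v ∉ U := by
  classical
  by_contra h
  push Not at h
  have k1 : ∀ v, (∀ a, (Y a).mulVec v ∈ U) → v ∈ U := fun v hv => by
    have e : v = ∑ j ∈ Finset.univ.image vx, fun b => if vx b = j then v b else 0 := by
      funext b
      rw [Finset.sum_apply, Finset.sum_ite_eq, if_pos (Finset.mem_image_of_mem _ (Finset.mem_univ b))]
    rw [e]
    refine U.sum_mem fun j _ => h j _ ((mem_soc vx Y).2 ⟨fun c hc => if_neg hc, fun a => ?_⟩)
    obtain ⟨u, hu⟩ := hY a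
    by_cases e : u = j
    · have : (Y a).mulVec (fun b => if vx b = j then v b else 0) = (Y a).mulVec v :=
        funext fun c => Finset.sum_congr rfl fun b _ => by
          change Y a c b * (if vx b = j then v b else 0) = Y a c b * v b
          by_cases z : Y a c b = 0
          · rw [z, zero_mul, zero_mul]
          · rw [if_pos ((hu c b z).trans e)]
      rw [this]; exact hv a
    · have : (Y a).mulVec (fun b => if vx b = j then v b else 0) = 0 :=
        funext fun c => Finset.sum_eq_zero fun b _ => by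
          change Y a c b * (if vx b = j then v b else 0) = 0
          by_cases z : Y a c b = 0
          · rw [z, zero_mul]
          · rw [if_neg fun r => e ((hu c b z).symm.trans r), mul_zero]
      rw [this]; exact U.zero_mem
  have k2 : ∀ n, (∀ l : List α, l.length = n → ∀ v, (l.map Y).prod.mulVec v ∈ U) → ∀ v, v ∈ U := by
    intro n
    induction n with
    | zero => exact fun a v => by simpa using a [] rfl v
    | succ n ih =>
      refine fun a => ih fun l hl v => k1 _ fun b => ?_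
      have := a (b :: l) (by rw [List.length_cons, hl]) v
      rwa [List.map_cons, List.prod_cons, ← Matrix.mulVec_mulVec] at this
  exact hU (eq_top_iff.2 fun v _ => k2 m (fun l hl v => by simp [hm l hl]) v)

theorem exists_top [DecidableEq β] (hY : ∀ a, ∃ u, ∀ c b, Y a c b ≠ 0 → vx b = u) {m : ℕ}
    (hm : ∀ l : List α, l.length = m → (l.map Y).prod = 0) (U : Submodule ℂ (β → ℂ)) :
    ∃ ext : List Q₀, ext.foldl (nxt vx Y) U = ⊤ := by
  induction U using WellFoundedGT.induction with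
  | ind U ih =>
    by_cases hU : U = ⊤
    · exact ⟨[], hU⟩
    obtain ⟨j, v, h1, h2⟩ := exists_soc hY hm hU
    obtain ⟨e, he⟩ := ih (nxt vx Y U j)
      (lt_of_le_of_ne le_sup_left fun a => h2 (a ▸ Submodule.mem_sup_right h1))
    exact ⟨j :: e, he⟩

variable (vx Y)

/-- The chain of submodules. -/
def ch (dn : List Q₀) (l : ℕ) : Submodule ℂ (β → ℂ) := (dn.take l).foldl (nxt vx Y) ⊥

/-- The new part in the step `l`. -/
def nw (dn : List Q₀) (l : ℕ) : Submodule ℂ (β → ℂ) :=
  (dn[l]?).elim ⊥ (soc vx Y (ch vx Y dn l))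

theorem ch_succ (dn : List Q₀) (l : ℕ) : ch vx Y dn (l + 1) = ch vx Y dn l ⊔ nw vx Y dn l := by
  rw [ch, List.take_add_one, List.foldl_append, nw]
  cases dn[l]? with
  | none => exact (sup_bot_eq _).symm
  | some j => rfl

theorem ch_mono (dn : List Q₀) : Monotone (ch vx Y dn) :=
  monotone_nat_of_le_succ fun l => by rw [ch_succ]; exact le_sup_left

theorem nw_map (dn : List Q₀) (l : ℕ) (a : α) {v : β → ℂ} (hv : v ∈ nw vx Y dn l) :
    (Y a).mulVec v ∈ ch vx Y dn l := by
  rw [nw] at hv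
  cases e : dn[l]? with
  | none => rw [e] at hv; rw [(Submodule.mem_bot ℂ).1 hv, Matrix.mulVec_zero]; exact zero_mem _
  | some j => rw [e] at hv; exact ((mem_soc vx Y).1 hv).2 a

theorem ch_map (dn : List Q₀) (l : ℕ) (a : α) : ∀ v ∈ ch vx Y dn (l + 1),
    (Y a).mulVec v ∈ ch vx Y dn l := by
  have step : ∀ l, (∀ v ∈ ch vx Y dn l, (Y a).mulVec v ∈ ch vx Y dn l) →
      ∀ v ∈ ch vx Y dn (l + 1), (Y a).mulVec v ∈ ch vx Y dn l := fun l h v hv => by
    rw [ch_succ] at hv
    obtain ⟨u, hu, w, hw, rfl⟩ := Submodule.mem_sup.1 hv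
    rw [Matrix.mulVec_add]
    exact add_mem (h u hu) (nw_map vx Y dn l a hw)
  refine step l ?_
  induction l with
  | zero =>
    intro v hv
    rw [(Submodule.mem_bot ℂ).1 hv, Matrix.mulVec_zero]; exact zero_mem _
  | succ l ih => exact fun v hv => ch_mono vx Y dn l.le_succ (step l ih v hv)

theorem exists_compl (dn : List Q₀) (l : ℕ) : ∃ C ≤ nw vx Y dn l,
    Disjoint (ch vx Y dn l) C ∧ ch vx Y dn l ⊔ C = ch vx Y dn (l + 1) := by
  obtain ⟨C, h1, h2⟩ := IsModularLattice.exists_disjoint_and_sup_eq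
    (inf_le_right : ch vx Y dn l ⊓ nw vx Y dn l ≤ _)
  have h3 : C ≤ nw vx Y dn l := h2 ▸ le_sup_right
  refine ⟨C, h3, ?_, ?_⟩
  · rw [disjoint_iff] at h1 ⊢
    rwa [inf_assoc, inf_eq_right.2 h3] at h1
  · rw [ch_succ]
    conv_rhs => rw [← h2, ← sup_assoc, sup_inf_self]

end SocAux

open SocAux in
theorem p_SOC (hADM : S_ADM) (hBASIS : S_BASIS) :
    S_SOC := by
  intro Q₀ Q₁ β _ _ _ _ s t vx y ⟨_, m, hm⟩
  classical
  obtain ⟨-, -, -, -, A5, A6, -⟩ := hADM Q₀ Q₁ β s t vx
  have hY : ∀ a, ∃ u, ∀ c b, dbl s t vx y a c b ≠ 0 → vx b = u := fun a =>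
    ⟨_, fun c b h => (A6 y a c b h).2⟩
  refine ⟨fun _ => ?_, fun js => ?_⟩
  · obtain ⟨j, v, h1, h2⟩ := exists_soc hY hm (U := ⊥) bot_ne_top
    rw [mem_soc] at h1
    exact ⟨j, v, h2, h1.1, h1.2⟩
  set Y := dbl s t vx y with hYd
  obtain ⟨ext, he⟩ := exists_top hY hm (js.foldl (nxt vx Y) ⊥)
  set dn := js ++ ext with hdn
  have top : ch vx Y dn dn.length = ⊤ := by rw [ch, List.take_length, hdn, List.foldl_append, he]
  choose C c1 c2 c3 using exists_compl vx Y dn
  set C' : ℤ → Submodule ℂ (β → ℂ) := fun d => if 0 ≤ d then C d.toNat else ⊥ with hC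
  have d1 : ∀ d, C' d ≤ C d.toNat := fun d => by
    simp only [hC]; split_ifs; exacts [le_rfl, bot_le]
  have d2 : ∀ (d : ℤ) (l : ℕ), d < l → C' d ≤ ch vx Y dn l := fun d l h => by
    simp only [hC]; split_ifs with a
    exacts [(c3 d.toNat ▸ le_sup_right : C d.toNat ≤ _).trans (ch_mono vx Y dn (by omega)), bot_le]
  have d3 : ∀ l : ℕ, C' l = C l := fun l => if_pos (Int.natCast_nonneg l)
  have d4 : ∀ d, ∀ v ∈ C' d, v ≠ 0 → 0 ≤ d ∧ ∃ j, dn[d.toNat]? = some j ∧ ∀ c, vx c ≠ j → v c = 0 :=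
    fun d v hv v0 => by
      refine ⟨not_not.1 fun a => v0 (by simpa only [hC, if_neg a, Submodule.mem_bot] using hv), ?_⟩
      have := c1 _ (d1 d hv)
      rw [nw] at this
      cases e : dn[d.toNat]? with
      | none => rw [e] at this; exact absurd this v0
      | some j => rw [e] at this; exact ⟨j, rfl, ((mem_soc vx Y).1 this).1⟩
  have i1 : iSupIndep C' := by
    refine (iSupIndep_iff_finsetSum_eq_zero_imp_eq_zero C').2 fun S v => ?_
    induction S using Finset.induction_on_max with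
    | empty => simp
    | insert a S ha ih =>
      intro h1 h2
      rw [Finset.sum_insert fun b => lt_irrefl _ (ha a b)] at h2
      have a0 : v a = 0 := Submodule.disjoint_def.1 (c2 a.toNat) _ (by
        rw [eq_neg_of_add_eq_zero_left h2]
        exact neg_mem (Submodule.sum_mem _ fun i hi => d2 i _
          ((ha i hi).trans_le (Int.self_le_toNat a)) (h1 i (Finset.mem_insert_of_mem hi))))
        (d1 a (h1 a (Finset.mem_insert_self _ _)))
      rw [a0, zero_add] at h2
      exact Finset.forall_mem_insert _ _ _ |>.2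
        ⟨a0, ih (fun i hi => h1 i (Finset.mem_insert_of_mem hi)) h2⟩
  have i2 : ⨆ d, C' d = ⊤ := by
    have : ∀ l, ch vx Y dn l ≤ ⨆ d, C' d := fun l => by
      induction l with
      | zero => exact bot_le
      | succ l ih => rw [← c3]; exact sup_le ih (d3 l ▸ le_iSup C' l)
    exact eq_top_iff.2 (top ▸ this _)
  have i3 : ∀ d, ∀ v ∈ C' d, ∀ u, (fun b => if vx b = u then v b else 0) ∈ C' d := by
    intro d v hv u
    by_cases v0 : v = 0
    · simp only [v0, Pi.zero_apply, ite_self]; exact zero_mem _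
    obtain ⟨-, j, -, hj⟩ := d4 d v hv v0
    by_cases e : u = j
    · have : (fun b => if vx b = u then v b else 0) = v := funext fun b => by
        split_ifs with a; exacts [rfl, (hj b (e ▸ a)).symm]
      rwa [this]
    · have : (fun b => if vx b = u then v b else 0) = 0 := funext fun b => by
        split_ifs with a; exacts [hj b (a ▸ e), rfl]
      rw [this]; exact zero_mem _
  obtain ⟨γ, δ, deg, g, -, hb⟩ := hBASIS Q₀ β vx C' i1 i2 i3
  have gd : ∀ v, γ.mulVec (δ.mulVec v) = v := fun v => by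
    rw [Matrix.mulVec_mulVec, g.mul, Matrix.one_mulVec]
  have b1 : ∀ c (r : ℂ), δ.mulVec (Pi.single c r) ∈ C' (deg c) := fun c r => (hb _ _).2 fun b h => by
    rw [gd, Pi.single_eq_of_ne fun a => h (congrArg deg a)]
  have b2 : ∀ c, 0 ≤ deg c ∧ dn[(deg c).toNat]? = some (vx c) := fun c => by
    obtain ⟨h0, j, h1, h2⟩ := d4 _ _ (b1 c 1) fun a => by
      have := congrFun (gd (Pi.single c 1)) c
      rw [a, Matrix.mulVec_zero, Pi.single_eq_same] at this
      exact zero_ne_one this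
    refine ⟨h0, h1.trans (congrArg some (not_not.1 fun a => ?_))⟩
    have := gd_mem g.gd h2 c (Ne.symm a)
    rw [gd, Pi.single_eq_same] at this
    exact one_ne_zero this
  have b3 : ∀ l x, x ∈ ch vx Y dn l ↔ ∀ c, l ≤ (deg c).toNat → γ.mulVec x c = 0 := fun l x => by
    refine ⟨fun h => ?_, fun h => ?_⟩
    · induction l generalizing x with
      | zero => intro c _; rw [(Submodule.mem_bot ℂ).1 h, Matrix.mulVec_zero]; rfl
      | succ l ih =>
        intro c hc
        rw [← c3] at h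
        obtain ⟨u, hu, w, hw, rfl⟩ := Submodule.mem_sup.1 h
        rw [Matrix.mulVec_add, Pi.add_apply, ih u hu c (by omega),
          (hb l w).1 (d3 l ▸ hw) c (by omega), add_zero]
    · have e : x = ∑ c, δ.mulVec (Pi.single c (γ.mulVec x c)) := by
        rw [← Matrix.mulVec_sum, Finset.univ_sum_single, Matrix.mulVec_mulVec, g.mul',
          Matrix.one_mulVec]
      rw [e]
      refine Submodule.sum_mem _ fun c _ => ?_
      by_cases a : l ≤ (deg c).toNat
      · rw [h c a, Pi.single_zero, Matrix.mulVec_zero]; exact zero_mem _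
      · exact d2 _ _ (by have := (b2 c).1; omega) (b1 c _)
  obtain ⟨z, hz⟩ := A5 (fun a => γ * Y a * δ) fun a c b h => by
    obtain ⟨b', -, h1⟩ := Finset.exists_ne_zero_of_sum_ne_zero h
    obtain ⟨c', -, h2⟩ := Finset.exists_ne_zero_of_sum_ne_zero (left_ne_zero_of_mul h1)
    have := A6 y a c' b' (right_ne_zero_of_mul h2)
    exact ⟨(not_not.1 (mt (g.gd c c') (left_ne_zero_of_mul h2))).trans this.1,
      (not_not.1 (mt (g.gd' b' b) (right_ne_zero_of_mul h1))).symm.trans this.2⟩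
  refine ⟨γ, δ, z, fun c => (deg c).toNat, dn, g, fun a => ?_, ⟨ext, rfl⟩,
    fun b => (b2 b).2, fun l j hl v hv => ?_⟩
  · rw [hz, Matrix.mul_assoc, g.mul', Matrix.mul_one]
  have e1 : ∀ a, (dbl s t vx z a).mulVec v = γ.mulVec ((Y a).mulVec (δ.mulVec v)) := fun a => by
    rw [hz, Matrix.mulVec_mulVec, Matrix.mulVec_mulVec]
  have e2 := b3 (l + 1) (δ.mulVec v)
  rw [gd] at e2
  simp only [e1, ← b3]
  refine Iff.trans ⟨fun h => ?_, fun h a => ch_map vx Y dn l a _ h⟩ e2
  rw [ch_succ, nw, hl]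
  exact Submodule.mem_sup_right ((mem_soc vx Y).2 ⟨gd_mem g.gd' hv, h⟩)

end Pool.Agent.P.MP_52ab5a_al
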