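import Pool.Agent.P.MP_52ab5a_al.F.Iface
import Pool.Agent.P.MP_52ab5a_al.A.Iface
import Pool.Agent.P.MP_52ab5a_al.K.Iface
import Pool.Agent.P.MP_52ab5a_al.B.Iface

/-! Step STR of the open orbit project. -/

namespace Pool.Agent.P.MP_52ab5a_al

open MvPolynomial WM

namespace StrAux

theorem key (hPUSH : S_PUSH) (hCLS : S_CLS) (hCELL : S_CELL) (hSWAP : S_SWAP)
    {Q₀ β κ σ α : Type} [Fintype β] [LinearOrder β] [Fintype κ] [LinearOrder κ] [Fintype σ]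
    [Finite α] [Fintype (κ ≃ β)] (vx : β → Q₀) (i : κ → Q₀) (A : α → (σ → ℂ) → Matrix β β ℂ)
    (hA : Fam vx A) (φ : Fn σ) (hφ : Additive φ) (blk : κ → ℕ)
    (hb : ∀ k k', blk k = blk k' → i k = i k') (H : ℤ) (F : Finset (κ ≃ β))
    (hH : ∀ c : (κ ≃ β) → ℤ,
      (∀ w k k', k ⋖ k' → blk k = blk k' → w k < w k' → c ((Equiv.swap k k').trans w) = c w) →
      ∑ w, c w = H * ∑ w ∈ F, c w) :
    intg φ {z : (β ×ₗ κ) ⊕ σ → ℂ | Echelon vx i (cols (z ∘ Sum.inl)) ∧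
      ∀ a, Fixes (A a (z ∘ Sum.inr)) (cols (z ∘ Sum.inl))} =
      H * ∑ w ∈ F, intg φ (cellSet vx i A w) := by
  have e : {z : (β ×ₗ κ) ⊕ σ → ℂ | Echelon vx i (cols (z ∘ Sum.inl)) ∧
      ∀ a, Fixes (A a (z ∘ Sum.inr)) (cols (z ∘ Sum.inl))} = ⋃ w, cellSet vx i A w := by
    ext z
    simp only [Set.mem_ofPred_eq, Set.mem_iUnion, cellSet, Echelon, exists_and_right]
  rw [e, ← hH (fun w => intg φ (cellSet vx i A w)) fun w k k' h1 h2 h3 =>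
    hSWAP Q₀ β κ σ α vx i A w k k' φ hA h1 (hb k k' h2) h3 hφ]
  refine (hCLS _).2.2.2.1 _ _ _ ((hPUSH σ _ Sum.inr Sum.inr_injective).1 φ hφ) (fun w => ?_)
    fun w w' hw => ?_
  · exact (((hCELL Q₀ β κ vx i w).2.2.2 _ (fun z : (β ×ₗ κ) ⊕ σ → ℂ => cols (z ∘ Sum.inl))
      fun b k => PolyFn.coord _).2.2 α (fun a z => A a (z ∘ Sum.inr)) fun a c b =>
        (hA.poly a c b).comp fun s => PolyFn.coord _).1
  · exact Set.disjoint_left.2 fun z h h' =>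
      hw (((hCELL Q₀ β κ vx i w').1 _ h'.1).2.2.2.2.1 w h.1)

end StrAux

theorem p_STR (hDIM : S_DIM) (hPUSH : S_PUSH) (hCLS : S_CLS) (hCHI : S_CHI) (hBR : S_BR) (hADM : S_ADM) (hCELL : S_CELL) (hGINV : S_GINV) (hSWAP : S_SWAP) (hDIV : S_DIV) (hSOC : S_SOC) (hSTRA : S_STRA) (hSTRB : S_STRB) :
    S_STR := by
  classical
  intro Q₀ Q₁ β _ _ _ _ n s t vx y js hst hn hy
  obtain ⟨γ, δ, z, lev, dn, hγ, hI, hjs, hdn, hl⟩ := (hSOC Q₀ Q₁ β s t vx y hy).2 js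
  have off : ∀ a, ∃ u u', u ≠ u' ∧
      ∀ c b, dbl s t vx z a c b ≠ 0 → vx c = u' ∧ vx b = u := fun a =>
    ⟨Sum.elim s t a, Sum.elim t s a, by rcases a with a | a; exacts [hst a, (hst a).symm],
      (hADM Q₀ Q₁ β s t vx).2.2.2.2.2.1 z a⟩
  have hlev : ∀ b c, lev b = lev c → vx b = vx c := fun b c h =>
    Option.some.inj ((hdn b).symm.trans (h ▸ hdn c))
  obtain ⟨w₀, hm, hs, g₀, hg⟩ := hSTRA Q₀ β (Fin n) _ vx (dbl s t vx z) lev
    (by rw [Fintype.card_fin, hn]) off hlev fun b => hl _ _ (hdn b)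
  obtain ⟨H, H0, hH⟩ := hDIV (Fin n) (lev ∘ w₀) hm
  have hb : ∀ k k', (lev ∘ w₀) k = (lev ∘ w₀) k' → (vx ∘ w₀) k = (vx ∘ w₀) k' :=
    fun k k' h => hlev _ _ h
  have h0 := (hg w₀ hs g₀).2 ⟨rfl, rfl⟩
  refine ⟨vx ∘ w₀, H, H0, ?_, ?_, fun φ hφ => ⟨_, StrAux.key hPUSH hCLS hCELL hSWAP vx (vx ∘ w₀)
    (fun a x => mat s t vx x a) ⟨fun a c b => ?_, fun a => ⟨s a, t a, hst a, fun x c b h => ?_⟩⟩
    φ hφ (lev ∘ w₀) hb H _ (hH β)⟩⟩
  · rw [(((hGINV Q₀ Q₁ β (Fin n) s t vx (vx ∘ w₀)).2 γ δ hγ).1 y z hI).1, flagChi, (hBR _).2]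
    have hd := (hDIM Empty).1
    refine (StrAux.key hPUSH hCLS hCELL hSWAP vx (vx ∘ w₀) (σ := Empty)
      (fun a _ => dbl s t vx z a) ⟨fun a c b => PolyFn.const _, fun a => ?_⟩ WM.dim hd
      (lev ∘ w₀) hb H _ (hH β)).trans ?_
    · obtain ⟨u, u', h1, h2⟩ := off a
      exact ⟨u, u', h1, fun _ => h2⟩
    · rw [Finset.sum_eq_single w₀ (fun w hw hne => ?_) fun hw => absurd
        ((@Finset.mem_filter _ _ (_) _ _).2 ⟨Finset.mem_univ _, hs⟩) hw]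
      · have e : cellSet vx (vx ∘ w₀) (fun a (_ : Empty → ℂ) => dbl s t vx z a) w₀ =
            {q | q ∘ Sum.inl ∈ ({fun p => g₀ (ofLex p).1 (ofLex p).2} : Set (β ×ₗ Fin n → ℂ))} := by
          ext q
          refine (hg w₀ hs _).trans ⟨fun h => ?_, fun h => ⟨rfl, ?_⟩⟩
          · exact funext fun p => congrFun₂ h.2 (ofLex p).1 (ofLex p).2
          · exact Matrix.ext fun b k => congrFun h (toLex (b, k))
        rw [e]
        exact (congrArg (H * ·) ((hCHI _).2.1 _)).trans (mul_one H)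
      · have e : cellSet vx (vx ∘ w₀) (fun a (_ : Empty → ℂ) => dbl s t vx z a) w = ∅ :=
          Set.eq_empty_iff_forall_notMem.2 fun q hq =>
            hne ((hg w ((@Finset.mem_filter _ _ (_) _ _).1 hw).2 _).1 hq).1
        rw [e]
        exact (hCLS _).2.1 _ ((hPUSH Empty _ Sum.inr Sum.inr_injective).1 _ hd)
  · have e : types s t vx (Fin n) y = types s t vx (Fin n) z := Set.ext fun i =>
      (((hGINV Q₀ Q₁ β (Fin n) s t vx i).2 γ δ hγ).1 y z hI).2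
    rw [e]
    exact hSTRB Q₀ β _ n vx (dbl s t vx z) lev dn w₀ off hdn hl hm ⟨g₀, ⟨w₀, h0.1⟩, h0.2⟩ js hjs
  · exact PolyFn.dite _ (fun _ => PolyFn.coord _) fun _ => PolyFn.const _
  · by_contra h'
    exact h (dif_neg h')

end Pool.Agent.P.MP_52ab5a_al
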