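import Pool.Agent.P.MP_52ab5a_al.F.Iface

/-! Step STRA of the open orbit project. -/

namespace Pool.Agent.P.MP_52ab5a_al

open MvPolynomial WM

namespace StraAux

lemma exists_sort {κ β γ : Type} [Fintype κ] [LinearOrder κ] [Fintype β] [LinearOrder γ]
    (f : β → γ) (hf : Function.Injective f) (h : Fintype.card κ = Fintype.card β) :
    ∃ w : κ ≃ β, StrictMono (f ∘ w) := by
  letI := LinearOrder.lift' f hf
  let e := (Fintype.orderIsoFinOfCardEq κ rfl).symm.trans (Fintype.orderIsoFinOfCardEq β h.symm)
  exact ⟨e.toEquiv, fun k k' hk => e.strictMono hk⟩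

lemma mem_step {κ β : Type} [Fintype κ] [LinearOrder κ] [LinearOrder β] (w : κ ≃ β) (k : κ)
    (x : β → ℂ) (hx : ∀ j, k < j → x (w j) = 0) :
    x ∈ step (Matrix.of fun b j => if b = w j then (1 : ℂ) else 0) k := by
  have e : x = ∑ j, x (w j) • fun b => if b = w j then (1 : ℂ) else 0 := by
    funext b
    obtain ⟨j, rfl⟩ := w.surjective b
    simp [Finset.sum_apply]
  rw [e]
  refine Submodule.sum_mem _ fun j _ => ?_
  rcases le_or_gt j k with h | h
  · exact Submodule.smul_mem _ _ (Submodule.subset_span ⟨j, h, rfl⟩)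
  · rw [hx j h, zero_smul]
    exact Submodule.zero_mem _

lemma step_zero {κ β : Type} [LinearOrder κ] (g : Matrix β κ ℂ) (k : κ) (c : β)
    (h : ∀ j ≤ k, g c j = 0) : ∀ v ∈ step g k, v c = 0 := by
  intro v hv
  induction hv using Submodule.span_induction with
  | mem x hx =>
    obtain ⟨j, h1, rfl⟩ := hx
    exact h j h1
  | zero => rfl
  | add x y _ _ h1 h2 => rw [Pi.add_apply, h1, h2, add_zero]
  | smul a x _ h1 => rw [Pi.smul_apply, h1, smul_zero]

end StraAux

open StraAux in
theorem p_STRA (hCELL : S_CELL) :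
    S_STRA := by
  intro Q₀ β κ α _ _ _ _ vx A lev hcard hoff hlev hsoc
  have hf : Function.Injective fun b : β => toLex (lev b, b) := fun b c h =>
    congrArg (fun p => (ofLex p).2) h
  obtain ⟨w₀, hw₀⟩ := exists_sort _ hf hcard
  have hlt : ∀ k k', k < k' → lev (w₀ k) < lev (w₀ k') ∨
      lev (w₀ k) = lev (w₀ k') ∧ w₀ k < w₀ k' := fun k k' h => Prod.Lex.toLex_lt_toLex.1 (hw₀ h)
  have hmono : ∀ k k', k ≤ k' → lev (w₀ k) ≤ lev (w₀ k') := fun k k' h => by
    rcases h.eq_or_lt with rfl | h
    · exact le_rfl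
    · rcases hlt k k' h with h1 | h1
      · exact h1.le
      · exact h1.1.le
  refine ⟨w₀, hmono, fun k k' h1 h2 => ((hlt k k' h2).resolve_left (by omega)).2,
    Matrix.of fun b j => if b = w₀ j then (1 : ℂ) else 0, fun w hw g => ⟨?_, ?_⟩⟩
  · rintro ⟨hc, hfix⟩
    have h1 : ∀ k c, lev (w₀ k) < lev c → g c k = 0 := by
      intro k
      induction k using WellFoundedLT.induction with
      | ind k ih =>
        refine (hsoc (w₀ k) (fun b => g b k) fun c h => (hc k).2.2 c (Or.inr (Or.inl h))).1
          fun a c hlc => ?_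
        obtain ⟨u, u', huu, hA⟩ := hoff a
        by_cases h0 : vx c = u' ∧ vx (w₀ k) = u
        · refine step_zero g k c (fun j hj => ?_) _
            (hfix a k _ (Submodule.subset_span ⟨k, le_rfl, rfl⟩))
          by_cases h2 : vx c = vx (w₀ j)
          · have h3 : lev (w₀ j) ≠ lev (w₀ k) := fun e =>
              huu (h0.2.symm.trans ((hlev _ _ e).symm.trans (h2.symm.trans h0.1)))
            have h4 := hmono j k hj
            exact ih j (lt_of_le_of_ne hj fun e => h3 (by rw [e])) c (by omega)
          · exact (hc j).2.2 c (Or.inr (Or.inl h2))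
        · refine Finset.sum_eq_zero fun b _ => ?_
          by_cases h2 : A a c b = 0
          · simp [h2]
          · have h3 := hA c b h2
            have h4 : g b k = 0 := (hc k).2.2 b (Or.inr (Or.inl fun e =>
              h0 ⟨h3.1, (show vx (w₀ k) = vx b from e.symm).trans h3.2⟩))
            simp [h4]
    have h2 : ∀ k, lev (w k) ≤ lev (w₀ k) := fun k => not_lt.1 fun h => by
      have := h1 k _ h
      rw [(hc k).2.1] at this
      exact one_ne_zero this
    have h3 : ∀ k, lev (w k) = lev (w₀ k) := fun k =>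
      (Finset.sum_eq_sum_iff_of_le fun k _ => h2 k).1
        ((w.sum_comp lev).trans (w₀.sum_comp lev).symm) k (Finset.mem_univ k)
    have h4 : StrictMono ((fun b : β => toLex (lev b, b)) ∘ w) := fun k k' h => by
      refine Prod.Lex.toLex_lt_toLex.2 ?_
      simp only [h3]
      exact (hlt k k' h).imp_right fun h5 => ⟨h5.1, hw k k' h5.1 h⟩
    have h5 : w = w₀ := by
      have := (h4.range_inj hw₀).1 (by rw [w.surjective.range_comp, w₀.surjective.range_comp])
      exact Equiv.ext fun k => hf (congrFun this k)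
    subst h5
    refine ⟨rfl, ?_⟩
    ext b k
    obtain ⟨j, rfl⟩ := w.surjective b
    rw [Matrix.of_apply]
    rcases lt_trichotomy j k with h | rfl | h
    · rw [if_neg fun e => h.ne (w.injective e)]
      exact (hc k).2.2 _ (Or.inr (Or.inr ⟨j, h, rfl⟩))
    · rw [if_pos rfl]
      exact (hc j).2.1
    · rw [if_neg fun e => h.ne' (w.injective e)]
      rcases hlt k j h with h6 | h6
      · exact h1 k _ h6
      · exact (hc k).2.2 _ (Or.inl h6.2)
  · rintro ⟨rfl, rfl⟩
    refine ⟨fun k => ⟨rfl, by simp, fun b hb => ?_⟩, fun a k v hv => ?_⟩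
    · rw [Matrix.of_apply, if_neg]
      rintro rfl
      rcases hb with h | h | ⟨j, h, e⟩
      · exact lt_irrefl _ h
      · exact h rfl
      · exact h.ne' (w.injective e)
    · induction hv using Submodule.span_induction with
      | mem x hx =>
        obtain ⟨j, h1, rfl⟩ := hx
        refine mem_step w k _ fun l hl => (hsoc (w j) _ fun c h => ?_).2 (fun c h => ?_) a _
          (hmono j l (h1.trans hl.le))
        · rw [Matrix.of_apply, if_neg fun e => h (by rw [e])]
        · rw [Matrix.of_apply, if_neg fun e => by rw [e] at h; exact lt_irrefl _ h]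
      | zero =>
        rw [Matrix.mulVec_zero]
        exact Submodule.zero_mem _
      | add x y _ _ h1 h2 =>
        rw [Matrix.mulVec_add]
        exact Submodule.add_mem _ h1 h2
      | smul c x _ h1 =>
        rw [Matrix.mulVec_smul]
        exact Submodule.smul_mem _ _ h1

end Pool.Agent.P.MP_52ab5a_al
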