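import Pool.Agent.P.MP_52ab5a_al.F.Iface

/-! Step STRB of the open orbit project. -/

namespace Pool.Agent.P.MP_52ab5a_al

open MvPolynomial WM

namespace StrbAux

variable {Q₀ β α : Type} [Fintype β] [LinearOrder β] {n : ℕ} {vx : β → Q₀}
  {A : α → Matrix β β ℂ} {lev : β → ℕ} {i : Fin n → Q₀} {w : Fin n ≃ β} {g : Matrix β (Fin n) ℂ}

/-- One block of equal letters raises the level by one. -/
theorem blk (hCELL : S_CELL)
    (hA : ∀ a, ∃ u u', u ≠ u' ∧ ∀ c b, A a c b ≠ 0 → vx c = u' ∧ vx b = u)
    (hc : Cell vx i w g) (hf : ∀ a, Fixes (A a) g) {l M N : ℕ} {j : Q₀}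
    (hS : ∀ v : β → ℂ, (∀ c, vx c ≠ j → v c = 0) →
      ((∀ a c, l ≤ lev c → (A a).mulVec v c = 0) ↔ ∀ c, l < lev c → v c = 0))
    (h1 : ∀ k : Fin n, k.val < M → ∀ c, l ≤ lev c → g c k = 0)
    (h2 : ∀ k : Fin n, M ≤ k.val → k.val < N → i k = j) :
    ∀ k : Fin n, k.val < N → ∀ c, l + 1 ≤ lev c → g c k = 0 := by
  classical
  obtain ⟨e1, e2, e3, e4, -, e5, -⟩ := (hCELL Q₀ β (Fin n) vx i w).1 g hc
  intro k hk
  by_cases hM : k.val < M
  · exact fun c hc => h1 k hM c (by omega)
  have hj := h2 k (by omega) hk
  refine (hS (fun c => g c k) fun c hc => ?_).1 fun a c hl => ?_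
  · by_contra h
    exact hc ((e3 c k h).2.trans hj)
  · have e : (A a).mulVec (fun c => g c k) c = ∑ k', g c k' * (cinv w g * A a * g) k' k := by
      rw [← Matrix.mul_apply, ← Matrix.mul_assoc, ← Matrix.mul_assoc, e2, Matrix.one_mul,
        Matrix.mul_apply]
      rfl
    rw [e]
    refine Finset.sum_eq_zero fun k' _ => ?_
    by_cases hM' : k'.val < M
    · rw [h1 k' hM' c hl, zero_mul]
    rcases lt_or_ge k k' with h | h
    · rw [(e5 (A a)).1 (hf a) k' k h, mul_zero]
    have hj' := h2 k' (by omega) (lt_of_le_of_lt h hk)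
    obtain ⟨u, u', hu, hh⟩ := hA a
    have z : (cinv w g * A a * g) k' k = 0 := by
      rw [Matrix.mul_apply]
      refine Finset.sum_eq_zero fun b _ => ?_
      by_cases hb : g b k = 0
      · rw [hb, mul_zero]
      rw [Matrix.mul_apply, Finset.sum_eq_zero, zero_mul]
      intro c' _
      by_contra hne
      obtain ⟨p, q⟩ := mul_ne_zero_iff.1 hne
      exact hu ((hh c' b q).2.symm.trans (((e3 b k hb).2.trans (hj.trans hj'.symm)).trans
        ((e4 k' c' p).2.symm.trans (hh c' b q).1)))
    rw [z, mul_zero]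

end StrbAux

theorem p_STRB (hCELL : S_CELL) :
    S_STRB := by
  classical
  intro Q₀ β α _ _ n vx A lev dn w₀ hA hd hS hm h0 js hjs
  set W : Set (Fin n → Q₀) := {i | ∃ g, Echelon vx i g ∧ ∀ a, Fixes (A a) g} with hW
  obtain ⟨m, hmd⟩ : ∃ m : ℕ → ℕ,
      ∀ l, m l = (Finset.univ.filter fun k : Fin n => lev (w₀ k) < l).card := ⟨_, fun _ => rfl⟩
  have m1 : ∀ l (k : Fin n), k.val < m l ↔ lev (w₀ k) < l := fun l k => by
    rw [hmd]
    exact Fin.lt_card_filter_univ_iff_apply_of_imp (fun k : Fin n => lev (w₀ k) < l)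
      fun a b hab h => lt_of_le_of_lt (hm hab) h
  have m2 : ∀ l, m l ≤ n := fun l => by
    rw [hmd]; exact (Finset.card_filter_le _ _).trans (by simp)
  have m3 : ∀ l, m l ≤ m (l + 1) := fun l => by
    rw [hmd, hmd]
    exact Finset.card_le_card fun k hk => by
      simp only [Finset.mem_filter, Finset.mem_univ, true_and] at hk ⊢; omega
  have m0 : m 0 = 0 := by rw [hmd]; simp
  have m4 : ∀ l j, dn[l]? = some j → ∀ k : Fin n, m l ≤ k.val → k.val < m (l + 1) →
      vx (w₀ k) = j := fun l j hj k h1 h2 => by
    have e : lev (w₀ k) = l := by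
      have a := (m1 (l + 1) k).1 h2
      have b := mt (m1 l k).2 (not_lt.2 h1)
      omega
    have := hd (w₀ k)
    rw [e, hj] at this
    exact (Option.some.inj this).symm
  have up : ∀ l j, dn[l]? = some j → ∀ i ∈ W, ∀ N, N ≤ n →
      (∀ k : Fin n, k.val < m l → i k = vx (w₀ k)) →
      (∀ k : Fin n, m l ≤ k.val → k.val < N → i k = j) → m l ≤ N → N ≤ m (l + 1) := by
    rintro l j hj i ⟨g, ⟨w, hc⟩, hf⟩ N hN h1 h2 -
    have ind : ∀ l', l' ≤ l → ∀ k : Fin n, k.val < m l' → ∀ c, l' ≤ lev c → g c k = 0 := by
      intro l'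
      induction l' with
      | zero => intro _ k hk; omega
      | succ l' ih =>
        intro hl
        have hl' : l' < dn.length := by
          have := (List.getElem?_eq_some_iff.1 hj).1
          omega
        have mm : m (l' + 1) ≤ m l := monotone_nat_of_le_succ m3 hl
        exact StrbAux.blk hCELL hA hc hf (hS l' _ (List.getElem?_eq_getElem hl')) (ih (by omega))
          fun k a b => (h1 k (by omega)).trans (m4 l' _ (List.getElem?_eq_getElem hl') k a b)
    have fin := StrbAux.blk hCELL hA hc hf (hS l j hj) (ind l le_rfl) h2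
    have c1 : (Finset.univ.filter fun k : Fin n => k.val < N).card = N := by
      rw [Fin.card_filter_val_lt, min_eq_right hN]
    rw [← c1, hmd]
    refine Finset.card_le_card_of_injOn (fun k => w₀.symm (w k)) (fun k hk => ?_)
      (w₀.symm.injective.comp w.injective).injOn
    simp only [Finset.coe_filter, Finset.mem_univ, true_and, Set.mem_ofPred_eq,
      Equiv.apply_symm_apply] at hk ⊢
    by_contra h
    exact one_ne_zero ((hc k).2.1.symm.trans (fin k hk _ (not_lt.1 h)))
  have main : ∀ l, l ≤ dn.length → str W (dn.take l) = (List.ofFn (vx ∘ w₀)).take (m l) := by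
    intro l
    induction l with
    | zero => intro _; simp [str, m0]
    | succ l ih =>
      intro hl
      have hl' : l < dn.length := hl
      have hj := List.getElem?_eq_getElem hl'
      have len : ((List.ofFn (vx ∘ w₀)).take (m l)).length = m l := by simp [m2 l]
      have e : (List.ofFn (vx ∘ w₀)).take (m l) ++ List.replicate (m (l + 1) - m l) dn[l] =
          (List.ofFn (vx ∘ w₀)).take (m (l + 1)) := by
        have a := m2 (l + 1)
        have b := m3 l
        refine List.ext_getElem (by simp; omega) fun k h1 h2 => ?_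
        have hk : k < m (l + 1) := by simp at h2; omega
        rw [List.getElem_append]
        split_ifs with h
        · simp
        · rw [len] at h
          simpa using (m4 l _ hj ⟨k, by omega⟩ (not_lt.1 h) hk).symm
      have g : IsGreatest {a | ∃ i ∈ W, (List.ofFn (vx ∘ w₀)).take (m l) ++
          List.replicate a dn[l] <+: List.ofFn i} (m (l + 1) - m l) := by
        refine ⟨⟨_, h0, e ▸ List.take_prefix _ _⟩, ?_⟩
        rintro a ⟨i, hi, hp⟩
        have a1 := hp.length_le
        rw [List.length_append, len, List.length_replicate, List.length_ofFn] at a1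
        have pt : ∀ k : Fin n, ∀ h : k.val < m l + a, i k = ((List.ofFn (vx ∘ w₀)).take (m l) ++
            List.replicate a dn[l])[k.val]'(by
              rw [List.length_append, len, List.length_replicate]; exact h) := fun k h => by
          rw [hp.getElem]; simp
        have := up l _ hj i hi (m l + a) a1 (fun k hk => ?_) (fun k h1 h2 => ?_) (by omega)
        · omega
        · rw [pt k (by omega), List.getElem_append_left (by rw [len]; exact hk)]; simp
        · rw [pt k h2, List.getElem_append_right (by rw [len]; exact h1)]; simp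
      have ih' := ih hl'.le
      rw [List.take_succ_eq_append_getElem hl', str, List.foldl_append]
      rw [str] at ih'
      rw [ih', List.foldl_cons, List.foldl_nil, g.csSup_eq, e]
  rw [List.prefix_iff_eq_take.1 hjs, main _ hjs.length_le]
  exact List.take_prefix _ _

end Pool.Agent.P.MP_52ab5a_al
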