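import Pool.Agent.P.MP_52ab5a_al.F.Iface

/-! Step STRC of the open orbit project. -/

namespace Pool.Agent.P.MP_52ab5a_al

open MvPolynomial WM

theorem p_STRC :
    S_STRC := by
  intro Q₀ n W W' i js hW hi
  induction js using List.reverseRecOn with
  | nil => intro _; rfl
  | append_singleton js j ih =>
    intro h
    have e : ∀ X : Set (Fin n → Q₀), str X (js ++ [j]) = str X js ++ List.replicate
        (sSup {a | ∃ i ∈ X, str X js ++ List.replicate a j <+: List.ofFn i}) j := fun X => by
      simp only [str, List.foldl_append, List.foldl_cons, List.foldl_nil]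
    rw [e W] at h
    have ih' := ih ((List.prefix_append _ _).trans h)
    rw [e W, e W', ih']
    have hb : BddAbove {a | ∃ i ∈ W, str W js ++ List.replicate a j <+: List.ofFn i} := by
      refine ⟨n, fun a ⟨i, _, hi⟩ => ?_⟩
      have := hi.length_le
      simp only [List.length_append, List.length_replicate, List.length_ofFn] at this
      omega
    have hs : {a | ∃ i ∈ W', str W js ++ List.replicate a j <+: List.ofFn i} ⊆
        {a | ∃ i ∈ W, str W js ++ List.replicate a j <+: List.ofFn i} :=
      fun a ⟨i, hi, h⟩ => ⟨i, hW hi, h⟩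
    congr 2
    exact le_antisymm (csSup_le_csSup hb ⟨_, i, hi, h⟩ hs) (le_csSup (hb.mono hs) ⟨i, hi, h⟩)

end Pool.Agent.P.MP_52ab5a_al
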