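import Pool.Agent.P.MP_52ab5a_al.F.Iface

/-! Step TRC of the open orbit project. -/

namespace Pool.Agent.P.MP_52ab5a_al

open MvPolynomial WM

namespace TrcAux

variable {α β γ : Type}

/-- The part of degree `r` of a matrix between graded index sets. -/
def part (da : α → ℤ) (db : β → ℤ) (r : ℤ) (M : Matrix α β ℂ) : Matrix α β ℂ :=
  Matrix.of fun i j => if da i - db j = r then M i j else 0

/-- All entries have degree at least `p`. -/
def LB (da : α → ℤ) (db : β → ℤ) (p : ℤ) (M : Matrix α β ℂ) : Prop :=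
  ∀ i j, M i j ≠ 0 → p ≤ da i - db j

theorem ite_sum [Fintype β] (p : Prop) [Decidable p] (f : β → ℂ) :
    (if p then ∑ j, f j else 0) = ∑ j, if p then f j else 0 := by
  split_ifs <;> simp

theorem lb_mul [Fintype β] {da : α → ℤ} {db : β → ℤ} {dc : γ → ℤ} {p q r : ℤ}
    {M : Matrix α β ℂ} {N : Matrix β γ ℂ} (hM : LB da db p M) (hN : LB db dc q N)
    (hr : r = p + q) : LB da dc r (M * N) := by
  intro i k h
  rw [Matrix.mul_apply] at h
  obtain ⟨j, -, hj⟩ := Finset.exists_ne_zero_of_sum_ne_zero h
  have h1 := hM i j (left_ne_zero_of_mul hj)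
  have h2 := hN j k (right_ne_zero_of_mul hj)
  omega

theorem part_mul [Fintype β] {da : α → ℤ} {db : β → ℤ} {dc : γ → ℤ} {p q r : ℤ}
    {M : Matrix α β ℂ} {N : Matrix β γ ℂ} (hM : LB da db p M) (hN : LB db dc q N)
    (hr : r = p + q) : part da dc r (M * N) = part da db p M * part db dc q N := by
  ext i k
  simp only [part, Matrix.of_apply, Matrix.mul_apply]
  rw [ite_sum]
  refine Finset.sum_congr rfl fun j _ => ?_
  by_cases h1 : M i j = 0
  · simp [h1]
  by_cases h2 : N j k = 0
  · simp [h2]
  have h3 := hM i j h1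
  have h4 := hN j k h2
  split_ifs <;> first | rfl | omega | simp

theorem part_mul' [Fintype β] {da : α → ℤ} {db : β → ℤ} {dc : γ → ℤ} {p q p' q' r : ℤ}
    {M : Matrix α β ℂ} {N : Matrix β γ ℂ} (hM : LB da db p M) (hN : LB db dc q N)
    (hp : p' = p + 1) (hq : q' = q + 1) (hr : r = p + q + 1) :
    part da dc r (M * N) = part da db p M * part db dc q' N + part da db p' M * part db dc q N := by
  ext i k
  simp only [part, Matrix.of_apply, Matrix.mul_apply, Matrix.add_apply]
  rw [← Finset.sum_add_distrib, ite_sum]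
  refine Finset.sum_congr rfl fun j _ => ?_
  by_cases h1 : M i j = 0
  · simp [h1]
  by_cases h2 : N j k = 0
  · simp [h2]
  have h3 := hM i j h1
  have h4 := hN j k h2
  split_ifs <;> first | rfl | omega | simp

theorem part_one [DecidableEq α] (d : α → ℤ) : part d d 0 (1 : Matrix α α ℂ) = 1 := by
  ext i j
  by_cases h : i = j
  · subst h; simp [part]
  · simp [part, Matrix.one_apply_ne h]

theorem part_one' [DecidableEq α] (d : α → ℤ) : part d d 1 (1 : Matrix α α ℂ) = 0 := by
  ext i j
  by_cases h : i = j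
  · subst h; simp [part]
  · simp [part, Matrix.one_apply_ne h]

theorem part_pure {da : α → ℤ} {db : β → ℤ} {r : ℤ} {M : Matrix α β ℂ}
    (h : ∀ i j, M i j ≠ 0 → da i - db j = r) : part da db r M = M := by
  ext i j
  by_cases h0 : M i j = 0
  · simp [part, h0]
  · simp [part, h i j h0]

theorem part_pure' {da : α → ℤ} {db : β → ℤ} {r r' : ℤ} {M : Matrix α β ℂ}
    (h : ∀ i j, M i j ≠ 0 → da i - db j = r) (hr : r ≠ r') : part da db r' M = 0 := by
  ext i j
  by_cases h0 : M i j = 0
  · simp [part, h0]
  · simp [part, h i j h0, hr]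

theorem trace_part [Fintype α] (d : α → ℤ) (Z X : Matrix α α ℂ)
    (h : ∀ j k, Z j k ≠ 0 → X k j ≠ 0 → d j = d k) :
    (Z * X).trace = (part d d 0 Z * part d d 0 X).trace := by
  simp only [Matrix.trace, Matrix.diag, Matrix.mul_apply, part, Matrix.of_apply]
  refine Finset.sum_congr rfl fun j _ => Finset.sum_congr rfl fun k _ => ?_
  by_cases h1 : Z j k = 0
  · simp [h1]
  by_cases h2 : X k j = 0
  · simp [h2]
  simp [h j k h1 h2]

theorem key [Fintype α] [Fintype β] [DecidableEq β] [LinearOrder α] (d : α → ℤ) (deg : β → ℤ)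
    (g : Matrix β α ℂ) (h : Matrix α β ℂ) (hgh : g * h = 1) (hg : LB deg d 0 g)
    (hh : LB d deg 0 h) (zs x z : Matrix β β ℂ) (hzs : ∀ b c, zs b c ≠ 0 → deg b - deg c = -1)
    (hx : LB deg deg 0 x) (hz : part deg deg 0 x = z)
    (hX : ∀ k j, (h * x * g) k j ≠ 0 → k < j)
    (hZ : ∀ j k, k < j → d j - d k = -1 → (h * zs * g) j k = 0) :
    (zs * x).trace = (part deg d 1 g * part d deg 0 h * (z * zs - zs * z)).trace := by
  have hzs' : LB deg deg (-1) zs := fun b c hb => (hzs b c hb).ge
  have e0 : (zs * x).trace = ((h * zs * g) * (h * x * g)).trace := by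
    have : (h * zs * g) * (h * x * g) = h * (zs * x * g) := by
      calc (h * zs * g) * (h * x * g) = h * (zs * (g * h) * x * g) := by
            simp only [Matrix.mul_assoc]
        _ = _ := by rw [hgh, Matrix.mul_one]
    rw [this, Matrix.trace_mul_comm h, Matrix.mul_assoc, hgh, Matrix.mul_one]
  have lZ : LB d d (-1) (h * zs * g) := lb_mul (lb_mul hh hzs' rfl) hg (by norm_num)
  have lX : LB d d 0 (h * x * g) := lb_mul (lb_mul hh hx rfl) hg (by norm_num)
  rw [e0, trace_part d _ _ ?_]
  swap
  · intro j k h1 h2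
    have a1 := lZ j k h1
    have a2 := lX k j h2
    by_contra hne
    exact h1 (hZ j k (hX k j h2) (by omega))
  have pX : part d d 0 (h * x * g) = part d deg 0 h * z * part deg d 0 g := by
    rw [part_mul (lb_mul hh hx (r := 0) (by norm_num)) hg (by norm_num),
      part_mul hh hx (by norm_num), hz]
  have pZ : part d d 0 (h * zs * g) =
      part d deg 0 h * zs * part deg d 1 g + part d deg 1 h * zs * part deg d 0 g := by
    rw [part_mul' (p' := 0) (q' := 1) (lb_mul hh hzs' (r := -1) (by norm_num)) hg (by norm_num)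
      (by norm_num) (by norm_num), part_mul hh hzs' (by norm_num),
      part_mul' (p' := 1) (q' := 0) hh hzs' (by norm_num) (by norm_num) (by norm_num),
      part_pure hzs, part_pure' hzs (by norm_num), Matrix.mul_zero, zero_add]
  have g0 : part deg d 0 g * part d deg 0 h = 1 := by
    rw [← part_mul hg hh (r := 0) (by norm_num), hgh, part_one]
  have g1 : part deg d 0 g * part d deg 1 h = -(part deg d 1 g * part d deg 0 h) := by
    rw [eq_neg_iff_add_eq_zero, ← part_mul' hg hh (r := 1) (by norm_num) (by norm_num)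
      (by norm_num), hgh, part_one']
  rw [pX, pZ]
  generalize part deg d 0 g = a0 at *
  generalize part deg d 1 g = a1 at *
  generalize part d deg 0 h = b0 at *
  generalize part d deg 1 h = b1 at *
  have t1 : (b0 * zs * a1 * (b0 * z * a0)).trace = (a1 * b0 * (z * zs)).trace := by
    calc (b0 * zs * a1 * (b0 * z * a0)).trace = (b0 * (zs * (a1 * b0 * z) * a0)).trace := by
          simp only [Matrix.mul_assoc]
      _ = (zs * (a1 * b0 * z)).trace := by
          rw [Matrix.trace_mul_comm b0, Matrix.mul_assoc, g0, Matrix.mul_one]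
      _ = _ := by rw [Matrix.trace_mul_comm zs]; simp only [Matrix.mul_assoc]
  have t2 : (b1 * zs * a0 * (b0 * z * a0)).trace = -(a1 * b0 * (zs * z)).trace := by
    calc (b1 * zs * a0 * (b0 * z * a0)).trace = ((b1 * (zs * (a0 * b0) * z)) * a0).trace := by
          simp only [Matrix.mul_assoc]
      _ = (a0 * b1 * (zs * z)).trace := by
          rw [g0, Matrix.mul_one, Matrix.trace_mul_comm _ a0]; simp only [Matrix.mul_assoc]
      _ = _ := by rw [g1, Matrix.neg_mul, Matrix.trace_neg]
  rw [Matrix.add_mul, Matrix.trace_add, t1, t2, Matrix.mul_sub, Matrix.trace_sub]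
  ring

end TrcAux

open TrcAux in
theorem p_TRC (hADM : S_ADM) (hCELL : S_CELL) :
    S_TRC := by
  classical
  intro Q₀ Q₁ β κ _ _ _ _ _ _ s t vx deg z i w hst hmu hgr q hq hgood
  obtain ⟨hcell, hfix, hq⟩ := hq
  obtain ⟨-, hgh, hg, hh, -, hF, -⟩ := (hCELL Q₀ β κ vx i w).1 _ hcell
  have htr := (hADM Q₀ Q₁ β s t vx).2.2.2.2.2.2.2.2.2.2.2.2.2.2.2.2.2.1
  set g := cols (q ∘ Sum.inl) with hgdef
  set h := cinv w g with hhdef
  have hg' : LB deg (fun k => deg (w k)) 0 g := fun b k hb => by
    have := hgr.sorted b (w k) ((hg b k hb).2.trans (hcell k).1.symm) (hg b k hb).1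
    simp only; omega
  have hh' : LB (fun k => deg (w k)) deg 0 h := fun k b hb => by
    have := hgr.sorted (w k) b ((hcell k).1.trans (hh k b hb).2.symm) (hh k b hb).1
    simp only; omega
  have e1 : phase s t vx deg z q = ∑ p, (z ∘ Sum.inr) p * (q ∘ Sum.inr) p := by
    unfold phase
    refine Finset.sum_congr rfl fun p _ => ?_
    split_ifs with hp
    · by_cases h0 : z (Sum.inr p) = 0
      · simp [h0]
      · have := hgr.supD p h0
        omega
    · rfl
  rw [e1, htr]
  have e2 : ∀ a, ((mat s t vx (z ∘ Sum.inr) a).transpose * mat s t vx (q ∘ Sum.inr) a).trace =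
      (part deg (fun k => deg (w k)) 1 g * part (fun k => deg (w k)) deg 0 h *
        (dbl s t vx z (Sum.inl a) * dbl s t vx z (Sum.inr a) -
          dbl s t vx z (Sum.inr a) * dbl s t vx z (Sum.inl a))).trace := by
    intro a
    refine key (fun k => deg (w k)) deg g h hgh hg' hh' (dbl s t vx z (Sum.inr a))
      (mat s t vx (q ∘ Sum.inr) a) (dbl s t vx z (Sum.inl a)) ?_ ?_ ?_ ?_ ?_
    · intro b c hb
      simp only [dbl, Sum.elim_inr, Matrix.transpose_apply, mat, Matrix.of_apply] at hb
      split_ifs at hb with hc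
      · have := hgr.supD _ hb
        simp only [wtE] at this
        omega
      · exact absurd rfl hb
    · intro c b hb
      simp only [mat, Matrix.of_apply] at hb
      split_ifs at hb with hc
      · by_contra hneg
        have h1 := hq ⟨(a, c, b), hc⟩ (by simp only [wtE]; omega)
        have h2 := hgr.supX ⟨(a, c, b), hc⟩ (h1 ▸ hb)
        simp only [wtE] at h2
        omega
      · exact absurd rfl hb
    · ext c b
      simp only [part, dbl, Sum.elim_inl, mat, Matrix.of_apply]
      by_cases hc : vx c = t a ∧ vx b = s a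
      · simp only [dif_pos hc, Function.comp]
        split_ifs with hd
        · exact hq ⟨(a, c, b), hc⟩ (by simp only [wtE]; omega)
        · by_contra hne
          exact hd (hgr.supX ⟨(a, c, b), hc⟩ (Ne.symm hne))
      · simp [dif_neg hc]
    · intro k j hkj
      rcases lt_trichotomy k j with hl | rfl | hl
      · exact hl
      · exfalso
        rw [Matrix.mul_apply] at hkj
        obtain ⟨b, -, hb⟩ := Finset.exists_ne_zero_of_sum_ne_zero hkj
        have hb1 := left_ne_zero_of_mul hb
        rw [Matrix.mul_apply] at hb1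
        obtain ⟨c, -, hc⟩ := Finset.exists_ne_zero_of_sum_ne_zero hb1
        have a1 := (hg b k (right_ne_zero_of_mul hb)).2
        have a2 := (hh k c (left_ne_zero_of_mul hc)).2
        have a3 := right_ne_zero_of_mul hc
        simp only [mat, Matrix.of_apply] at a3
        split_ifs at a3 with hd
        · exact hst a (by rw [← hd.1, ← hd.2, a1, a2])
        · exact absurd rfl a3
      · exact absurd ((hF _).1 (hfix a) k j hl) hkj
    · intro j k hkj hd
      exact hgood a j k hkj hd
  rw [Finset.sum_congr rfl fun a _ => e2 a, ← Matrix.trace_sum, ← Matrix.mul_sum]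
  have e3 : ∑ a, (dbl s t vx z (Sum.inl a) * dbl s t vx z (Sum.inr a) -
      dbl s t vx z (Sum.inr a) * dbl s t vx z (Sum.inl a)) = 0 := by
    rw [← neg_eq_zero, ← Finset.sum_neg_distrib]
    simpa only [neg_sub, MuZero] using hmu
  rw [e3, Matrix.mul_zero, Matrix.trace_zero]

end Pool.Agent.P.MP_52ab5a_al
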