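import Pool.Agent.P.MP_52ab5a_al.F.Iface
import Pool.Agent.P.MP_52ab5a_al.A.Iface
import Pool.Agent.P.MP_52ab5a_al.K.Iface
import Pool.Agent.P.MP_52ab5a_al.B.Iface

/-! Step UNIQ of the open orbit project. -/

namespace Pool.Agent.P.MP_52ab5a_al

open MvPolynomial WM

theorem p_UNIQ (hPISO : S_PISO) (hMULT : S_MULT) (hDEC : S_DEC) (hPUSH : S_PUSH) (hRESM : S_RESM) (hBOXH : S_BOXH) (hBOXS : S_BOXS) (hBOXM : S_BOXM) (hCLS : S_CLS) (hKAP : S_KAP) (hDIRAC : S_DIRAC) (hINTG : S_INTG) (hREW : S_REW) (hSHC : S_SHC) (hSHUF : S_SHUF) (hINST : S_INST) :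
    S_UNIQ := by
  intro Q₀ Q₁ β κ _ _ _ _ _ _ s t vx deg z L₁ L₂ i₁ i₂ hR hG h1s h1h h2s h2h hm1 hm2 hk1 hk2
  classical
  by_contra hniso
  obtain ⟨hAs, hAi⟩ := hBOXS _ _ L₁ L₂ h1s h1h h2s h2h
  have hB := hBOXH _ _ L₁ L₂
  have hAh : (L₁.box L₂).Holo := hB.2.1 h1h h2h
  have hswap : ¬Iso (L₁.box L₂) ((L₁.box L₂).res (Equiv.sumComm _ _)) := fun h =>
    hniso (hAi L₂ L₁ h2s h2h h1s h1h
      ((hPISO _ Set.univ).2.2.1 _ _ _ _ _ _ _ _ _ h hB.2.2.1)).1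
  have ha1 : Additive L₁.mult := (hMULT _ L₁ h1s).1
  have ha2 : Additive L₂.mult := (hMULT _ L₂ h2s).1
  have haA : Additive (L₁.box L₂).mult := (hMULT _ _ hAs).1
  set n := Fintype.card β with hn
  have hne : ∀ (L : WM (Ent s t vx)) (i : κ → Q₀), Additive L.mult →
      intg L.mult (flagBundle s t vx i) ≠ 0 →
      ∃ j : Fin n → Q₀, intg L.mult (flagBundle s t vx j) ≠ 0 := by
    intro L i ha h
    rw [(hREW Q₀ Q₁ β κ s t vx n _ ha rfl).1 i, extW] at h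
    split_ifs at h with hc
    · exact ⟨_, h⟩
    · exact absurd rfl h
  obtain ⟨i, hi⟩ := hSHC Q₀ n (fun j => intg L₁.mult (flagBundle s t vx j))
    (fun j => intg L₂.mult (flagBundle s t vx j)) (hREW Q₀ Q₁ β (Fin n) s t vx n _ ha1 rfl).2
    (hREW Q₀ Q₁ β (Fin n) s t vx n _ ha2 rfl).2 (hne L₁ i₁ ha1 hm1) (hne L₂ i₂ ha2 hm2)
  let o := (Fintype.equivFin (Ent s t vx ⊕ Ent s t vx)).symm
  let e := (Equiv.sumCongr o (Equiv.refl (Ent s t vx ⊕ Ent s t vx))).trans (entEquiv s t vx)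
  have hsh := hSHUF Q₀ Q₁ β (Fin (n + n)) _ s t vx o i _ _ _ haA ha1 ha2
    (hBOXM _ _ L₁ L₂ h1s h1h h2s h2h)
  have hT : intg (fun N B Z => push Sum.inr (L₁.box L₂).mult (N.res e) B Z)
      (flagBundle s t (vx2 vx) i) ≠ 0 := by
    rw [hsh]
    refine fun h => hi (Eq.trans (Finset.sum_congr rfl fun c _ => ?_) h)
    rw [(hREW Q₀ Q₁ β {k // k ∈ c} s t vx n _ ha1 rfl).1,
      (hREW Q₀ Q₁ β {k // k ∉ c} s t vx n _ ha2 rfl).1]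
  have hψ : Additive fun (N : WM (Ent s t (vx2 vx))) B Z =>
      push Sum.inr (L₁.box L₂).mult (N.res e) B Z :=
    (hRESM _ _ e).2.2.2.2.2.2 _ ((hPUSH _ _ Sum.inr Sum.inr_injective).1 _ haA)
  obtain ⟨m, M, hM, -, hsum, -⟩ := (hDEC (Ent s t (vx2 vx))).1 _
    ((hCLS (Ent s t (vx2 vx))).2.2.2.2.2.2 _ (flagBundle s t (vx2 vx) i))
  rw [hsum _ hψ] at hT
  obtain ⟨j, -, hj⟩ := Finset.exists_ne_zero_of_sum_ne_zero hT
  have hLF := hINTG Q₀ Q₁ _ _ s t (vx2 vx) i (M j) (hM j).1 (hM j).2 (left_ne_zero_of_mul hj)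
  obtain ⟨S, hY, hw, hτ, hL⟩ := hINST Q₀ Q₁ β _ s t vx o deg z hR hG
  refine right_ne_zero_of_mul hj (hDIRAC _ _ S ((M j).res e) (L₁.box L₂)
    ((hRESM _ _ e).2.2.1 _ (hM j).1) ((hRESM _ _ e).2.2.2.1 _ _ _ (hM j).2) (hL _ hLF) hAs hAh ?_
    (by rw [hτ]; exact hswap))
  rw [hY, hw, (hKAP _ (wtE s t vx deg) z).2.2.2.2 _ (wtE s t vx deg) z L₁ L₂ h1h h2h]
  exact mul_ne_zero hk1 hk2

end Pool.Agent.P.MP_52ab5a_al
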