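import Pool.Agent.P.MP_52ab5a_al.B.Iface

/-! Flags and quiver representations: definitions and statements. -/

namespace Pool.Agent.P.MP_52ab5a_al

open MvPolynomial WM

section

variable {Q₀ Q₁ β κ : Type}

/-- Matrices preserving each summand `V i`. -/
def Gd (vx : β → Q₀) (γ : Matrix β β ℂ) : Prop := ∀ c b, vx c ≠ vx b → γ c b = 0

/-- A pair of mutually inverse graded matrices. -/
structure GInv [Fintype β] [DecidableEq β] (vx : β → Q₀) (γ δ : Matrix β β ℂ) : Prop where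
  gd : Gd vx γ
  gd' : Gd vx δ
  mul : γ * δ = 1
  mul' : δ * γ = 1

/-- The inverse of a matrix of a cell, with polynomial entries. -/
noncomputable def cinv [Fintype κ] [LinearOrder κ] (w : κ ≃ β) (g : Matrix β κ ℂ) : Matrix κ β ℂ :=
  (g.submatrix w id).adjugate.submatrix id w.symm

variable [DecidableEq Q₀] (s t : Q₁ → Q₀) (vx : β → Q₀)

open Classical in
/-- The matrix of `x ↦ γ x δ` on representations. -/
noncomputable def Adm (γ δ : Matrix β β ℂ) : Matrix (Ent s t vx) (Ent s t vx) ℂ :=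
  Matrix.of fun p q => if p.1.1 = q.1.1 then γ p.1.2.1 q.1.2.1 * δ q.1.2.2 p.1.2.2 else 0

/-- The matrix of `x ↦ ξ x - x ξ` on representations. -/
noncomputable def adm [DecidableEq β] (ξ : Matrix β β ℂ) : Matrix (Ent s t vx) (Ent s t vx) ℂ :=
  Adm s t vx ξ 1 - Adm s t vx 1 ξ

/-- The Lie algebra of the base change group acting on representations. -/
noncomputable def gl [DecidableEq β] : Submodule ℂ (Matrix (Ent s t vx) (Ent s t vx) ℂ) :=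
  Submodule.span ℂ {A | ∃ ξ, Gd vx ξ ∧ A = adm s t vx ξ}

/-- The weight of an entry. -/
def wtE (deg : β → ℤ) (p : Ent s t vx) : ℤ := deg p.1.2.1 - deg p.1.2.2

/-- The doubled vertex map. -/
def vx2 (b : β ⊕ₗ β) : Q₀ := Sum.elim vx vx (ofLex b)

/-- The four blocks of a representation on `V ⊕ V`: first the two off diagonal blocks. -/
def entEquiv : (Ent s t vx ⊕ Ent s t vx) ⊕ Ent s t vx ⊕ Ent s t vx ≃ Ent s t (vx2 vx) where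
  toFun := Sum.elim
    (Sum.elim (fun p => ⟨(p.1.1, toLex (Sum.inl p.1.2.1), toLex (Sum.inr p.1.2.2)), p.2⟩)
      fun p => ⟨(p.1.1, toLex (Sum.inr p.1.2.1), toLex (Sum.inl p.1.2.2)), p.2⟩)
    (Sum.elim (fun p => ⟨(p.1.1, toLex (Sum.inl p.1.2.1), toLex (Sum.inl p.1.2.2)), p.2⟩)
      fun p => ⟨(p.1.1, toLex (Sum.inr p.1.2.1), toLex (Sum.inr p.1.2.2)), p.2⟩)
  invFun
    | ⟨(a, Sum.inl c, Sum.inr b), h⟩ => Sum.inl (Sum.inl ⟨(a, c, b), h⟩)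
    | ⟨(a, Sum.inr c, Sum.inl b), h⟩ => Sum.inl (Sum.inr ⟨(a, c, b), h⟩)
    | ⟨(a, Sum.inl c, Sum.inl b), h⟩ => Sum.inr (Sum.inl ⟨(a, c, b), h⟩)
    | ⟨(a, Sum.inr c, Sum.inr b), h⟩ => Sum.inr (Sum.inr ⟨(a, c, b), h⟩)
  left_inv := by rintro ((p | p) | (p | p)) <;> rfl
  right_inv := by rintro ⟨⟨a, c | c, b | b⟩, h⟩ <;> rfl

variable [Fintype Q₁] [Fintype β]

/-- The preprojective relation. -/
def MuZero (y : Ent s t vx ⊕ Ent s t vx → ℂ) : Prop :=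
  ∑ a, (dbl s t vx y (Sum.inr a) * dbl s t vx y (Sum.inl a) -
    dbl s t vx y (Sum.inl a) * dbl s t vx y (Sum.inr a)) = 0

/-- The linearised preprojective relation. -/
def DMu (y v : Ent s t vx ⊕ Ent s t vx → ℂ) : Prop :=
  ∑ a, (dbl s t vx v (Sum.inr a) * dbl s t vx y (Sum.inl a) +
    dbl s t vx y (Sum.inr a) * dbl s t vx v (Sum.inl a) -
    dbl s t vx v (Sum.inl a) * dbl s t vx y (Sum.inr a) -
    dbl s t vx y (Sum.inl a) * dbl s t vx v (Sum.inr a)) = 0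

/-- Tangent vectors to the orbit. -/
def Tang (y v : Ent s t vx ⊕ Ent s t vx → ℂ) : Prop :=
  ∃ ξ, Gd vx ξ ∧ ∀ a, dbl s t vx v a = ξ * dbl s t vx y a - dbl s t vx y a * ξ

/-- Rigid modules: every self extension splits. -/
def RigM (y : Ent s t vx ⊕ Ent s t vx → ℂ) : Prop :=
  MuZero s t vx y ∧ ∀ v, DMu s t vx y v → Tang s t vx y v

/-- `γ` is a homomorphism of modules from `y` to `z`. -/
def Intw (γ : Matrix β β ℂ) (y z : Ent s t vx ⊕ Ent s t vx → ℂ) : Prop :=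
  ∀ a, γ * dbl s t vx y a = dbl s t vx z a * γ

/-- A graded module with a basis sorted by degree. -/
structure Graded [LinearOrder β] (deg : β → ℤ) (z : Ent s t vx ⊕ Ent s t vx → ℂ) : Prop where
  sorted : ∀ b c, vx b = vx c → b ≤ c → deg c ≤ deg b
  supX : ∀ p, z (Sum.inl p) ≠ 0 → wtE s t vx deg p = 0
  supD : ∀ p, z (Sum.inr p) ≠ 0 → wtE s t vx deg p = 1

variable [LinearOrder β] [Fintype κ] [LinearOrder κ]

/-- Flags in a cell with a representation on the attracting set of `z`. -/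
def attr (deg : β → ℤ) (z : Ent s t vx ⊕ Ent s t vx → ℂ) (i : κ → Q₀) (w : κ ≃ β) :
    Set ((β ×ₗ κ) ⊕ Ent s t vx → ℂ) :=
  {q | Cell vx i w (cols (q ∘ Sum.inl)) ∧
    (∀ a, Fixes (mat s t vx (q ∘ Sum.inr) a) (cols (q ∘ Sum.inl))) ∧
    ∀ p, wtE s t vx deg p ≤ 0 → q (Sum.inr p) = z (Sum.inl p)}

/-- The limit flag is preserved by the arrows `a*`. -/
def GoodF (deg : β → ℤ) (z : Ent s t vx ⊕ Ent s t vx → ℂ) (w : κ ≃ β) (g : Matrix β κ ℂ) : Prop :=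
  ∀ a j k, k < j → deg (w j) - deg (w k) = -1 → (cinv w g * dbl s t vx z (Sum.inr a) * g) j k = 0

/-- The phase function. -/
noncomputable def phase (deg : β → ℤ) (z : Ent s t vx ⊕ Ent s t vx → ℂ)
    (q : (β ×ₗ κ) ⊕ Ent s t vx → ℂ) : ℂ :=
  ∑ p, if wtE s t vx deg p ≤ 0 then 0 else z (Sum.inr p) * q (Sum.inr p)

end

/-- A function on words of length `n`, extended to words indexed by a finite linear order. -/
noncomputable def extW {Q₀ : Type} {n : ℕ} (c : (Fin n → Q₀) → ℤ) (κ : Type) [Fintype κ]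
    [LinearOrder κ] (i : κ → Q₀) : ℤ :=
  if h : Fintype.card κ = n then c (i ∘ Fintype.orderIsoFinOfCardEq κ h) else 0

/-- A family of matrices with polynomial entries, each mapping one summand to another one. -/
structure Fam {Q₀ β σ α : Type} (vx : β → Q₀) (A : α → (σ → ℂ) → Matrix β β ℂ) : Prop where
  poly : ∀ a c b, PolyFn fun x => A a x c b
  off : ∀ a, ∃ u u', u ≠ u' ∧ ∀ x c b, A a x c b ≠ 0 → vx c = u' ∧ vx b = u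

/-- Flags of a cell preserved by a family of matrices. -/
def cellSet {Q₀ β κ σ α : Type} [Fintype β] [LinearOrder β] [LinearOrder κ] (vx : β → Q₀)
    (i : κ → Q₀) (A : α → (σ → ℂ) → Matrix β β ℂ) (w : κ ≃ β) : Set ((β ×ₗ κ) ⊕ σ → ℂ) :=
  {z | Cell vx i w (cols (z ∘ Sum.inl)) ∧ ∀ a, Fixes (A a (z ∘ Sum.inr)) (cols (z ∘ Sum.inl))}

-- deps:
def S_ADM : Prop := ∀ (Q₀ Q₁ β : Type) [DecidableEq Q₀] [DecidableEq Q₁] [Fintype Q₁] [Fintype β]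
  [LinearOrder β] (s t : Q₁ → Q₀) (vx : β → Q₀),
    (∀ A, A ∈ gl s t vx ↔ ∃ ξ, Gd vx ξ ∧ A = adm s t vx ξ) ∧
    (∀ x x', (∀ a, mat s t vx x a = mat s t vx x' a) → x = x') ∧
    (∀ y y', (∀ a, dbl s t vx y a = dbl s t vx y' a) → y = y') ∧
    (∀ A : Q₁ → Matrix β β ℂ, (∀ a c b, A a c b ≠ 0 → vx c = t a ∧ vx b = s a) →
      ∃ x, ∀ a, mat s t vx x a = A a) ∧
    (∀ A : Q₁ ⊕ Q₁ → Matrix β β ℂ,
      (∀ a c b, A a c b ≠ 0 → vx c = Sum.elim t s a ∧ vx b = Sum.elim s t a) →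
      ∃ y, ∀ a, dbl s t vx y a = A a) ∧
    (∀ y a c b, dbl s t vx y a c b ≠ 0 → vx c = Sum.elim t s a ∧ vx b = Sum.elim s t a) ∧
    (∀ x x' (c : ℂ) a, mat s t vx (x + x') a = mat s t vx x a + mat s t vx x' a ∧
      mat s t vx (c • x) a = c • mat s t vx x a) ∧
    (∀ y y' (c : ℂ) a, dbl s t vx (y + y') a = dbl s t vx y a + dbl s t vx y' a ∧
      dbl s t vx (c • y) a = c • dbl s t vx y a) ∧
    (∀ γ δ x a, Gd vx γ → Gd vx δ →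
      mat s t vx ((Adm s t vx γ δ).mulVec x) a = γ * mat s t vx x a * δ) ∧
    (∀ ξ x a, Gd vx ξ →
      mat s t vx ((adm s t vx ξ).mulVec x) a = ξ * mat s t vx x a - mat s t vx x a * ξ) ∧
    (∀ γ δ γ' δ', Gd vx γ → Gd vx δ → Gd vx γ' → Gd vx δ' →
      Adm s t vx γ δ * Adm s t vx γ' δ' = Adm s t vx (γ * γ') (δ' * δ)) ∧
    Adm s t vx 1 1 = 1 ∧ IsLie (gl s t vx) ∧
    (∀ ξ η (c : ℂ), adm s t vx (ξ + η) = adm s t vx ξ + adm s t vx η ∧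
      adm s t vx (c • ξ) = c • adm s t vx ξ) ∧
    (∀ γ δ ξ, GInv vx γ δ → Gd vx ξ →
      Adm s t vx γ δ * adm s t vx ξ * Adm s t vx δ γ = adm s t vx (γ * ξ * δ)) ∧
    (∀ deg, adm s t vx (dg deg) = dg (wtE s t vx deg)) ∧
    (∀ a b : β → ℂ, Adm s t vx (Matrix.diagonal a) (Matrix.diagonal b) =
      Matrix.diagonal fun p => a p.1.2.1 * b p.1.2.2) ∧
    (∀ x y : Ent s t vx → ℂ,
      ∑ p, y p * x p = ∑ a, ((mat s t vx y a).transpose * mat s t vx x a).trace) ∧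
    (∀ ξ y a, Gd vx ξ →
      dbl s t vx (hv (adm s t vx ξ) y) a = ξ * dbl s t vx y a - dbl s t vx y a * ξ) ∧
    ∀ γ : Matrix β β ℂ, IsUnit γ → Gd vx γ → ∃ δ, GInv vx γ δ

-- deps: ADM VF
def S_RIGQ : Prop := ∀ (Q₀ Q₁ β : Type) [DecidableEq Q₀] [Fintype Q₁] [Fintype β]
  [LinearOrder β] (s t : Q₁ → Q₀) (vx : β → Q₀) (y : Ent s t vx ⊕ Ent s t vx → ℂ),
    (RigM s t vx y → Rigid (gl s t vx) y) ∧
    ∀ γ δ z, GInv vx γ δ → Intw s t vx γ y z → (RigM s t vx y → RigM s t vx z) ∧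
      (y ∈ nilVar s t vx → z ∈ nilVar s t vx) ∧ orbit s t vx y = orbit s t vx z

-- deps:
def S_CELL : Prop := ∀ (Q₀ β κ : Type) [Fintype β] [LinearOrder β] [Fintype κ] [LinearOrder κ]
  (vx : β → Q₀) (i : κ → Q₀) (w : κ ≃ β),
    (∀ g, Cell vx i w g → cinv w g * g = 1 ∧ g * cinv w g = 1 ∧
      (∀ b k, g b k ≠ 0 → b ≤ w k ∧ vx b = i k) ∧
      (∀ k b, cinv w g k b ≠ 0 → w k ≤ b ∧ vx b = i k) ∧ (∀ w', Cell vx i w' g → w' = w) ∧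
      (∀ A, Fixes A g ↔ ∀ j k, k < j → (cinv w g * A * g) j k = 0) ∧
      ∀ h : Matrix β κ ℂ, (∃ h' : Matrix κ β ℂ, h' * h = 1) →
        ((∀ k, step h k = step g k) ↔ ∀ j k, k < j → (cinv w g * h) j k = 0)) ∧
    (∀ (γ δ A : Matrix β β ℂ) (g : Matrix β κ ℂ), γ * δ = 1 →
      (Fixes (γ * A * δ) (γ * g) ↔ Fixes A g)) ∧
    (∀ (g : Matrix β κ ℂ) (d : κ → ℂ), (∀ k, d k ≠ 0) →
      ∀ k, step (g * Matrix.diagonal d) k = step g k) ∧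
    ∀ (ι : Type) (g : (ι → ℂ) → Matrix β κ ℂ), (∀ b k, PolyFn fun x => g x b k) →
      (∀ k b, PolyFn fun x => cinv w (g x) k b) ∧ Con {x | Cell vx i w (g x)} ∧
      ∀ (α : Type) [Finite α] (A : α → (ι → ℂ) → Matrix β β ℂ),
        (∀ a c b, PolyFn fun x => A a x c b) →
        Con {x | Cell vx i w (g x) ∧ ∀ a, Fixes (A a x) (g x)} ∧
          Con {x | Echelon vx i (g x) ∧ ∀ a, Fixes (A a x) (g x)}

-- deps: CELL
def S_NF : Prop := ∀ (Q₀ β κ : Type) [Fintype β] [LinearOrder β] [Fintype κ] [LinearOrder κ]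
  (vx : β → Q₀) (i : κ → Q₀) (h : Matrix β κ ℂ), (∃ h' : Matrix κ β ℂ, h' * h = 1 ∧ h * h' = 1) →
    (∀ b k, h b k ≠ 0 → vx b = i k) → ∃! g, Echelon vx i g ∧ ∀ k, step g k = step h k

-- deps: ADM CELL NF TRANS FUB CHI BR
def S_GINV : Prop := ∀ (Q₀ Q₁ β κ : Type) [DecidableEq Q₀] [DecidableEq Q₁] [Fintype Q₁] [Fintype β]
  [LinearOrder β] [Fintype κ] [LinearOrder κ] (s t : Q₁ → Q₀) (vx : β → Q₀) (i : κ → Q₀),
    Con (flagBundle s t vx i) ∧ ∀ γ δ, GInv vx γ δ →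
      (∀ y z, Intw s t vx γ y z → flagChi s t vx i y = flagChi s t vx i z ∧
        (i ∈ types s t vx κ y ↔ i ∈ types s t vx κ z)) ∧
      ∀ φ : Fn (Ent s t vx), Additive φ →
        intg (fun N B Z => φ (N.aff (Adm s t vx γ δ) (Adm s t vx δ γ) 0) B Z) (flagBundle s t vx i) =
          intg φ (flagBundle s t vx i)

-- deps: VF DIAG
def S_PBW : Prop := ∀ (σ : Type) [Fintype σ] (N : WM σ) (g : Submodule ℂ (Matrix σ σ ℂ))
  (α : Type) [Finite α] (π : α → Matrix σ σ ℂ), N.IsW → Nontrivial N.V → IsLie g →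
    Submodule.span ℂ (Set.range π) = g → (∀ j, Diag (N.vf (π j))) → LocFin N g

-- deps: PISO MULT DEC INT AFFM CLS VF ADM GINV PBW
def S_INTG : Prop := ∀ (Q₀ Q₁ β κ : Type) [DecidableEq Q₀] [Fintype Q₁] [Fintype β]
  [LinearOrder β] [Fintype κ] [LinearOrder κ] (s t : Q₁ → Q₀) (vx : β → Q₀) (i : κ → Q₀)
  (L : WM (Ent s t vx)), L.Simple → L.Holo → intg L.mult (flagBundle s t vx i) ≠ 0 →
    LocFin L (gl s t vx)

-- deps: CELL TRANS LINE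
def S_SWAP : Prop := ∀ (Q₀ β κ σ α : Type) [Fintype β] [LinearOrder β] [Fintype κ] [LinearOrder κ]
  [Fintype σ] [Finite α] (vx : β → Q₀) (i : κ → Q₀) (A : α → (σ → ℂ) → Matrix β β ℂ) (w : κ ≃ β)
  (k k' : κ) (φ : Fn σ), Fam vx A → k ⋖ k' → i k = i k' → w k < w k' → Additive φ →
    intg φ (cellSet vx i A ((Equiv.swap k k').trans w)) = intg φ (cellSet vx i A w)

-- deps:
def S_DIV : Prop := ∀ (κ : Type) [Fintype κ] [LinearOrder κ] (blk : κ → ℕ), Monotone blk →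
  ∃ H : ℤ, 0 < H ∧ ∀ (β : Type) [Fintype β] [LinearOrder β] (c : (κ ≃ β) → ℤ),
    (∀ w k k', k ⋖ k' → blk k = blk k' → w k < w k' → c ((Equiv.swap k k').trans w) = c w) →
    ∑ w, c w = H * ∑ w ∈ Finset.univ.filter
      (fun w : κ ≃ β => ∀ k k', blk k = blk k' → k < k' → w k < w k'), c w

-- deps:
def S_BASIS : Prop := ∀ (Q₀ β : Type) [DecidableEq Q₀] [Fintype β] [LinearOrder β] (vx : β → Q₀)
  (U : ℤ → Submodule ℂ (β → ℂ)), iSupIndep U → ⨆ d, U d = ⊤ →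
    (∀ d, ∀ v ∈ U d, ∀ u, (fun b => if vx b = u then v b else 0) ∈ U d) →
    ∃ (γ δ : Matrix β β ℂ) (deg : β → ℤ), GInv vx γ δ ∧
      (∀ b c, vx b = vx c → b ≤ c → deg c ≤ deg b) ∧
      ∀ d v, v ∈ U d ↔ ∀ b, deg b ≠ d → γ.mulVec v b = 0

-- deps: ADM BASIS
def S_GRAD : Prop := ∀ (Q₀ Q₁ β : Type) [DecidableEq Q₀] [Fintype Q₁] [Fintype β]
  [LinearOrder β] (s t : Q₁ → Q₀) (vx : β → Q₀) (y : Ent s t vx ⊕ Ent s t vx → ℂ),
    RigM s t vx y → ∃ γ δ z deg, GInv vx γ δ ∧ Intw s t vx γ y z ∧ Graded s t vx deg z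

-- deps: ADM BASIS
def S_SOC : Prop := ∀ (Q₀ Q₁ β : Type) [DecidableEq Q₀] [Fintype Q₁] [Fintype β]
  [LinearOrder β] (s t : Q₁ → Q₀) (vx : β → Q₀) (y : Ent s t vx ⊕ Ent s t vx → ℂ),
    y ∈ nilVar s t vx →
    (Nonempty β → ∃ (j : Q₀) (v : β → ℂ), v ≠ 0 ∧ (∀ c, vx c ≠ j → v c = 0) ∧
      ∀ a, (dbl s t vx y a).mulVec v = 0) ∧
    ∀ js : List Q₀, ∃ (γ δ : Matrix β β ℂ) (z : _) (lev : β → ℕ) (dn : List Q₀), GInv vx γ δ ∧
      Intw s t vx γ y z ∧ js <+: dn ∧ (∀ b, dn[lev b]? = some (vx b)) ∧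
      ∀ l j, dn[l]? = some j → ∀ v : β → ℂ, (∀ c, vx c ≠ j → v c = 0) →
        ((∀ a c, l ≤ lev c → (dbl s t vx z a).mulVec v c = 0) ↔ ∀ c, l < lev c → v c = 0)

-- deps: CELL
def S_STRA : Prop := ∀ (Q₀ β κ α : Type) [Fintype β] [LinearOrder β] [Fintype κ] [LinearOrder κ]
  (vx : β → Q₀) (A : α → Matrix β β ℂ) (lev : β → ℕ), Fintype.card κ = Fintype.card β →
    (∀ a, ∃ u u', u ≠ u' ∧ ∀ c b, A a c b ≠ 0 → vx c = u' ∧ vx b = u) →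
    (∀ b c, lev b = lev c → vx b = vx c) →
    (∀ b (v : β → ℂ), (∀ c, vx c ≠ vx b → v c = 0) →
      ((∀ a c, lev b ≤ lev c → (A a).mulVec v c = 0) ↔ ∀ c, lev b < lev c → v c = 0)) →
    ∃ w₀ : κ ≃ β, Monotone (lev ∘ w₀) ∧
      (∀ k k', lev (w₀ k) = lev (w₀ k') → k < k' → w₀ k < w₀ k') ∧
      ∃ g₀ : Matrix β κ ℂ, ∀ w : κ ≃ β, (∀ k k', lev (w₀ k) = lev (w₀ k') → k < k' → w k < w k') →
        ∀ g, (Cell vx (vx ∘ w₀) w g ∧ ∀ a, Fixes (A a) g) ↔ w = w₀ ∧ g = g₀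

-- deps: CELL
def S_STRB : Prop := ∀ (Q₀ β α : Type) [Fintype β] [LinearOrder β] (n : ℕ) (vx : β → Q₀)
  (A : α → Matrix β β ℂ) (lev : β → ℕ) (dn : List Q₀) (w₀ : Fin n ≃ β),
    (∀ a, ∃ u u', u ≠ u' ∧ ∀ c b, A a c b ≠ 0 → vx c = u' ∧ vx b = u) →
    (∀ b, dn[lev b]? = some (vx b)) →
    (∀ l j, dn[l]? = some j → ∀ v : β → ℂ, (∀ c, vx c ≠ j → v c = 0) →
      ((∀ a c, l ≤ lev c → (A a).mulVec v c = 0) ↔ ∀ c, l < lev c → v c = 0)) →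
    Monotone (lev ∘ w₀) → (∃ g, Echelon vx (vx ∘ w₀) g ∧ ∀ a, Fixes (A a) g) →
    ∀ js, js <+: dn → str {i : Fin n → Q₀ | ∃ g, Echelon vx i g ∧ ∀ a, Fixes (A a) g} js <+:
      List.ofFn (vx ∘ w₀)

-- deps:
def S_STRC : Prop := ∀ (Q₀ : Type) (n : ℕ) (W W' : Set (Fin n → Q₀)) (i : Fin n → Q₀)
  (js : List Q₀), W' ⊆ W → i ∈ W' → str W js <+: List.ofFn i → str W' js = str W js

-- deps: DIM PUSH CLS CHI BR ADM CELL GINV SWAP DIV SOC STRA STRB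
def S_STR : Prop := ∀ (Q₀ Q₁ β : Type) [DecidableEq Q₀] [Fintype Q₁] [Fintype β]
  [LinearOrder β] (n : ℕ) (s t : Q₁ → Q₀) (vx : β → Q₀)
  (y : Ent s t vx ⊕ Ent s t vx → ℂ) (js : List Q₀), (∀ a, s a ≠ t a) → Fintype.card β = n →
    y ∈ nilVar s t vx → ∃ (i : Fin n → Q₀) (H : ℤ), 0 < H ∧ flagChi s t vx i y = H ∧
      str (types s t vx (Fin n) y) js <+: List.ofFn i ∧
      ∀ φ : Fn (Ent s t vx), Additive φ → H ∣ intg φ (flagBundle s t vx i)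

-- deps: ADM CELL
def S_TRC : Prop := ∀ (Q₀ Q₁ β κ : Type) [DecidableEq Q₀] [Fintype Q₁] [Fintype β]
  [LinearOrder β] [Fintype κ] [LinearOrder κ] (s t : Q₁ → Q₀) (vx : β → Q₀) (deg : β → ℤ)
  (z : Ent s t vx ⊕ Ent s t vx → ℂ) (i : κ → Q₀) (w : κ ≃ β), (∀ a, s a ≠ t a) →
    MuZero s t vx z → Graded s t vx deg z → ∀ q ∈ attr s t vx deg z i w,
      GoodF s t vx deg z w (cols (q ∘ Sum.inl)) → phase s t vx deg z q = 0

-- deps: ADM CELL ECH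
def S_ABAD : Prop := ∀ (Q₀ Q₁ β κ : Type) [DecidableEq Q₀] [Fintype Q₁] [Fintype β]
  [LinearOrder β] [Fintype κ] [LinearOrder κ] (s t : Q₁ → Q₀) (vx : β → Q₀) (deg : β → ℤ)
  (z : Ent s t vx ⊕ Ent s t vx → ℂ) (i : κ → Q₀) (w : κ ≃ β), Graded s t vx deg z →
    Con (attr s t vx deg z i w) ∧
    Con {q : (β ×ₗ κ) ⊕ Ent s t vx → ℂ | GoodF s t vx deg z w (cols (q ∘ Sum.inl))} ∧
    PolyFn (phase (κ := κ) s t vx deg z) ∧
    ech (attr s t vx deg z i w \ {q | GoodF s t vx deg z w (cols (q ∘ Sum.inl))})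
      (phase s t vx deg z) = 0

-- deps: ADM CELL CHI ABAD
def S_AGOOD : Prop := ∀ (Q₀ Q₁ β κ : Type) [DecidableEq Q₀] [Fintype Q₁] [Fintype β]
  [LinearOrder β] [Fintype κ] [LinearOrder κ] (s t : Q₁ → Q₀) (vx : β → Q₀) (deg : β → ℤ)
  (z : Ent s t vx ⊕ Ent s t vx → ℂ) (i : κ → Q₀) (w : κ ≃ β), Graded s t vx deg z →
    chi' (attr s t vx deg z i w ∩ {q | GoodF s t vx deg z w (cols (q ∘ Sum.inl))}) =
      chi' {g : β ×ₗ κ → ℂ | Cell vx i w (cols g) ∧ ∀ a, Fixes (dbl s t vx z a) (cols g)}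

-- deps: CELL CHI ECH ALINK BR GINV TRC ABAD AGOOD
def S_STEPA : Prop := ∀ (Q₀ Q₁ β κ : Type) [DecidableEq Q₀] [Fintype Q₁] [Fintype β]
  [LinearOrder β] [Fintype κ] [LinearOrder κ] (s t : Q₁ → Q₀) (vx : β → Q₀) (deg : β → ℤ)
  (z : Ent s t vx ⊕ Ent s t vx → ℂ) (i : κ → Q₀), (∀ a, s a ≠ t a) →
    MuZero s t vx z → Graded s t vx deg z →
    intg (kap (wtE s t vx deg) z) (flagBundle s t vx i) =
      (-1) ^ (Finset.univ.filter fun p => wtE s t vx deg p ≤ 0).card * flagChi s t vx i z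

-- deps: PUSH CLS TRANS GINV
def S_REW : Prop := ∀ (Q₀ Q₁ β κ : Type) [DecidableEq Q₀] [Fintype Q₁] [Fintype β]
  [LinearOrder β] [Fintype κ] [LinearOrder κ] (s t : Q₁ → Q₀) (vx : β → Q₀) (n : ℕ)
  (φ : Fn (Ent s t vx)), Additive φ → Fintype.card β = n →
    (∀ i : κ → Q₀, intg φ (flagBundle s t vx i) =
      extW (fun j : Fin n → Q₀ => intg φ (flagBundle s t vx j)) κ i) ∧
    {i : κ → Q₀ | intg φ (flagBundle s t vx i) ≠ 0}.Finite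

-- deps:
def S_SHC : Prop := ∀ (Q₀ : Type) (n : ℕ) (c₁ c₂ : (Fin n → Q₀) → ℤ), {i | c₁ i ≠ 0}.Finite →
  {i | c₂ i ≠ 0}.Finite → (∃ i, c₁ i ≠ 0) → (∃ i, c₂ i ≠ 0) → ∃ i : Fin (n + n) → Q₀,
    ∑ c : Finset (Fin (n + n)), extW c₁ {k // k ∈ c} (i ∘ Subtype.val) *
      extW c₂ {k // k ∉ c} (i ∘ Subtype.val) ≠ 0

/-- The flags of `V ⊕ V` whose pivots lie in the first summand exactly at the places in `c`, in the
coordinates of the blocks. -/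
def shufSet {Q₀ Q₁ β κ ν : Type} [DecidableEq Q₀] [Fintype β] [LinearOrder β] [LinearOrder κ]
    (s t : Q₁ → Q₀) (vx : β → Q₀) (o : ν ≃ Ent s t vx ⊕ Ent s t vx) (i : κ → Q₀) (c : Finset κ) :
    Set ((((β ⊕ₗ β) ×ₗ κ) ⊕ ν) ⊕ Ent s t vx ⊕ Ent s t vx → ℂ) :=
  {z | (∃ w : κ ≃ β ⊕ₗ β, (∀ k, k ∈ c ↔ (ofLex (w k)).isLeft = true) ∧
      Cell (vx2 vx) i w (cols (z ∘ Sum.inl ∘ Sum.inl))) ∧
    ∀ a, Fixes (mat s t (vx2 vx) (Sum.elim (z ∘ Sum.inl ∘ Sum.inr) (z ∘ Sum.inr) ∘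
      ((Equiv.sumCongr o (Equiv.refl _)).trans (entEquiv s t vx)).symm) a)
      (cols (z ∘ Sum.inl ∘ Sum.inl))}

/-- The weights of the torus scaling the first summand, on the coordinates of `shufSet`. -/
def shufWt {E β κ ν : Type} [DecidableEq κ] (o : ν ≃ E ⊕ E) (c : Finset κ) :
    ((β ⊕ₗ β) ×ₗ κ) ⊕ ν → ℤ :=
  Sum.elim (fun p => (if (ofLex (ofLex p).1).isLeft then 1 else 0) - if (ofLex p).2 ∈ c then 1 else 0)
    fun j => if (o j).isLeft then 1 else -1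

-- deps: ADM CELL
def S_SHA : Prop := ∀ (Q₀ Q₁ β κ ν : Type) [DecidableEq Q₀] [Fintype Q₁] [Fintype β]
  [LinearOrder β] [Fintype κ] [LinearOrder κ] [Fintype ν] (s t : Q₁ → Q₀) (vx : β → Q₀)
  (o : ν ≃ Ent s t vx ⊕ Ent s t vx) (i : κ → Q₀) (c : Finset κ), Con (shufSet s t vx o i c) ∧
    ∀ u : ℂ, u ≠ 0 → ∀ z ∈ shufSet s t vx o i c,
      Sum.elim (fun j => u ^ shufWt o c j * z (Sum.inl j)) (z ∘ Sum.inr) ∈ shufSet s t vx o i c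

-- deps: ADM CELL TRANS GINV
def S_SHB : Prop := ∀ (Q₀ Q₁ β κ ν : Type) [DecidableEq Q₀] [Fintype Q₁] [Fintype β]
  [LinearOrder β] [Fintype κ] [LinearOrder κ] [Fintype ν] (s t : Q₁ → Q₀) (vx : β → Q₀)
  (o : ν ≃ Ent s t vx ⊕ Ent s t vx) (i : κ → Q₀) (c : Finset κ)
  (φ : Fn (Ent s t vx ⊕ Ent s t vx)), Additive φ →
    intg φ (shufSet s t vx o i c ∩ {z | ∀ j, shufWt o c j ≠ 0 → z (Sum.inl j) = 0}) =
      intg φ {z : ((β ×ₗ {k // k ∈ c}) ⊕ (β ×ₗ {k // k ∉ c})) ⊕ Ent s t vx ⊕ Ent s t vx → ℂ |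
        z ∘ Sum.map Sum.inl Sum.inl ∈ flagBundle s t vx (i ∘ Subtype.val) ∧
        z ∘ Sum.map Sum.inr Sum.inr ∈ flagBundle s t vx (i ∘ Subtype.val)}

-- deps: PUSH CLS LOCT PRODI FUB CELL GINV SHA SHB
def S_SHUF : Prop := ∀ (Q₀ Q₁ β κ ν : Type) [DecidableEq Q₀] [Fintype Q₁] [Fintype β]
  [LinearOrder β] [Fintype κ] [LinearOrder κ] [Fintype ν] (s t : Q₁ → Q₀) (vx : β → Q₀)
  (o : ν ≃ Ent s t vx ⊕ Ent s t vx) (i : κ → Q₀) (φ : Fn (Ent s t vx ⊕ Ent s t vx))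
  (φ₁ φ₂ : Fn (Ent s t vx)), Additive φ → Additive φ₁ → Additive φ₂ → ProdType φ φ₁ φ₂ →
    intg (fun N B Z => push Sum.inr φ
      (N.res ((Equiv.sumCongr o (Equiv.refl _)).trans (entEquiv s t vx))) B Z)
      (flagBundle s t (vx2 vx) i) =
    ∑ c : Finset κ, intg φ₁ (flagBundle s t vx (i ∘ Subtype.val : {k // k ∈ c} → Q₀)) *
      intg φ₂ (flagBundle s t vx (i ∘ Subtype.val : {k // k ∉ c} → Q₀))

-- deps:
def S_RTR : Prop := ∀ (σ : Type) [Fintype σ] (g : Submodule ℂ (Matrix σ σ ℂ)) (Y : σ ⊕ σ → ℂ),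
  (∀ (ι : Type) [Fintype ι] (e : ι ≃ σ), ∃ g' : Submodule ℂ (Matrix ι ι ℂ),
    (∀ A, A ∈ g' ↔ ∃ B ∈ g, A = B.submatrix e e) ∧ (IsLie g → IsLie g') ∧
      (Rigid g Y → Rigid g' (Y ∘ Sum.map e e))) ∧
  ∃ g' : Submodule ℂ (Matrix (σ ⊕ σ) (σ ⊕ σ) ℂ),
    (∀ A, A ∈ g' ↔ ∃ B ∈ g, ∃ C ∈ g, A = Matrix.fromBlocks B 0 0 C) ∧ (IsLie g → IsLie g') ∧
      (Rigid g Y → Rigid g' (Sum.elim (Sum.elim (Y ∘ Sum.inl) (Y ∘ Sum.inl))
        (Sum.elim (Y ∘ Sum.inr) (Y ∘ Sum.inr))))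

-- deps: ADM
def S_RDBL : Prop := ∀ (Q₀ Q₁ β : Type) [DecidableEq Q₀] [Fintype Q₁] [Fintype β]
  [LinearOrder β] (s t : Q₁ → Q₀) (vx : β → Q₀) (y : Ent s t vx ⊕ Ent s t vx → ℂ)
  (y₂ : Ent s t (vx2 vx) ⊕ Ent s t (vx2 vx) → ℂ),
    y₂ ∘ Sum.map (entEquiv s t vx) (entEquiv s t vx) = ext0 (Ent s t vx ⊕ Ent s t vx)
      (Sum.elim (Sum.elim (y ∘ Sum.inl) (y ∘ Sum.inl)) (Sum.elim (y ∘ Sum.inr) (y ∘ Sum.inr))) →
    (∀ a, dbl s t (vx2 vx) y₂ a =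
      (Matrix.fromBlocks (dbl s t vx y a) 0 0 (dbl s t vx y a)).submatrix ofLex ofLex) ∧
    (RigM s t vx y → RigM s t (vx2 vx) y₂)

-- deps: VF ADM RIGQ RTR RDBL
def S_INST : Prop := ∀ (Q₀ Q₁ β ν : Type) [DecidableEq Q₀] [Fintype Q₁] [Fintype β]
  [LinearOrder β] [Fintype ν] [LinearOrder ν] (s t : Q₁ → Q₀) (vx : β → Q₀)
  [DecidableEq (Ent s t vx ⊕ Ent s t vx)] (o : ν ≃ Ent s t vx ⊕ Ent s t vx) (deg : β → ℤ) (z : Ent s t vx ⊕ Ent s t vx → ℂ),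
    RigM s t vx z → Graded s t vx deg z → ∃ S : Setup ν (Ent s t vx ⊕ Ent s t vx),
      S.Y = Sum.elim (Sum.elim (z ∘ Sum.inl) (z ∘ Sum.inl)) (Sum.elim (z ∘ Sum.inr) (z ∘ Sum.inr)) ∧
      S.w₀ = Sum.elim (wtE s t vx deg) (wtE s t vx deg) ∧ S.τ = Equiv.sumComm _ _ ∧
      ∀ M : WM (Ent s t (vx2 vx)), LocFin M (gl s t (vx2 vx)) →
        LocFin (M.res ((Equiv.sumCongr o (Equiv.refl _)).trans (entEquiv s t vx))) S.g

-- deps: PISO MULT DEC PUSH RESM BOXH BOXS BOXM CLS KAP DIRAC INTG REW SHC SHUF INST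
def S_UNIQ : Prop := ∀ (Q₀ Q₁ β κ : Type) [DecidableEq Q₀] [Fintype Q₁] [Fintype β]
  [LinearOrder β] [Fintype κ] [LinearOrder κ] (s t : Q₁ → Q₀) (vx : β → Q₀) (deg : β → ℤ)
  (z : Ent s t vx ⊕ Ent s t vx → ℂ) (L₁ L₂ : WM (Ent s t vx)) (i₁ i₂ : κ → Q₀),
    RigM s t vx z → Graded s t vx deg z → L₁.Simple → L₁.Holo → L₂.Simple → L₂.Holo →
    intg L₁.mult (flagBundle s t vx i₁) ≠ 0 → intg L₂.mult (flagBundle s t vx i₂) ≠ 0 →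
    kap (wtE s t vx deg) z L₁ ⊥ ⊤ ≠ 0 → kap (wtE s t vx deg) z L₂ ⊥ ⊤ ≠ 0 → Iso L₁ L₂

end Pool.Agent.P.MP_52ab5a_al
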