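import Pool.Agent.P.MP_52ab5a_al.F.Iface
import Pool.Agent.P.MP_52ab5a_al.B.Iface

/-! Step INST of the open orbit project. -/

namespace Pool.Agent.P.MP_52ab5a_al

open MvPolynomial WM

namespace InstAux

theorem dg_sub {ι σ : Type} [DecidableEq ι] [DecidableEq σ] (e : ι ≃ σ) (w : σ → ℤ) :
    (dg w).submatrix e e = dg (w ∘ e) := by
  ext i j
  simp [dg, Matrix.diagonal_apply]

theorem blk_dg {ι σ : Type} [DecidableEq ι] [DecidableEq σ] [DecidableEq (ι ⊕ σ)] (a : ι → ℤ)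
    (b : σ → ℤ) : Matrix.fromBlocks (dg a) 0 0 (dg b) = dg (Sum.elim a b) := by
  ext (i | i) (j | j) <;> simp [dg, Matrix.diagonal_apply]

theorem dg_zero {σ : Type} [DecidableEq σ] : dg (0 : σ → ℤ) = 0 := by
  ext i j
  simp [dg]

theorem hv_sub {ι σ : Type} [Fintype ι] [Fintype σ] (e : ι ≃ σ) (B : Matrix σ σ ℂ)
    (y : σ ⊕ σ → ℂ) : hv (B.submatrix e e) (y ∘ Sum.map e e) = hv B y ∘ Sum.map e e := by
  funext v
  rcases v with v | v
  · simp only [hv, Sum.elim_inl, Function.comp_apply, Sum.map_inl, Matrix.mulVec, dotProduct,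
      Matrix.submatrix_apply]
    exact Equiv.sum_comp e fun j => B (e v) j * y (Sum.inl j)
  · simp only [hv, Sum.elim_inr, Function.comp_apply, Sum.map_inr, Pi.neg_apply,
      Matrix.mulVec, dotProduct, Matrix.submatrix_apply, Matrix.transpose_apply, neg_inj]
    exact Equiv.sum_comp e fun j => B j (e v) * y (Sum.inr j)

theorem alg {R : Type} [Ring R] [Algebra ℂ R] (A B : R) (hA : A * A = 1) (hB : B * B = 1)
    (h : B * A = A * B) :
    (((1 / 2 : ℂ) • (A - B)) * ((1 / 2 : ℂ) • (A - B)) * ((1 / 2 : ℂ) • (A - B)) =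
      (1 / 2 : ℂ) • (A - B)) ∧
    1 - (2 : ℂ) • (((1 / 2 : ℂ) • (A - B)) * ((1 / 2 : ℂ) • (A - B))) = A * B := by
  have h1 : (A - B) * (A - B) = (2 : ℂ) • (1 - A * B) := by
    rw [sub_mul, mul_sub, mul_sub, hA, hB, h]; module
  have h2 : (1 - A * B) * (A - B) = (2 : ℂ) • (A - B) := by
    rw [sub_mul, one_mul, mul_sub, mul_assoc A B B, hB, mul_one, mul_assoc, h, ← mul_assoc, hA,
      one_mul]
    module
  constructor
  · simp only [smul_mul_assoc, mul_smul_comm, h1, h2]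
    module
  · simp only [smul_mul_assoc, mul_smul_comm, h1]
    module

variable {Q₀ Q₁ β : Type}

/-- Block diagonal matrices on the doubled space. -/
def bd (A B : Matrix β β ℂ) : Matrix (β ⊕ₗ β) (β ⊕ₗ β) ℂ :=
  (Matrix.fromBlocks A 0 0 B).submatrix ofLex ofLex

/-- The swap of the two summands. -/
def sg (b : β ⊕ₗ β) : β ⊕ₗ β := toLex (ofLex b).swap

theorem sg_sg (b : β ⊕ₗ β) : sg (sg b) = b := by
  rcases b with b | b <;> rfl

theorem vx2_sg (vx : β → Q₀) (b : β ⊕ₗ β) : vx2 vx (sg b) = vx2 vx b := by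
  rcases b with b | b <;> rfl

/-- The matrix of the swap. -/
def Sm [DecidableEq β] : Matrix (β ⊕ₗ β) (β ⊕ₗ β) ℂ := Matrix.of fun c b => if b = sg c then 1 else 0

theorem gd_Sm [DecidableEq β] (vx : β → Q₀) : Gd (vx2 vx) (Sm (β := β)) := by
  intro c b h
  refine if_neg fun hb => h ?_
  rw [hb, vx2_sg]

theorem gd_one [DecidableEq β] (vx : β → Q₀) : Gd vx 1 := fun _ _ h =>
  Matrix.one_apply_ne fun hb => h (by rw [hb])

theorem gd_bd {vx : β → Q₀} {A B : Matrix β β ℂ} (hA : Gd vx A) (hB : Gd vx B) :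
    Gd (vx2 vx) (bd A B) := by
  rintro (c | c) (b | b) h
  · exact hA c b h
  · rfl
  · rfl
  · exact hB c b h

theorem Sm_mul [DecidableEq β] [Fintype β] (A : Matrix (β ⊕ₗ β) (β ⊕ₗ β) ℂ) (c b : β ⊕ₗ β) :
    (Sm * A : Matrix (β ⊕ₗ β) (β ⊕ₗ β) ℂ) c b = A (sg c) b := by
  simp [Sm, Matrix.mul_apply]

theorem mul_Sm [DecidableEq β] [Fintype β] (A : Matrix (β ⊕ₗ β) (β ⊕ₗ β) ℂ) (c b : β ⊕ₗ β) :
    (A * Sm : Matrix (β ⊕ₗ β) (β ⊕ₗ β) ℂ) c b = A c (sg b) := by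
  rw [Matrix.mul_apply, Finset.sum_eq_single (sg b)]
  · simp [Sm, sg_sg]
  · intro j _ hj
    have : ¬b = sg j := fun h => hj (by rw [h, sg_sg])
    simp [Sm, this]
  · simp

theorem Sm_sq [DecidableEq β] [Fintype β] : (Sm * Sm : Matrix (β ⊕ₗ β) (β ⊕ₗ β) ℂ) = 1 := by
  ext c b
  rw [Sm_mul]
  simp [Sm, sg_sg, Matrix.one_apply, eq_comm]

theorem Sm_bd [DecidableEq β] [Fintype β] (A : Matrix β β ℂ) : Sm * bd A A = bd A A * Sm := by
  ext c b
  rw [Sm_mul, mul_Sm]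
  rcases c with c | c <;> rcases b with b | b <;> rfl

theorem bd_one [DecidableEq β] : bd (1 : Matrix β β ℂ) 1 = 1 := by
  rw [bd, Matrix.fromBlocks_one]
  exact Matrix.submatrix_one_equiv ofLex

variable (s t : Q₁ → Q₀) (vx : β → Q₀)

theorem Adm_bd (A B C D : Matrix β β ℂ) :
    (Adm s t (vx2 vx) (bd A B) (bd C D)).submatrix (entEquiv s t vx) (entEquiv s t vx) =
      Matrix.fromBlocks (Matrix.fromBlocks (Adm s t vx A D) 0 0 (Adm s t vx B C)) 0 0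
        (Matrix.fromBlocks (Adm s t vx A C) 0 0 (Adm s t vx B D)) := by
  ext ((p | p) | (p | p)) ((q | q) | (q | q)) <;> simp [Adm, bd, entEquiv]

theorem adm_bd [DecidableEq β] (A B : Matrix β β ℂ) :
    (adm s t (vx2 vx) (bd A B)).submatrix (entEquiv s t vx) (entEquiv s t vx) =
      Matrix.fromBlocks (Matrix.fromBlocks (Adm s t vx A 1 - Adm s t vx 1 B) 0 0
        (Adm s t vx B 1 - Adm s t vx 1 A)) 0 0
        (Matrix.fromBlocks (adm s t vx A) 0 0 (adm s t vx B)) := by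
  rw [adm, ← bd_one, Matrix.submatrix_sub, Pi.sub_apply, Pi.sub_apply, Adm_bd, Adm_bd]
  ext ((p | p) | (p | p)) ((q | q) | (q | q)) <;> simp [adm]

/-- The swap on entries. -/
def sw (p : Ent s t (vx2 vx)) : Ent s t (vx2 vx) :=
  ⟨(p.1.1, sg p.1.2.1, sg p.1.2.2), by rw [vx2_sg, vx2_sg]; exact p.2⟩

theorem ent_swap (p : (Ent s t vx ⊕ Ent s t vx) ⊕ Ent s t vx ⊕ Ent s t vx) :
    entEquiv s t vx (Sum.map Sum.swap Sum.swap p) = sw s t vx (entEquiv s t vx p) := by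
  rcases p with (p | p) | (p | p) <;> rfl

theorem adm_sw [DecidableEq β] (ξ : Matrix (β ⊕ₗ β) (β ⊕ₗ β) ℂ) :
    (adm s t (vx2 vx) ξ).submatrix (sw s t vx) (sw s t vx) =
      adm s t (vx2 vx) (ξ.submatrix sg sg) := by
  have hi : Function.Injective (sg (β := β)) := Function.LeftInverse.injective sg_sg
  ext p q
  simp [adm, Adm, sw, Matrix.one_apply, hi.eq_iff]

open Classical in
theorem Adm_Sm [DecidableEq β] (p q : Ent s t (vx2 vx)) :
    Adm s t (vx2 vx) Sm Sm p q = if q = sw s t vx p then 1 else 0 := by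
  obtain ⟨⟨a, c, b⟩, hp⟩ := p
  obtain ⟨⟨a', c', b'⟩, hq⟩ := q
  have h : b = sg b' ↔ b' = sg b := ⟨fun h => by rw [h, sg_sg], fun h => by rw [h, sg_sg]⟩
  simp only [Adm, Sm, sw, Matrix.of_apply, Subtype.mk.injEq, Prod.mk.injEq, h]
  by_cases h1 : a = a' <;> by_cases h2 : c' = sg c <;> by_cases h3 : b' = sg b <;>
    simp [h1, h2, h3, eq_comm]

end InstAux

open InstAux in
theorem p_INST (hVF : S_VF) (hADM : S_ADM) (hRIGQ : S_RIGQ) (hRTR : S_RTR) (hRDBL : S_RDBL) :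
    S_INST := by
  intro Q₀ Q₁ β ν _ _ _ _ _ _ s t vx dE o deg z hz hgr
  have dQ : DecidableEq Q₁ := Classical.decEq _
  have dE2 : DecidableEq (Ent s t (vx2 vx)) := Classical.decEq _
  let e : ν ⊕ Ent s t vx ⊕ Ent s t vx ≃ Ent s t (vx2 vx) :=
    (Equiv.sumCongr o (Equiv.refl _)).trans (entEquiv s t vx)
  let Y : (Ent s t vx ⊕ Ent s t vx) ⊕ Ent s t vx ⊕ Ent s t vx → ℂ :=
    Sum.elim (Sum.elim (z ∘ Sum.inl) (z ∘ Sum.inl)) (Sum.elim (z ∘ Sum.inr) (z ∘ Sum.inr))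
  let y₂ : Ent s t (vx2 vx) ⊕ Ent s t (vx2 vx) → ℂ :=
    ext0 (Ent s t vx ⊕ Ent s t vx) Y ∘ Sum.map (entEquiv s t vx).symm (entEquiv s t vx).symm
  have hy₂ : y₂ ∘ Sum.map (entEquiv s t vx) (entEquiv s t vx) = ext0 _ Y := by
    funext v
    rcases v with v | v <;> simp [y₂]
  have hye : y₂ ∘ Sum.map e e = ext0 ν Y := by
    funext v
    have := congrFun hy₂ (Sum.map (Sum.map o id) (Sum.map o id) v)
    rcases v with (v | v) | (v | v) <;> exact this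
  obtain ⟨hdbl, hrig⟩ := hRDBL Q₀ Q₁ β s t vx z y₂ hy₂
  obtain ⟨a1, -, a3, -, -, -, -, a8, -, -, a11, a12, a13, a14, -, a16, -, -, a19, -⟩ :=
    hADM Q₀ Q₁ (β ⊕ₗ β) s t (vx2 vx)
  obtain ⟨b1, -, -, -, -, -, -, -, -, -, -, -, b13, -⟩ := hADM Q₀ Q₁ β s t vx
  replace a1 : ∀ A, A ∈ gl s t (vx2 vx) ↔ ∃ ξ, Gd (vx2 vx) ξ ∧ A = adm s t (vx2 vx) ξ := a1
  replace a12 : Adm s t (vx2 vx) 1 1 = 1 :=
    a12.trans (congrArg (fun i : DecidableEq (Ent s t (vx2 vx)) =>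
      (@OfNat.ofNat _ 1 (@One.toOfNat1 _ (@Matrix.one _ ℂ i _ _)) :
        Matrix (Ent s t (vx2 vx)) (Ent s t (vx2 vx)) ℂ)) (Subsingleton.elim _ _))
  replace a13 : IsLie (gl s t (vx2 vx)) := a13
  replace a14 : ∀ ξ η (c : ℂ), adm s t (vx2 vx) (ξ + η) = adm s t (vx2 vx) ξ + adm s t (vx2 vx) η ∧
    adm s t (vx2 vx) (c • ξ) = c • adm s t (vx2 vx) ξ := a14
  replace a16 : ∀ d, adm s t (vx2 vx) (dg d) = dg (wtE s t (vx2 vx) d) := fun d =>
    (a16 d).trans (congrArg (fun i : DecidableEq (Ent s t (vx2 vx)) =>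
      @dg _ i (wtE s t (vx2 vx) d)) (Subsingleton.elim _ _))
  replace a19 : ∀ ξ y a, Gd (vx2 vx) ξ → dbl s t (vx2 vx) (hv (adm s t (vx2 vx) ξ) y) a =
    ξ * dbl s t (vx2 vx) y a - dbl s t (vx2 vx) y a * ξ := a19
  have hR2 : Rigid (gl s t (vx2 vx)) y₂ := (hRIGQ Q₀ Q₁ (β ⊕ₗ β) s t (vx2 vx) y₂).1 (hrig hz)
  obtain ⟨g, hg, hgl, hgr'⟩ := (hRTR _ (gl s t (vx2 vx)) y₂).1 _ e
  obtain ⟨g₀, hg₀, hgl₀, hgr₀⟩ := (hRTR _ (gl s t vx) z).2
  have hmem : ∀ ξ, Gd (vx2 vx) ξ → (adm s t (vx2 vx) ξ).submatrix e e ∈ g := fun ξ h =>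
    (hg _).2 ⟨_, (a1 _).2 ⟨ξ, h, rfl⟩, rfl⟩
  have hgdg : ∀ d : β ⊕ₗ β → ℤ, Gd (vx2 vx) (dg d) := fun d c b h =>
    Matrix.diagonal_apply_ne _ fun hb => h (by rw [hb])
  have hdg : ∀ (d : β ⊕ₗ β → ℤ) (a : ν → ℤ) (b : Ent s t vx ⊕ Ent s t vx → ℤ),
      Sum.elim a b = wtE s t (vx2 vx) d ∘ e → Matrix.fromBlocks (dg a) 0 0 (dg b) ∈ g := by
    intro d a b h
    rw [blk_dg, h, ← dg_sub, ← a16]
    exact hmem _ (hgdg d)
  let bar : ν ≃ ν := o.trans ((Equiv.sumComm _ _).trans o.symm)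
  have hesw : ∀ p, e (Sum.map bar (Equiv.sumComm _ _) p) = sw s t vx (e p) := by
    intro p
    have := ent_swap s t vx (Sum.map o id p)
    rcases p with p | p
    · simpa [e, bar] using this
    · simpa [e, bar] using this
  have hS := gd_Sm (β := β) vx
  have h1 := gd_one (vx2 vx)
  have hAA : Adm s t (vx2 vx) Sm 1 * Adm s t (vx2 vx) Sm 1 = 1 := by
    rw [a11 _ _ _ _ hS h1 hS h1, Sm_sq, mul_one, a12]
  have hBB : Adm s t (vx2 vx) 1 Sm * Adm s t (vx2 vx) 1 Sm = 1 := by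
    rw [a11 _ _ _ _ h1 hS h1 hS, Sm_sq, mul_one, a12]
  have hAB : Adm s t (vx2 vx) Sm 1 * Adm s t (vx2 vx) 1 Sm = Adm s t (vx2 vx) Sm Sm := by
    rw [a11 _ _ _ _ hS h1 h1 hS, mul_one]
  have hBA : Adm s t (vx2 vx) 1 Sm * Adm s t (vx2 vx) Sm 1 = Adm s t (vx2 vx) Sm Sm := by
    rw [a11 _ _ _ _ h1 hS hS h1, one_mul]
  obtain ⟨hc, hq⟩ := alg _ _ hAA hBB (hBA.trans hAB.symm)
  have hP : adm s t (vx2 vx) ((1 / 2 : ℂ) • Sm) =
      (1 / 2 : ℂ) • (Adm s t (vx2 vx) Sm 1 - Adm s t (vx2 vx) 1 Sm) := (a14 Sm Sm _).2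
  have hPg : Gd (vx2 vx) ((1 / 2 : ℂ) • Sm (β := β)) := fun c b h => by
    rw [Matrix.smul_apply, hS c b h, smul_zero]
  rw [← hP] at hc hq
  refine ⟨⟨g, g₀, Y, fun j => if (o j).isLeft then 1 else -1, bar, Equiv.sumComm _ _,
    (adm s t (vx2 vx) ((1 / 2 : ℂ) • Sm)).submatrix e e,
    fun j => wtE s t (vx2 vx) (Sum.elim deg deg ∘ ofLex) (e (Sum.inl j)),
    Sum.elim (wtE s t vx deg) (wtE s t vx deg), hgl a13, hgl₀ b13, hye ▸ hgr' hR2,
    hgr₀ ((hRIGQ Q₀ Q₁ β s t vx z).1 hz), ?_, ?_, ?_, ?_, ?_, ?_, ?_, ?_, ?_, ?_, hmem _ hPg,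
    ?_, ?_, ?_, ?_, ?_⟩, rfl, rfl, rfl, ?_⟩
  · intro j
    by_cases h : (o j).isLeft <;> simp [h]
  · intro j
    rcases h : o j with p | p <;> simp [bar, h]
  · intro j
    simp [bar]
  · intro p
    simp
  · funext v
    rcases v with (v | v) | (v | v) <;> rfl
  · funext v
    rcases v with v | v <;> rfl
  · rw [← dg_zero (σ := Ent s t vx ⊕ Ent s t vx)]
    refine hdg (Sum.elim 1 0 ∘ ofLex) _ _ (funext ?_)
    rintro (j | p | p)
    · rcases h : o j with p | p <;> simp [e, h, wtE, entEquiv]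
    · simp [e, wtE, entEquiv]
    · simp [e, wtE, entEquiv]
  · intro ξ₀ h
    obtain ⟨B, hB, C, hC, rfl⟩ := (hg₀ _).1 h
    obtain ⟨ξ, hξ, rfl⟩ := (b1 _).1 hB
    obtain ⟨η, hη, rfl⟩ := (b1 _).1 hC
    refine ⟨(Matrix.fromBlocks (Adm s t vx ξ 1 - Adm s t vx 1 η) 0 0
      (Adm s t vx η 1 - Adm s t vx 1 ξ)).submatrix o o, ?_, ?_⟩
    · have h2 := hmem _ (gd_bd hξ hη)
      have h3 : (adm s t (vx2 vx) (bd ξ η)).submatrix e e =
          ((adm s t (vx2 vx) (bd ξ η)).submatrix (entEquiv s t vx) (entEquiv s t vx)).submatrix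
            (Sum.map o id) (Sum.map o id) := rfl
      rw [h3, adm_bd] at h2
      convert h2 using 1
      ext (i | i) (j | j) <;> rfl
    · ext i j
      simp only [dg, Matrix.mul_diagonal, Matrix.diagonal_mul, Matrix.submatrix_apply]
      rcases o i with p | p <;> rcases o j with q | q <;> simp
  · refine hdg (Sum.elim deg deg ∘ ofLex) _ _ (funext ?_)
    rintro (j | p | p) <;> rfl
  · intro ξ h
    obtain ⟨B, hB, rfl⟩ := (hg _).1 h
    obtain ⟨η, hη, rfl⟩ := (a1 _).1 hB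
    have h2 := hmem (η.submatrix sg sg) fun c b h => hη _ _ (by rwa [vx2_sg, vx2_sg])
    rw [← adm_sw] at h2
    convert h2 using 1
    ext p q
    simp only [Matrix.submatrix_apply, hesw]
  · rw [Matrix.submatrix_mul_equiv, Matrix.submatrix_mul_equiv, hc]
  · intro p q
    have h2 := congrFun (congrFun (hq.trans hAB) (e p)) (e q)
    rw [Adm_Sm, ← hesw] at h2
    rw [Matrix.submatrix_mul_equiv]
    simpa [Matrix.one_apply] using h2
  · rw [← hye, hv_sub]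
    have : hv (adm s t (vx2 vx) ((1 / 2 : ℂ) • Sm)) y₂ = 0 := by
      refine a3 _ _ fun a => ?_
      have h0 := (a8 0 0 0 a).2
      rw [zero_smul, zero_smul] at h0
      rw [a19 _ _ _ hPg, h0, hdbl a, smul_mul_assoc, mul_smul_comm, sub_eq_zero]
      exact congrArg _ (Sm_bd _)
    rw [this]; rfl
  · rintro (p | p) h <;> exact hgr.supX p h
  · rintro (p | p) h <;> exact hgr.supD p h
  · rintro M ⟨W, hW, hfin, hst⟩
    refine ⟨W, hW, hfin, fun ξ h v hv => ?_⟩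
    obtain ⟨B, hB, rfl⟩ := (hg _).1 h
    rw [(hVF _ M).2.2.2.1 _ e B]
    exact hst B hB v hv

end Pool.Agent.P.MP_52ab5a_al
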