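import Pool.Agent.P.MP_52ab5a_al.F.Iface
import Pool.Agent.P.MP_52ab5a_al.K.Iface
import Pool.Agent.P.MP_52ab5a_al.B.Iface

/-! Step STEPA of the open orbit project. -/

namespace Pool.Agent.P.MP_52ab5a_al

open MvPolynomial WM

theorem p_STEPA (hCELL : S_CELL) (hCHI : S_CHI) (hECH : S_ECH) (hALINK : S_ALINK) (hBR : S_BR) (hGINV : S_GINV) (hTRC : S_TRC) (hABAD : S_ABAD) (hAGOOD : S_AGOOD) :
    S_STEPA := by
  intro Q₀ Q₁ β κ _ _ _ _ _ _ s t vx deg z i hst hmu hgr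
  classical
  rw [hALINK _ _ _ z _ (hGINV Q₀ Q₁ β κ s t vx i).1]
  congr 1
  have hP : PolyFn (phase (κ := κ) s t vx deg z) := by
    unfold phase
    exact PolyFn.sum _ fun p _ => PolyFn.ite _ (PolyFn.const _)
      ((PolyFn.const _).mul (PolyFn.coord _))
  have huniq : ∀ (w w' : κ ≃ β) g, Cell vx i w g → Cell vx i w' g → w = w' := fun w w' g h h' =>
    (((hCELL Q₀ β κ vx i w).1 g h).2.2.2.2.1 w' h').symm
  have e1 : flagBundle s t vx i ∩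
      {q | ∀ p, wtE s t vx deg p ≤ 0 → q (Sum.inr p) = z (Sum.inl p)} =
      ⋃ w : κ ≃ β, attr s t vx deg z i w := by
    ext q
    simp only [Set.mem_iUnion]
    constructor
    · rintro ⟨⟨⟨w, hw⟩, h2⟩, h3⟩
      exact ⟨w, hw, h2, h3⟩
    · rintro ⟨w, hw, h2, h3⟩
      exact ⟨⟨⟨w, hw⟩, h2⟩, h3⟩
  have e2 : {g : β ×ₗ κ → ℂ | Echelon vx i (cols g) ∧ ∀ a, Fixes (dbl s t vx z a) (cols g)} =
      ⋃ w : κ ≃ β,
        {g : β ×ₗ κ → ℂ | Cell vx i w (cols g) ∧ ∀ a, Fixes (dbl s t vx z a) (cols g)} := by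
    ext g
    simp only [Set.mem_iUnion]
    constructor
    · rintro ⟨⟨w, hw⟩, h2⟩
      exact ⟨w, hw, h2⟩
    · rintro ⟨w, hw, h2⟩
      exact ⟨⟨w, hw⟩, h2⟩
  have hc : ∀ w : κ ≃ β,
      Con {g : β ×ₗ κ → ℂ | Cell vx i w (cols g) ∧ ∀ a, Fixes (dbl s t vx z a) (cols g)} :=
    fun w => (((hCELL Q₀ β κ vx i w).2.2.2 (β ×ₗ κ) cols fun b j => PolyFn.coord _).2.2 (Q₁ ⊕ Q₁)
      (fun a _ => dbl s t vx z a) fun a c b => PolyFn.const _).1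
  obtain ⟨hadd, hun, hzero, -⟩ := hECH.2 _ _ hP
  change ech _ (phase s t vx deg z) = _
  unfold flagChi
  rw [(hBR _).2, e1, e2,
    hun _ _ (fun w => (hABAD Q₀ Q₁ β κ s t vx deg z i w hgr).1)
      (fun w w' hne => Set.disjoint_left.2 fun q h h' => hne (huniq w w' _ h.1 h'.1)),
    (hCHI _).2.2.2.1 _ _ hc
      (fun w w' hne => Set.disjoint_left.2 fun q h h' => hne (huniq w w' _ h.1 h'.1))]
  refine Finset.sum_congr rfl fun w _ => ?_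
  obtain ⟨c1, c2, -, h0⟩ := hABAD Q₀ Q₁ β κ s t vx deg z i w hgr
  rw [← hAGOOD Q₀ Q₁ β κ s t vx deg z i w hgr,
    ← hzero _ (c1.inter c2) fun q hq => hTRC Q₀ Q₁ β κ s t vx deg z i w hst hmu hgr q hq.1 hq.2]
  have := hadd _ _ (c1.inter c2) (c1.diff c2) (Set.disjoint_left.2 fun q h h' => h'.2 h.2)
  rw [Set.inter_union_sdiff, h0, add_zero] at this
  exact this

end Pool.Agent.P.MP_52ab5a_al
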