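import Pool.Agent.P.MP_52ab5a_al.F.Iface
import Pool.Agent.P.MP_52ab5a_al.K.Iface

/-! Step SWAP of the open orbit project. -/

namespace Pool.Agent.P.MP_52ab5a_al

open MvPolynomial WM

namespace SwapAux

variable {Q₀ β κ : Type} [LinearOrder β] [LinearOrder κ] {vx : β → Q₀} {i : κ → Q₀} {w : κ ≃ β}
  {k k' : κ}

/-- The columns `k, k'` are replaced by `col k' + u col k` and `col k`. -/
def sw (k k' : κ) (u : ℂ) (g : Matrix β κ ℂ) : Matrix β κ ℂ :=
  Matrix.of fun b j => if j = k then g b k' + u * g b k else if j = k' then g b k else g b j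

/-- The inverse operation. -/
def us (k k' : κ) (u : ℂ) (g : Matrix β κ ℂ) : Matrix β κ ℂ :=
  Matrix.of fun b j => if j = k then g b k' else if j = k' then g b k - u * g b k' else g b j

omit [LinearOrder β] in
theorem sw_us (h : k ≠ k') (u : ℂ) (g : Matrix β κ ℂ) : sw k k' u (us k k' u g) = g := by
  ext b j
  by_cases h1 : j = k
  · simp [sw, us, h1, h.symm]
  · by_cases h2 : j = k' <;> simp [sw, us, h1, h2, h.symm]

theorem swap_lt (h : k ⋖ k') {j l : κ} (h2 : j ≠ k') (hl : l < j) :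
    Equiv.swap k k' l < j := by
  rw [Equiv.swap_apply_def]
  split_ifs with e1 e2
  · exact lt_of_le_of_ne (h.ge_of_gt (e1 ▸ hl)) h2.symm
  · exact h.lt.trans (e2 ▸ hl)
  · exact hl

theorem swap_low (h : k ⋖ k') {l : κ} (hl : l < k) : Equiv.swap k k' l = l :=
  Equiv.swap_apply_of_ne_of_ne hl.ne (hl.trans h.lt).ne

theorem cell_sw (h : k ⋖ k') (hi : i k = i k') (hw : w k < w k') (u : ℂ) {g : Matrix β κ ℂ}
    (hg : Cell vx i w g) : Cell vx i ((Equiv.swap k k').trans w) (sw k k' u g) := by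
  intro j
  obtain ⟨a1, a2, a3⟩ := hg k
  obtain ⟨b1, b2, b3⟩ := hg k'
  simp only [Equiv.trans_apply, sw, Matrix.of_apply]
  by_cases h1 : j = k
  · subst h1
    simp only [Equiv.swap_apply_left, if_true]
    refine ⟨b1.trans hi.symm, by rw [b2, a3 _ (Or.inl hw)]; simp, fun b hb => ?_⟩
    rcases hb with hb | hb | ⟨l, hl, hb⟩
    · rw [b3 b (Or.inl hb), a3 b (Or.inl (hw.trans hb))]; simp
    · rw [b3 b (Or.inr (Or.inl (hi ▸ hb))), a3 b (Or.inr (Or.inl hb))]; simp
    · rw [swap_low h hl] at hb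
      rw [b3 b (Or.inr (Or.inr ⟨l, hl.trans h.lt, hb⟩)), a3 b (Or.inr (Or.inr ⟨l, hl, hb⟩))]; simp
  by_cases h2 : j = k'
  · subst h2
    simp only [Equiv.swap_apply_right, if_neg h1, if_true]
    refine ⟨a1.trans hi, a2, fun b hb => a3 b ?_⟩
    rcases hb with hb | hb | ⟨l, hl, hb⟩
    · exact Or.inl hb
    · exact Or.inr (Or.inl (hi ▸ hb))
    · rcases (h.le_of_lt hl).lt_or_eq with e | e
      · exact Or.inr (Or.inr ⟨l, e, by rw [hb, swap_low h e]⟩)
      · rw [e, Equiv.swap_apply_left] at hb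
        exact Or.inl (hb ▸ hw)
  simp only [if_neg h1, if_neg h2, Equiv.swap_apply_of_ne_of_ne h1 h2]
  refine ⟨(hg j).1, (hg j).2.1, fun b hb => (hg j).2.2 b ?_⟩
  rcases hb with hb | hb | ⟨l, hl, hb⟩
  exacts [Or.inl hb, Or.inr (Or.inl hb), Or.inr (Or.inr ⟨_, swap_lt h h2 hl, hb⟩)]

theorem cell_us (h : k ⋖ k') (hi : i k = i k') (hw : w k < w k') {g : Matrix β κ ℂ}
    (hg : Cell vx i ((Equiv.swap k k').trans w) g) : Cell vx i w (us k k' (g (w k) k) g) := by
  intro j
  obtain ⟨a1, a2, a3⟩ := hg k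
  obtain ⟨b1, b2, b3⟩ := hg k'
  simp only [Equiv.trans_apply, Equiv.swap_apply_left, Equiv.swap_apply_right] at a1 a2 a3 b1 b2 b3
  simp only [us, Matrix.of_apply]
  by_cases h1 : j = k
  · subst h1
    simp only [if_true]
    refine ⟨b1.trans hi.symm, b2, fun b hb => b3 b ?_⟩
    rcases hb with hb | hb | ⟨l, hl, hb⟩
    exacts [Or.inl hb, Or.inr (Or.inl (hi ▸ hb)),
      Or.inr (Or.inr ⟨l, hl.trans h.lt, by rw [hb, swap_low h hl]⟩)]
  by_cases h2 : j = k'
  · subst h2
    simp only [if_neg h1, if_true]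
    refine ⟨a1.trans hi, by rw [a2, b3 _ (Or.inl hw)]; simp, fun b hb => ?_⟩
    rcases hb with hb | hb | ⟨l, hl, hb⟩
    · rw [a3 b (Or.inl hb), b3 b (Or.inl (hw.trans hb))]; simp
    · rw [a3 b (Or.inr (Or.inl (hi ▸ hb))), b3 b (Or.inr (Or.inl hb))]; simp
    · rcases (h.le_of_lt hl).lt_or_eq with e | e
      · rw [← swap_low h e] at hb
        rw [a3 b (Or.inr (Or.inr ⟨l, e, hb⟩)), b3 b (Or.inr (Or.inr ⟨l, hl, hb⟩))]; simp
      · rw [hb, e, b2]; simp
  have hj := hg j
  simp only [Equiv.trans_apply, Equiv.swap_apply_of_ne_of_ne h1 h2] at hj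
  simp only [if_neg h1, if_neg h2]
  refine ⟨hj.1, hj.2.1, fun b hb => hj.2.2 b ?_⟩
  rcases hb with hb | hb | ⟨l, hl, hb⟩
  exacts [Or.inl hb, Or.inr (Or.inl hb),
    Or.inr (Or.inr ⟨_, swap_lt h h2 hl, by rw [hb, Equiv.swap_apply_self]⟩)]

theorem sw_inj (h : k < k') {u u' : ℂ} {g g' : Matrix β κ ℂ} (hg : Cell vx i w g)
    (hg' : Cell vx i w g') (e : sw k k' u g = sw k k' u' g') : u = u' ∧ g = g' := by
  have e1 : ∀ b, g b k' + u * g b k = g' b k' + u' * g' b k := fun b => by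
    simpa [sw] using congrFun (congrFun e b) k
  have e2 : ∀ b, g b k = g' b k := fun b => by simpa [sw, h.ne'] using congrFun (congrFun e b) k'
  have hu : u = u' := by
    have := e1 (w k)
    rwa [(hg k').2.2 _ (Or.inr (Or.inr ⟨k, h, rfl⟩)), (hg' k').2.2 _ (Or.inr (Or.inr ⟨k, h, rfl⟩)),
      (hg k).2.1, (hg' k).2.1, mul_one, mul_one, zero_add, zero_add] at this
  refine ⟨hu, Matrix.ext fun b j => ?_⟩
  by_cases h1 : j = k
  · rw [h1, e2]
  by_cases h2 : j = k'
  · have := e1 b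
    rw [e2, hu] at this
    rw [h2]; exact add_right_cancel this
  · simpa [sw, h1, h2] using congrFun (congrFun e b) j

omit [LinearOrder β] in
theorem col_mem (g : Matrix β κ ℂ) {l j : κ} (h : l ≤ j) : (fun b => g b l) ∈ step g j :=
  Submodule.subset_span ⟨l, h, rfl⟩

omit [LinearOrder β] in
theorem step_mono (g : Matrix β κ ℂ) {l j : κ} (h : l ≤ j) : step g l ≤ step g j :=
  Submodule.span_mono fun _ ⟨m, hm, e⟩ => ⟨m, hm.trans h, e⟩

omit [LinearOrder β] in
theorem step_sw (h : k ⋖ k') (u : ℂ) (g : Matrix β κ ℂ) {j : κ} (hj : j ≠ k) :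
    step (sw k k' u g) j = step g j := by
  have up : k ≤ j → k' ≤ j := fun e => h.ge_of_gt (lt_of_le_of_ne e hj.symm)
  have c1 : (fun b => sw k k' u g b k) = (fun b => g b k') + u • fun b => g b k := by
    ext b; simp [sw]
  have c2 : (fun b => sw k k' u g b k') = fun b => g b k := by ext b; simp [sw, h.lt.ne']
  have c3 : ∀ l, l ≠ k → l ≠ k' → (fun b => sw k k' u g b l) = fun b => g b l := fun l h1 h2 => by
    ext b; simp [sw, h1, h2]
  refine le_antisymm (Submodule.span_le.2 ?_) (Submodule.span_le.2 ?_) <;> rintro _ ⟨l, hl, rfl⟩ <;>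
    by_cases h1 : l = k
  · subst h1
    rw [c1]
    exact add_mem (col_mem g (up hl)) (Submodule.smul_mem _ _ (col_mem g hl))
  · by_cases h2 : l = k'
    · subst h2
      rw [c2]; exact col_mem g (h.le.trans hl)
    · rw [c3 l h1 h2]; exact col_mem g hl
  · subst h1
    rw [← c2]; exact col_mem _ (up hl)
  · by_cases h2 : l = k'
    · subst h2
      rw [eq_sub_of_add_eq c1.symm, ← c2]
      exact sub_mem (col_mem _ (h.le.trans hl)) (Submodule.smul_mem _ _ (col_mem _ hl))
    · rw [← c3 l h1 h2]; exact col_mem _ hl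

theorem fix_of [Fintype β] (h : k ⋖ k') (hi : i k = i k') {A : Matrix β β ℂ} {u u' : Q₀}
    (hu : u ≠ u') (hA : ∀ c b, A c b ≠ 0 → vx c = u' ∧ vx b = u) {g g' : Matrix β κ ℂ}
    {w' : κ ≃ β} (hg : Cell vx i w' g') (hs : ∀ j, j ≠ k → step g' j = step g j)
    (hf : Fixes A g) : Fixes A g' := by
  classical
  have gr : ∀ b j, vx b ≠ i j → g' b j = 0 := fun b j e => (hg j).2.2 b (Or.inr (Or.inl e))
  have h1 : ∀ j, j ≠ k → ∀ v ∈ step g' j, A.mulVec v ∈ step g' j := fun j hj v hv => by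
    rw [hs j hj] at hv ⊢; exact hf j v hv
  intro j
  by_cases hj : j = k
  swap
  · exact h1 j hj
  subst hj
  suffices step g' j ≤ (step g' j).comap A.mulVecLin from fun v hv => this hv
  refine Submodule.span_le.2 ?_
  rintro _ ⟨l, hl, rfl⟩
  change A.mulVec _ ∈ step g' j
  rcases hl.lt_or_eq with e | e
  · exact step_mono g' hl (h1 l e.ne _ (col_mem g' le_rfl))
  subst e
  by_cases hk : i l = u
  · set D : Matrix β β ℂ := Matrix.diagonal fun c => if vx c = u' then 1 else 0 with hD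
    have hp : step g' k' ≤ (step g' l).comap D.mulVecLin := by
      refine Submodule.span_le.2 ?_
      rintro _ ⟨m, hm, rfl⟩
      change D.mulVec _ ∈ step g' l
      by_cases hm' : i m = u'
      · have e : D.mulVec (fun b => g' b m) = fun b => g' b m := by
          ext c
          rw [hD, Matrix.mulVec_diagonal]
          split_ifs with hc
          · exact one_mul _
          · rw [gr c m (hm' ▸ hc), mul_zero]
        rw [e]
        exact col_mem g' (h.le_of_lt (lt_of_le_of_ne hm fun e2 =>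
          hu (hk.symm.trans (hi.trans (e2 ▸ hm')))))
      · have e : D.mulVec (fun b => g' b m) = 0 := by
          ext c
          rw [hD, Matrix.mulVec_diagonal]
          split_ifs with hc
          · rw [gr c m fun e2 => hm' (e2.symm.trans hc), mul_zero]; rfl
          · exact zero_mul _
        rw [e]; exact zero_mem _
    have e : D * A = A := by
      ext c b
      rw [hD, Matrix.diagonal_mul]
      split_ifs with hc
      · exact one_mul _
      · rw [zero_mul]; by_contra e2; exact hc (hA c b (Ne.symm e2)).1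
    have := hp (h1 k' h.lt.ne' _ (col_mem g' h.le))
    change D.mulVec (A.mulVec _) ∈ step g' l at this
    rwa [Matrix.mulVec_mulVec, e] at this
  · have e : A.mulVec (fun b => g' b l) = 0 := by
      ext c
      refine Finset.sum_eq_zero fun b _ => ?_
      change A c b * g' b l = 0
      by_cases e2 : A c b = 0
      · rw [e2, zero_mul]
      · rw [gr b l fun e3 => hk (e3.symm.trans (hA c b e2).2), mul_zero]
    rw [e]; exact zero_mem _

end SwapAux

open SwapAux in
theorem p_SWAP (hCELL : S_CELL) (hTRANS : S_TRANS) (hLINE : S_LINE) :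
    S_SWAP := by
  intro Q₀ β κ σ α _ _ _ _ _ _ vx i A w k k' φ hA h hi hw hφ
  have hc : Con (cellSet vx i A w) :=
    (((hCELL Q₀ β κ vx i w).2.2.2 ((β ×ₗ κ) ⊕ σ) (fun x => cols (x ∘ Sum.inl))
      fun b j => PolyFn.coord _).2.2 α (fun a x => A a (x ∘ Sum.inr))
      fun a c b => (hA.poly a c b).comp fun s => PolyFn.coord _).1
  rw [← hLINE _ σ φ _ hφ hc]
  refine ((hTRANS (β ×ₗ κ) ((β ×ₗ κ) ⊕ Unit) σ _ _).2 (fun z p => sw k k' (z (Sum.inl (Sum.inr ())))
    (cols (z ∘ Sum.inl ∘ Sum.inl)) (ofLex p).1 (ofLex p).2) (fun p => ?_) (hc.comp _)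
    ⟨?_, ?_, ?_⟩).2 φ hφ
  · exact PolyFn.ite _ ((PolyFn.coord _).add ((PolyFn.coord _).mul (PolyFn.coord _)))
      (PolyFn.ite _ (PolyFn.coord _) (PolyFn.coord _))
  · rintro z ⟨h1, h2⟩
    have h3 := cell_sw h hi hw (z (Sum.inl (Sum.inr ()))) h1
    refine ⟨h3, fun a => ?_⟩
    obtain ⟨u, u', hu, hs⟩ := hA.off a
    exact fix_of h hi hu (hs _) h3 (fun j hj => step_sw h _ _ hj) (h2 a)
  · rintro z ⟨h1, -⟩ z' ⟨h1', -⟩ e
    obtain ⟨e1, e2⟩ := sw_inj h.lt h1 h1' (Matrix.ext fun b j => congrFun e (Sum.inl (toLex (b, j))))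
    funext p
    rcases p with (p | p) | p
    exacts [congrFun (congrFun e2 (ofLex p).1) (ofLex p).2, e1, congrFun e (Sum.inr p)]
  · rintro y ⟨h1, h2⟩
    have h3 := cell_us h hi hw h1
    have e := sw_us h.lt.ne (cols (y ∘ Sum.inl) (w k) k) (cols (y ∘ Sum.inl))
    refine ⟨Sum.elim (Sum.elim (fun p => us k k' (cols (y ∘ Sum.inl) (w k) k) (cols (y ∘ Sum.inl))
      (ofLex p).1 (ofLex p).2) fun _ => cols (y ∘ Sum.inl) (w k) k) (y ∘ Sum.inr), ⟨h3, fun a => ?_⟩, ?_⟩
    · obtain ⟨u, u', hu, hs⟩ := hA.off a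
      exact fix_of h hi hu (hs _) h3 (fun j hj => (step_sw h _ _ hj).symm.trans
        (congrArg (step · j) e)) (h2 a)
    · funext p
      rcases p with p | p
      exacts [congrFun (congrFun e (ofLex p).1) (ofLex p).2, rfl]

end Pool.Agent.P.MP_52ab5a_al
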